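import Mathlib

/-! Haar measure on the `p`-adic integers, residues, ergodicity of the odometer. -/

namespace Pool.Agent.Lib.helper3.Padic

open MeasureTheory
open scoped ENNReal

variable {p : ℕ} [Fact p.Prime]

noncomputable instance ms : MeasurableSpace ℤ_[p] := borel _

instance : BorelSpace ℤ_[p] := ⟨rfl⟩

variable (p) in
noncomputable def H : Measure ℤ_[p] := Measure.addHaarMeasure ⊤

instance : (H p).IsAddHaarMeasure := by unfold H; infer_instance

instance : IsProbabilityMeasure (H p) := ⟨Measure.addHaarMeasure_self (K₀ := ⊤)⟩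

instance : (H p).Regular := by unfold H; infer_instance

lemma ergodic : Ergodic (fun u : ℤ_[p] => 1 + u) (H p) :=
  ergodic_add_left_of_denseRange_zsmul (by simpa using PadicInt.denseRange_intCast) _

/-- residue of `u` modulo `p ^ n`, an integer in `[0, p ^ n)` -/
noncomputable def res (n : ℕ) (u : ℤ_[p]) : ℤ := (PadicInt.toZModPow n u).val

lemma pos (n : ℕ) : (0 : ℤ) < p ^ n := pow_pos (by exact_mod_cast (Fact.out : p.Prime).pos) n

instance (n : ℕ) : NeZero (p ^ n) := ⟨pow_ne_zero _ (Fact.out : p.Prime).ne_zero⟩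

lemma res_nonneg (n : ℕ) (u : ℤ_[p]) : 0 ≤ res n u := Int.natCast_nonneg _

lemma res_lt (n : ℕ) (u : ℤ_[p]) : res n u < p ^ n := by
  unfold res
  exact_mod_cast ZMod.val_lt _

lemma res_cast (n : ℕ) (u : ℤ_[p]) : (res n u : ZMod (p ^ n)) = PadicInt.toZModPow n u := by
  simp [res]

lemma res_eq {n : ℕ} {u : ℤ_[p]} {a : ℤ} (h : (a : ZMod (p ^ n)) = PadicInt.toZModPow n u) :
    res n u = a % p ^ n := by
  rw [res, ← h, ZMod.val_intCast]
  simp

lemma res_add (n : ℕ) (u : ℤ_[p]) (s : ℤ) : res n (u + (s : ℤ_[p])) = (res n u + s) % p ^ n :=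
  res_eq (by simp [res_cast])

lemma res_neg (n : ℕ) (u : ℤ_[p]) : res n (-u) = (-res n u) % p ^ n :=
  res_eq (by simp [res_cast])

lemma res_mul (n : ℕ) (u : ℤ_[p]) (s : ℤ) : res n ((s : ℤ_[p]) * u) = (s * res n u) % p ^ n :=
  res_eq (by simp [res_cast])

lemma res_mono {m n : ℕ} (h : m ≤ n) (u : ℤ_[p]) : res m u = res n u % p ^ m :=
  res_eq (by rw [← PadicInt.cast_toZModPow m n h, res]; simp)

lemma res_eq_zero {n : ℕ} {u : ℤ_[p]} : res n u = 0 ↔ (p : ℤ_[p]) ^ n ∣ u := by
  rw [← Ideal.mem_span_singleton, ← PadicInt.ker_toZModPow, RingHom.mem_ker, res, Nat.cast_eq_zero,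
    ZMod.val_eq_zero]

lemma res_meas (n : ℕ) : Measurable (res (p := p) n) := by
  refine measurable_to_countable' fun a => ?_
  by_cases h : ∃ u : ℤ_[p], res n u = a
  · obtain ⟨u, rfl⟩ := h
    have : res n ⁻¹' {res n u} = Metric.closedBall u ((p : ℝ) ^ (-n : ℤ)) := by
      ext v
      simp only [Set.mem_preimage, Set.mem_singleton_iff, Metric.mem_closedBall, dist_eq_norm,
        PadicInt.norm_le_pow_iff_mem_span_pow, ← PadicInt.ker_toZModPow, RingHom.mem_ker, map_sub,
        sub_eq_zero, res, Nat.cast_inj]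
      exact (ZMod.val_injective _).eq_iff
    exact this ▸ Metric.isClosed_closedBall.measurableSet
  · rw [show res n ⁻¹' {a} = ∅ from Set.eq_empty_of_forall_notMem fun u hu => h ⟨u, hu⟩]
    exact .empty

lemma H_res (n : ℕ) {a : ℤ} (h0 : 0 ≤ a) (h1 : a < p ^ n) :
    H p {u | res n u = a} = ((p : ℝ≥0∞) ^ n)⁻¹ := by
  have e : ∀ a : ℤ, 0 ≤ a → a < p ^ n → H p {u | res n u = a} = H p {u | res n u = 0} :=
    fun a h0 h1 => by
      rw [← measure_preimage_add_right (H p) (a : ℤ_[p])]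
      congr 1
      ext u
      have h2 := res_nonneg n u
      have h3 := res_lt n u
      simp only [Set.mem_preimage, Set.mem_ofPred_eq, res_add]
      refine ⟨fun h => ?_, fun h => by rw [h, zero_add, Int.emod_eq_of_lt h0 h1]⟩
      rw [← Int.emod_eq_of_lt h2 h3, ← Int.zero_emod ((p : ℤ) ^ n)]
      exact Int.ModEq.add_right_cancel' a (h.trans (by rw [zero_add, Int.emod_eq_of_lt h0 h1]))
  have s := sum_measure_preimage_singleton (μ := H p) (Finset.Ico (0 : ℤ) (p ^ n)) (f := res n)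
    fun a _ => res_meas n (measurableSet_singleton a)
  rw [Finset.sum_congr rfl (f := fun b => H p (res n ⁻¹' {b})) fun a ha =>
      e a (Finset.mem_Ico.mp ha).1 (Finset.mem_Ico.mp ha).2,
    show res n ⁻¹' _ = Set.univ from Set.eq_univ_of_forall fun u => by
      simp [res_nonneg, res_lt], measure_univ, Finset.sum_const, Int.card_Ico, sub_zero,
    ← Nat.cast_pow, Int.toNat_natCast, nsmul_eq_mul, Nat.cast_pow, mul_comm] at s
  rw [e a h0 h1]
  exact ENNReal.eq_inv_of_mul_eq_one_left s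

lemma H_res_le (n : ℕ) (S : Finset ℤ) :
    H p {u | res n u ∈ S} ≤ S.card * ((p : ℝ≥0∞) ^ n)⁻¹ := by
  rw [show {u | res n u ∈ S} = ⋃ a ∈ S, {u : ℤ_[p] | res n u = a} by ext; simp]
  refine (measure_biUnion_finset_le _ _).trans ((Finset.sum_le_card_nsmul _ _ _ fun a _ => ?_).trans_eq
    (nsmul_eq_mul _ _))
  by_cases h : 0 ≤ a ∧ a < p ^ n
  · exact (H_res n h.1 h.2).le
  · rw [show {u : ℤ_[p] | res n u = a} = ∅ from Set.eq_empty_of_forall_notMem fun u hu =>
      h (hu ▸ ⟨res_nonneg n u, res_lt n u⟩)]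
    simp

end Pool.Agent.Lib.helper3.Padic
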