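import Mathlib

/-! Random walks on groups: i.i.d. sequences, records without ties. -/

namespace Pool.Agent.Lib.helper3.AR

open MeasureTheory Set Filter Topology
open scoped ENNReal

noncomputable abbrev P {G : Type} [MeasurableSpace G] (μ : PMF G) : Measure (ℕ → G) :=
  Measure.infinitePi fun _ => μ.toMeasure

section general

variable {G H : Type} [MeasurableSpace G] [DiscreteMeasurableSpace G] [MeasurableSpace H]

lemma P_map (μ : PMF G) (f : G → H) : P (μ.map f) = (P μ).map fun z t => f (z t) := by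
  rw [Measure.infinitePi_map_pi _ (f := fun _ => f) fun _ => .of_discrete]
  simp only [P, ← PMF.toMeasure_map f μ .of_discrete]

lemma cyl_meas (s : Finset ℕ) (B : ℕ → Set G) : MeasurableSet (Set.pi (s : Set ℕ) B) :=
  .pi (Finset.countable_toSet _) fun _ _ => .of_discrete

lemma cyl (μ : PMF G) (s : Finset ℕ) (B : Set G) :
    P μ (Set.pi s fun _ => B) = μ.toMeasure B ^ s.card := by
  rw [Measure.infinitePi_pi _ fun _ _ => .of_discrete, Finset.prod_const]

lemma one_coord (μ : PMF G) (t : ℕ) (B : Set G) : P μ ((fun z => z t) ⁻¹' B) = μ.toMeasure B := by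
  rw [← Measure.map_apply (measurable_pi_apply t) .of_discrete, Measure.infinitePi_map_eval]

lemma ae_supp (μ : PMF G) : ∀ᵐ z ∂P μ, ∀ t, z t ∈ μ.support := by
  refine ae_all_iff.mpr fun t => ?_
  have := one_coord μ t μ.supportᶜ
  rw [(PMF.toMeasure_apply_eq_zero_iff _ .of_discrete).mpr disjoint_compl_right] at this
  exact this

lemma pow_le {F : ℝ≥0∞} (h : F ≤ 1) (a : ℕ) : a * F ^ a ≤ (1 - F)⁻¹ := by
  rw [← ENNReal.tsum_geometric]
  refine le_trans ?_ (ENNReal.sum_le_tsum (Finset.range a))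
  simpa using Finset.card_nsmul_le_sum (Finset.range a) (fun i => F ^ i) (F ^ a) fun i hi =>
    pow_le_pow_right_of_le_one' h (Finset.mem_range.mp hi).le

lemma ae_io [Countable G] (μ : PMF G) : ∀ᵐ z ∂P μ, ∀ g ∈ μ.support, ∀ n, ∃ t, n ≤ t ∧ z t = g := by
  refine ae_all_iff.mpr fun g => ?_
  by_cases hg : g ∈ μ.support
  swap
  · simp [hg]
  simp only [hg, forall_true_left]
  refine ae_all_iff.mpr fun n => ?_
  have h1 : μ.toMeasure {g}ᶜ < 1 := by
    rw [prob_compl_eq_one_sub .of_discrete, PMF.toMeasure_apply_singleton _ _ .of_discrete]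
    exact ENNReal.sub_lt_self (by simp) (by simp) hg
  refine le_antisymm (ge_of_tendsto' (ENNReal.tendsto_pow_atTop_nhds_zero_of_lt_one h1)
    fun m => ?_) bot_le
  have := cyl μ (Finset.Ico n (n + m)) {g}ᶜ
  rw [Nat.card_Ico, Nat.add_sub_cancel_left] at this
  rw [← this]
  refine measure_mono fun z hz t ht => ?_
  exact fun h => hz ⟨t, (Finset.mem_Ico.mp ht).1, h⟩

end general

lemma tel {c : ℝ} (hc : 0 < c) (n : ℕ) :
    ∑ j ∈ Finset.range n, c / ((j + c) * (j + c + 1)) = 1 - c / (n + c) := by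
  induction n with
  | zero => simp [hc.ne']
  | succ n ih =>
    rw [Finset.sum_range_succ, ih]
    push_cast
    field_simp
    ring

lemma tel_sum {c : ℝ} (hc : 0 < c) : ∑' j : ℕ, ENNReal.ofReal (c / ((j + c) * (j + c + 1))) = 1 := by
  have h0 : ∀ j : ℕ, 0 ≤ c / ((j + c) * (j + c + 1)) := fun j => by positivity
  have h : HasSum (fun j : ℕ => c / ((j + c) * (j + c + 1))) 1 := by
    rw [hasSum_iff_tendsto_nat_of_nonneg h0]
    simp only [tel hc]
    simpa using (tendsto_const_nhds (x := (1 : ℝ))).sub ((tendsto_const_nhds (x := c)).div_atTop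
      (tendsto_atTop_add_const_right _ c tendsto_natCast_atTop_atTop))
  rw [← ENNReal.ofReal_tsum_of_nonneg h0 h.summable, h.tsum_eq, ENNReal.ofReal_one]

noncomputable def nu : PMF ℕ :=
  ⟨fun j => ENNReal.ofReal (5 / ((j + 5) * (j + 5 + 1))),
    tel_sum (c := 5) (by norm_num) ▸ ENNReal.summable.hasSum⟩

lemma nu_ne (i : ℕ) : nu i ≠ 0 := (ENNReal.ofReal_pos.mpr (by positivity)).ne'

lemma nu_Iic (i : ℕ) : nu.toMeasure (Iic i) = ENNReal.ofReal (1 - 5 / (i + 6)) := by
  rw [show Iic i = (Finset.range (i + 1) : Set ℕ) by ext; simp, PMF.toMeasure_apply_finset]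
  change ∑ j ∈ _, ENNReal.ofReal _ = _
  rw [← ENNReal.ofReal_sum_of_nonneg fun j _ => by positivity, tel (by norm_num)]
  congr 1
  push_cast
  ring

lemma nu_tail (i : ℕ) : (1 - nu.toMeasure (Iic i))⁻¹ = ENNReal.ofReal ((i + 6) / 5) := by
  rw [nu_Iic, ← ENNReal.ofReal_one, ← ENNReal.ofReal_sub _ (by
    rw [sub_nonneg, div_le_one (by positivity)]; linarith [(Nat.cast_nonneg i : (0 : ℝ) ≤ i)]),
    sub_sub_cancel, ← ENNReal.ofReal_inv_of_pos (by positivity), inv_div]

lemma quarter {f : ℕ → ℝ≥0∞} (h : ∀ i : ℕ, f i ≤ ENNReal.ofReal (1 / ((i + 4) * (i + 5)))) :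
    ∑' i, f i ≤ ENNReal.ofReal (1 / 4) := by
  refine le_trans ?_ ((congrArg (ENNReal.ofReal (1 / 4) * ·) (tel_sum (c := 4) four_pos)).trans
    (mul_one _)).le
  rw [← ENNReal.tsum_mul_left]
  refine ENNReal.tsum_le_tsum fun i => (h i).trans ?_
  rw [← ENNReal.ofReal_mul (by positivity)]
  refine ENNReal.ofReal_le_ofReal (le_of_eq ?_)
  field_simp
  ring

def C (i a b : ℕ) : Set (ℕ → ℕ) := Set.pi (Finset.range (a + b + 2)) fun r =>
  if r = a ∨ r = a + b + 1 then {i} else Iic i

lemma prod_if (x y : ℝ≥0∞) (a b : ℕ) : ∏ r ∈ Finset.range (a + b + 2),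
    (if r = a ∨ r = a + b + 1 then x else y) = x * x * y ^ a * y ^ b := by
  rw [Finset.prod_range_succ, show a + b + 1 = a + (b + 1) from rfl, Finset.prod_range_add,
    Finset.prod_range_succ', Finset.prod_congr rfl (g := fun _ => y) fun r hr => if_neg (by
      have := Finset.mem_range.mp hr; omega), Finset.prod_congr rfl (g := fun _ => y) fun r hr =>
      if_neg (by have := Finset.mem_range.mp hr; omega)]
  simp
  ring

lemma ties : P nu (⋃ i, ⋃ a, ⋃ b, C i a b) ≤ ENNReal.ofReal (1 / 4) := by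
  refine (measure_iUnion_le _).trans (quarter fun i => ?_)
  have : ∀ a b, P nu (C i a b) = nu.toMeasure {i} * nu.toMeasure {i} * nu.toMeasure (Iic i) ^ a *
      nu.toMeasure (Iic i) ^ b := fun a b => by
    rw [C, Measure.infinitePi_pi _ fun _ _ => .of_discrete, ← prod_if]
    exact Finset.prod_congr rfl fun r _ => by split_ifs <;> rfl
  refine ((measure_iUnion_le _).trans (ENNReal.tsum_le_tsum fun a => measure_iUnion_le _)).trans ?_
  simp only [this, ENNReal.tsum_mul_left, ENNReal.tsum_mul_right, ENNReal.tsum_geometric, nu_tail]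
  rw [PMF.toMeasure_apply_singleton _ _ (measurableSet_singleton _)]
  change ENNReal.ofReal _ * ENNReal.ofReal _ * _ * _ ≤ _
  repeat rw [← ENNReal.ofReal_mul (by positivity)]
  refine ENNReal.ofReal_le_ofReal ?_
  field_simp
  nlinarith [(Nat.cast_nonneg i : (0 : ℝ) ≤ i)]

def tb (k : ℕ) : ℕ := (k + 4) * (k + 5) * (k + 6)

lemma late : P nu (⋃ k, Set.pi (Finset.range (tb k)) fun _ => Iic k) ≤ ENNReal.ofReal (1 / 4) := by
  refine (measure_iUnion_le _).trans (quarter fun i => ?_)
  rw [cyl, Finset.card_range]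
  have h := pow_le (F := nu.toMeasure (Iic i)) prob_le_one (tb i)
  have h0 : (0 : ℝ) < tb i := by unfold tb; positivity
  rw [nu_tail, mul_comm, ← ENNReal.le_div_iff_mul_le (Or.inl (by simpa using h0.ne')) (by simp),
    ← ENNReal.ofReal_natCast, ← ENNReal.ofReal_div_of_pos h0] at h
  refine h.trans (ENNReal.ofReal_le_ofReal ?_)
  unfold tb
  push_cast
  field_simp
  norm_num

/-- no tie for the running maximum, first level at least two, records come in time -/
def Good (I : ℕ → ℕ) : Prop := 2 ≤ I 0 ∧ (∀ s t, s < t → I s = I t → ∃ r < t, I t < I r) ∧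
  ∀ k, ∃ t < tb k, k < I t

lemma good : ∃ B : Set (ℕ → ℕ), MeasurableSet B ∧ P nu B < 1 ∧ ∀ I ∉ B, Good I := by
  refine ⟨((fun I => I 0) ⁻¹' Iic 1 ∪ ⋃ i, ⋃ a, ⋃ b, C i a b) ∪
    ⋃ k, Set.pi (Finset.range (tb k)) fun _ => Iic k, ((measurable_pi_apply 0 .of_discrete).union
      (.iUnion fun i => .iUnion fun a => .iUnion fun b => cyl_meas _ _)).union
      (.iUnion fun k => cyl_meas _ _), ?_, fun I hI => ?_⟩
  · refine ((measure_union_le _ _).trans (add_le_add ((measure_union_le _ _).trans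
      (add_le_add (one_coord nu 0 _).le ties)) late)).trans_lt ?_
    rw [nu_Iic, ← ENNReal.ofReal_add (by norm_num) (by norm_num),
      ← ENNReal.ofReal_add (by norm_num) (by norm_num), ENNReal.ofReal_lt_one]
    norm_num
  simp only [mem_union, mem_iUnion, mem_preimage, not_or, not_exists, mem_Iic] at hI
  obtain ⟨⟨h1, h2⟩, h3⟩ := hI
  refine ⟨by omega, fun s t hst he => ?_, fun k => ?_⟩
  · by_contra hc
    push Not at hc
    obtain ⟨b, rfl⟩ := Nat.exists_eq_add_of_lt hst
    refine h2 (I (s + b + 1)) s b fun r hr => ?_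
    have := Finset.mem_range.mp hr
    beta_reduce
    split_ifs with h1
    · rcases h1 with rfl | rfl
      · exact he
      · rfl
    · exact hc r (by omega)
  · by_contra hc
    push Not at hc
    exact h3 k fun t ht => hc t (Finset.mem_range.mp ht)

/-- level law times a fair sign -/
noncomputable def sg (ν : PMF ℕ) : PMF (ℕ × Bool) :=
  ν.bind fun i => (PMF.uniformOfFintype Bool).map (Prod.mk i)

lemma sg_fst (ν : PMF ℕ) : (sg ν).map Prod.fst = ν := by
  rw [sg, PMF.map_bind]
  simp only [PMF.map_comp, show ∀ i : ℕ, Prod.fst ∘ Prod.mk (β := Bool) i = Function.const _ i from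
    fun i => rfl, PMF.map_const, PMF.bind_pure]

lemma sg_flip (ν : PMF ℕ) (e : ℕ → Bool) : (sg ν).map (fun x => (x.1, xor (e x.1) x.2)) = sg ν := by
  rw [sg, PMF.map_bind]
  congr 1
  funext i
  rw [PMF.map_comp]
  have : (PMF.uniformOfFintype Bool).map (xor (e i)) = PMF.uniformOfFintype Bool := by
    ext b
    cases b <;> cases e i <;> simp [PMF.map_apply]
  conv_rhs => rw [← this, PMF.map_comp]
  rfl

lemma sg_supp (ν : PMF ℕ) (h : ∀ i, ν i ≠ 0) (x : ℕ × Bool) : x ∈ (sg ν).support := by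
  simp [sg, h, -Bool.exists_bool]

section group

variable {G : Type} [Group G]

def st (γ : ℕ → G) (x : ℕ × Bool) : G := if x.2 then γ x.1 else (γ x.1)⁻¹

lemma st_symm (ν : PMF ℕ) (γ : ℕ → G) (g : G) : (sg ν).map (st γ) g⁻¹ = (sg ν).map (st γ) g := by
  classical
  conv_rhs => rw [← sg_flip ν fun _ => true, PMF.map_comp]
  simp only [PMF.map_apply]
  refine tsum_congr fun x => if_congr ?_ rfl rfl
  obtain ⟨i, b⟩ := x
  cases b <;> simp [st, inv_eq_iff_eq_inv]

lemma st_gen (ν : PMF ℕ) (h : ∀ i, ν i ≠ 0) (γ : ℕ → G) (hγ : Subgroup.closure (range γ) = ⊤) :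
    Subgroup.closure ((sg ν).map (st γ)).support = ⊤ := by
  rw [eq_top_iff, ← hγ]
  refine Subgroup.closure_mono ?_
  rintro _ ⟨i, rfl⟩
  exact (PMF.mem_support_map_iff _ _ _).mpr ⟨(i, true), sg_supp ν h _, rfl⟩

/-- position after `m` steps -/
def X (z : ℕ → G) (m : ℕ) : G := ((List.range m).map z).prod

lemma X_zero (z : ℕ → G) : X z 0 = 1 := rfl

lemma X_succ (z : ℕ → G) (m : ℕ) : X z (m + 1) = X z m * z m := by
  simp [X, List.range_succ]

lemma top_of_inv {T : Set G} (hT : Subgroup.closure T = ⊤) (z : ℕ → G) (n : ℕ)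
    (h1 : ∀ g ∈ T, ∃ t, n ≤ t ∧ z t = g)
    (h2 : ∀ k, (X z (n + k))⁻¹ ∈ Subsemigroup.closure (range fun k => X z (n + k))) :
    Subsemigroup.closure (range fun k => X z (n + k)) = ⊤ := by
  set S := Subsemigroup.closure (range fun k => X z (n + k))
  have h3 : ∀ k, X z (n + k) ∈ S := fun k => Subsemigroup.subset_closure ⟨k, rfl⟩
  let H : Subgroup G :=
    { carrier := S
      mul_mem' := S.mul_mem
      one_mem' := by simpa using S.mul_mem (h3 0) (h2 0)
      inv_mem' := fun {x} hx => by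
        induction hx using Subsemigroup.closure_induction with
        | mem x hx =>
          obtain ⟨k, rfl⟩ := hx
          exact h2 k
        | mul x y _ _ hx hy =>
          rw [mul_inv_rev]
          exact S.mul_mem hy hx }
  have : Subgroup.closure T ≤ H := (Subgroup.closure_le H).mpr fun g hg => by
    obtain ⟨t, ht, rfl⟩ := h1 g hg
    obtain ⟨k, rfl⟩ := Nat.exists_eq_add_of_le ht
    have := S.mul_mem (h2 k) (h3 (k + 1))
    rwa [← add_assoc, X_succ, inv_mul_cancel_left] at this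
  exact eq_top_iff.mpr fun g _ => this (hT ▸ Subgroup.mem_top g)

end group

end Pool.Agent.Lib.helper3.AR
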