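import Mathlib

/-! Independent coins: disjoint coordinates, closed sets infinitely often, cluster events. -/

namespace Pool.Agent.Lib.helper3.Coins

open MeasureTheory ProbabilityTheory Filter Topology
open scoped ENNReal

lemma indep_cyl {ι X : Type} [MeasurableSpace X] (μ : ι → Measure X)
    [∀ i, IsProbabilityMeasure (μ i)] {S T : Set ι} (h : Disjoint S T) {A B : Set (ι → X)}
    (hA : MeasurableSet[cylinderEvents S] A) (hB : MeasurableSet[cylinderEvents T] B) :
    Measure.infinitePi μ (A ∩ B) = Measure.infinitePi μ A * Measure.infinitePi μ B :=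
  (Indep_iff _ _ _).mp (indep_iSup_of_disjoint (fun i => (measurable_pi_apply i).comap_le)
    (iIndepFun_infinitePi (X := fun _ u => u) fun _ => measurable_id).iIndep h) A B hA hB

lemma io_closed {ι : Type} (ν : Measure Bool) [IsProbabilityMeasure ν] (hν : ν {false} ≠ 0)
    (Γ : ℕ → Finset ι) (m : ℕ) (hm : ∀ k, (Γ k).card ≤ m) (h : ∀ e, ∀ᶠ k in atTop, e ∉ Γ k) :
    ∀ᵐ η ∂(Measure.infinitePi fun _ : ι => ν), ∃ᶠ k in atTop, ∀ e ∈ Γ k, η e = false := by
  classical
  simp only [frequently_atTop]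
  refine ae_all_iff.mpr fun k₀ => ?_
  have key : ∀ n : ℕ, ∃ (S : Finset ι) (A : Set (ι → Bool)), MeasurableSet[cylinderEvents S] A ∧
      {η | ¬ ∃ k ≥ k₀, ∀ e ∈ Γ k, η e = false} ⊆ A ∧
      (Measure.infinitePi fun _ : ι => ν) A ≤ (1 - ν {false} ^ m) ^ n := fun n => by
    induction n with
    | zero => exact ⟨∅, Set.univ, .univ, by simp, by simp⟩
    | succ n ih =>
      obtain ⟨S, A, h1, h2, h3⟩ := ih
      obtain ⟨k, h4, h5⟩ := ((S.eventually_all.mpr fun e _ => h e).and (eventually_ge_atTop k₀)).exists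
      have h6 : MeasurableSet[cylinderEvents (Γ k)]
          (Set.pi (Γ k : Set ι) fun _ => ({false} : Set Bool))ᶜ := by
        rw [Set.pi_def]
        exact .compl (.biInter (Γ k).countable_toSet fun e he =>
          measurable_cylinderEvent_apply he (measurableSet_singleton false))
      refine ⟨S ∪ Γ k, A ∩ _, (cylinderEvents_mono (by simp) _ h1).inter
        (cylinderEvents_mono (by simp) _ h6), fun η hη => ⟨h2 hη, fun k' => hη ⟨k, h5, k'⟩⟩, ?_⟩
      rw [indep_cyl _ (Set.disjoint_left.mpr h4) h1 h6, pow_succ,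
        prob_compl_eq_one_sub (cylinderEvents_le_pi _ h6).of_compl,
        Measure.infinitePi_pi _ fun _ _ => .of_discrete, Finset.prod_const]
      exact mul_le_mul' h3 (tsub_le_tsub_left (pow_le_pow_right_of_le_one' prob_le_one (hm k)) _)
  refine le_zero_iff.mp (ge_of_tendsto' (ENNReal.tendsto_pow_atTop_nhds_zero_of_lt_one
    (ENNReal.sub_lt_self ENNReal.one_ne_top one_ne_zero (pow_ne_zero m hν))) fun n => ?_)
  obtain ⟨S, A, -, h2, h3⟩ := key n
  exact (measure_mono h2).trans h3

variable {V : Type} (G : SimpleGraph V)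

/-- the open subgraph -/
def O (ω : G.edgeSet → Bool) : SimpleGraph V :=
  .fromEdgeSet {e | ∃ h : e ∈ G.edgeSet, ω ⟨e, h⟩ = true}

lemma O_adj {ω : G.edgeSet → Bool} {x y : V} :
    (O G ω).Adj x y ↔ ∃ h : G.Adj x y, ω ⟨s(x, y), h⟩ = true :=
  ⟨fun h => h.1, fun h => ⟨h, h.1.ne⟩⟩

variable [Countable V]

lemma reach_meas (x y : V) : MeasurableSet {ω | (O G ω).Reachable x y} := by
  have : ∀ n x, MeasurableSet {ω | ∃ w : (O G ω).Walk x y, w.length = n} := fun n => by
    induction n with
    | zero =>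
      intro x
      convert MeasurableSet.const (x = y) using 1
      exact Set.ext fun ω => ⟨fun ⟨w, h⟩ => w.eq_of_length_eq_zero h, by rintro rfl; exact ⟨.nil, rfl⟩⟩
    | succ n ih =>
      intro x
      rw [show {ω | _} = ⋃ z, ⋃ h : G.Adj x z, {ω | ω ⟨s(x, z), h⟩ = true} ∩
          {ω | ∃ w : (O G ω).Walk z y, w.length = n} from Set.ext fun ω => by
        simp only [Set.mem_iUnion, Set.mem_inter_iff, Set.mem_ofPred_eq]
        constructor
        · rintro ⟨_ | ⟨a, w⟩, h⟩
          · simp at h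
          · obtain ⟨b, c⟩ := (O_adj G).mp a
            exact ⟨_, b, c, w, by simpa using h⟩
        · rintro ⟨z, a, b, w, h⟩
          exact ⟨.cons ((O_adj G).mpr ⟨a, b⟩) w, by simp [h]⟩]
      exact .iUnion fun z => .iUnion fun h => ((measurableSet_singleton true).preimage
        (measurable_pi_apply (⟨s(x, z), h⟩ : G.edgeSet))).inter (ih z)
  convert MeasurableSet.iUnion fun n => this n x
  exact Set.ext fun ω => ⟨fun ⟨w⟩ => Set.mem_iUnion.mpr ⟨_, w, rfl⟩,
    fun h => ⟨(Set.mem_iUnion.mp h).choose_spec.choose⟩⟩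

lemma inf_meas : MeasurableSet {ω | ∃ c : (O G ω).ConnectedComponent, c.supp.Infinite} := by
  rw [show {ω | _} = ⋃ x, ⋂ S : Finset V, ⋃ y ∉ S, {ω | (O G ω).Reachable y x} from
    Set.ext fun ω => by
      simp only [Set.mem_iUnion, Set.mem_iInter, Set.mem_ofPred_eq]
      constructor
      · rintro ⟨c, h⟩
        induction c using SimpleGraph.ConnectedComponent.ind with
        | h x =>
          refine ⟨x, fun S => ?_⟩
          obtain ⟨y, h1, h2⟩ := h.exists_notMem_finset S
          exact ⟨y, h2, SimpleGraph.ConnectedComponent.exact h1⟩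
      · rintro ⟨x, h⟩
        refine ⟨(O G ω).connectedComponentMk x, fun k => ?_⟩
        obtain ⟨y, h1, h2⟩ := h k.toFinset
        exact h1 (k.mem_toFinset.mpr (SimpleGraph.ConnectedComponent.sound h2))]
  exact .iUnion fun x => .iInter fun S => .iUnion fun y => .iUnion fun _ => reach_meas G y x

end Pool.Agent.Lib.helper3.Coins
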