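import Mathlib

/-! Markov chains on a countable state space driven by i.i.d. inputs. -/

namespace Pool.Agent.Lib.helper3.MC

open MeasureTheory ProbabilityTheory
open scoped ENNReal

lemma indep_past {U S : Type} [MeasurableSpace U] [MeasurableSpace S] [Nonempty U] (ν : Measure U)
    [IsProbabilityMeasure ν] (t : ℕ) (Y : (ℕ → U) → S) (hY : Measurable Y)
    (h : ∀ ω ω', (∀ i < t, ω i = ω' i) → Y ω = Y ω') (g : S × U → ℝ≥0∞) (hg : Measurable g) :
    ∫⁻ ω, g (Y ω, ω t) ∂(Measure.infinitePi fun _ => ν) =
      ∫⁻ ω, ∫⁻ u, g (Y ω, u) ∂ν ∂(Measure.infinitePi fun _ => ν) := by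
  classical
  have hi : iIndepFun (fun i (ω : ℕ → U) => ω i) (Measure.infinitePi fun _ => ν) :=
    iIndepFun_infinitePi (X := fun _ u => u) (fun _ => measurable_id)
  have h1 := hi.indepFun_finset (Finset.range t) {t} (by simp) (fun i => measurable_pi_apply i)
  let F : (Finset.range t → U) → S :=
    fun z => Y fun i => if hi : i ∈ Finset.range t then z ⟨i, hi⟩ else Classical.ofNonempty
  have hF : Measurable F := by
    refine hY.comp (measurable_pi_lambda _ fun i => ?_)
    split_ifs
    · exact measurable_pi_apply _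
    · exact measurable_const
  have h2 := h1.comp hF (measurable_pi_apply (⟨t, by simp⟩ : ({t} : Finset ℕ)))
  have e : (F ∘ fun (ω : ℕ → U) (i : Finset.range t) => ω i) = Y :=
    funext fun ω => h _ _ fun i hi => by simp [hi]
  rw [e] at h2
  have h3 : IndepFun Y (fun ω : ℕ → U => ω t) (Measure.infinitePi fun _ => ν) := h2
  have h4 := h3.map_prod_eq_prod_map_map hY.aemeasurable (measurable_pi_apply t).aemeasurable
  rw [Measure.infinitePi_map_eval] at h4
  rw [← lintegral_map hg (hY.prodMk (measurable_pi_apply t)), h4, lintegral_prod _ hg.aemeasurable,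
    lintegral_map hg.lintegral_prod_right' hY]

end Pool.Agent.Lib.helper3.MC
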