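import Mathlib
import Pool.Agent.Lib.helper3.MC
import Pool.Agent.H.MP_e8a7ad_pr.A

/-! Chains driven by i.i.d. noise: hitting probabilities and Dirichlet energy. -/

set_option linter.unusedSectionVars false

namespace Pool.Agent.Lib.helper3.Chain

open MeasureTheory ProbabilityTheory Finset Pool.Agent.H.MP_e8a7ad_pr
open scoped ENNReal

lemma zip {ι : Type} {X Y : ι → Type} [∀ i, MeasurableSpace (X i)] [∀ i, MeasurableSpace (Y i)]
    (a : ∀ i, Measure (X i)) (b : ∀ i, Measure (Y i)) [∀ i, IsProbabilityMeasure (a i)]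
    [∀ i, IsProbabilityMeasure (b i)] :
    MeasurePreserving (fun (z : (∀ i, X i) × (∀ i, Y i)) i => (z.1 i, z.2 i))
      ((Measure.infinitePi a).prod (Measure.infinitePi b))
      (Measure.infinitePi fun i => (a i).prod (b i)) := by
  refine ⟨by fun_prop, Measure.eq_infinitePi _ fun s t ht => ?_⟩
  have hm : MeasurableSet ((s : Set ι).pi t) := MeasurableSet.pi s.countable_toSet fun i _ => ht i
  rw [Measure.map_apply (by fun_prop) hm, Measure.prod_apply (hm.preimage (by fun_prop))]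
  have e : ∀ u : ∀ i, X i, Measure.infinitePi b (Prod.mk u ⁻¹'
      ((fun (z : (∀ i, X i) × (∀ i, Y i)) i => (z.1 i, z.2 i)) ⁻¹' (s : Set ι).pi t)) =
      ∏ i ∈ s, b i (Prod.mk (u i) ⁻¹' t i) := fun u =>
    Measure.infinitePi_pi b (t := fun i => Prod.mk (u i) ⁻¹' t i)
      fun i _ => (ht i).preimage (by fun_prop)
  simp only [e]
  have m := fun i => measurable_measure_prodMk_left (ν := b i) (ht i)
  have := lintegral_prod_eq_prod_lintegral_of_indepFun s
    (fun i (u : ∀ i, X i) => b i (Prod.mk (u i) ⁻¹' t i)) (iIndepFun_infinitePi (P := a) m)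
    fun i => (m i).comp (measurable_pi_apply i)
  refine this.trans (prod_congr rfl fun i _ => ?_)
  rw [Measure.prod_apply (ht i), ← (measurePreserving_eval_infinitePi a i).lintegral_comp (m i)]

variable {X Z : Type} [MeasurableSpace X] [MeasurableSpace Z] [Nonempty Z]
  (μ : Measure X) [IsProbabilityMeasure μ] (π : Measure Z) [IsProbabilityMeasure π]

noncomputable abbrev Pm : Measure (X × (ℕ → Z)) := μ.prod (Measure.infinitePi fun _ => π)

lemma past {S : Type} [MeasurableSpace S] (k : ℕ) {Y : X × (ℕ → Z) → S} (hY : Measurable Y)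
    (h : ∀ g η η', (∀ i < k, η i = η' i) → Y (g, η) = Y (g, η')) {H : S × Z → ℝ≥0∞}
    (hH : Measurable H) :
    ∫⁻ ω, H (Y ω, ω.2 k) ∂Pm μ π = ∫⁻ ω, ∫⁻ u, H (Y ω, u) ∂π ∂Pm μ π := by
  rw [lintegral_prod _ (by fun_prop),
    lintegral_prod (fun ω => ∫⁻ u, H (Y ω, u) ∂π) (hH.lintegral_prod_right'.comp hY).aemeasurable]
  exact lintegral_congr fun g => MC.indep_past _ k (fun η => Y (g, η)) (by fun_prop) (h g) H hH

lemma past_set (k : ℕ) {A : Set (X × (ℕ → Z))} (hA : MeasurableSet A)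
    (h : ∀ g η η', (∀ i < k, η i = η' i) → ((g, η) ∈ A ↔ (g, η') ∈ A)) {B : Set Z}
    (hB : MeasurableSet B) : Pm μ π (A ∩ {ω | ω.2 k ∈ B}) = Pm μ π A * π B := by
  have := past μ π k (Y := A.indicator (1 : X × (ℕ → Z) → ℝ≥0∞)) (measurable_one.indicator hA)
    (fun g η η' hη => by by_cases h1 : (g, η') ∈ A <;> simp [h1, h g η η' hη])
    (H := fun z => z.1 * B.indicator 1 z.2)
    (measurable_fst.mul ((measurable_one.indicator hB).comp measurable_snd))
  simp only [lintegral_const_mul _ (measurable_one.indicator hB), lintegral_indicator_one hB,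
    lintegral_mul_const _ (measurable_one.indicator hA), lintegral_indicator_one hA] at this
  rw [← this, ← lintegral_indicator_one (hA.inter (by measurability))]
  refine lintegral_congr fun ω => ?_
  by_cases h1 : ω ∈ A <;> by_cases h2 : ω.2 k ∈ B <;> simp [h1, h2]

variable (Φ : X × Z → X)

def Y : ℕ → X × (ℕ → Z) → X
  | 0, ω => ω.1
  | k + 1, ω => Φ (Y k ω, ω.2 k)

noncomputable def Op (f : X → ℝ) : X → ℝ := fun x => ∫ z, f (Φ (x, z)) ∂π

open Classical in
noncomputable def uu (B : Set X) : ℕ → X → ℝ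
  | 0 => fun x => if x ∈ B then 1 else 0
  | j + 1 => fun x => if x ∈ B then 1 else Op π Φ (uu B j) x

noncomputable def DD (h : X → ℝ) : ℝ≥0∞ :=
  ∫⁻ z, ENNReal.ofReal ((h (Φ z) - h z.1) ^ 2) ∂μ.prod π

variable {Φ}

lemma mY (hΦ : Measurable Φ) (k : ℕ) : Measurable (Y Φ k) := by
  induction k with
  | zero => exact measurable_fst
  | succ k ih => exact hΦ.comp (ih.prodMk (by fun_prop))

lemma depY (k : ℕ) (g : X) (η η' : ℕ → Z) (h : ∀ i < k, η i = η' i) :
    Y Φ k (g, η) = Y Φ k (g, η') := by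
  induction k with
  | zero => rfl
  | succ k ih => simp only [Y]; rw [ih fun i hi => h i (by omega), h k (by omega)]

lemma lawY (hΦ : MeasurePreserving Φ (μ.prod π) μ) (k : ℕ) :
    MeasurePreserving (Y Φ k) (Pm μ π) μ := by
  induction k with
  | zero => exact measurePreserving_fst
  | succ k ih =>
    refine ⟨mY hΦ.measurable _, Measure.ext_of_lintegral _ fun f hf => ?_⟩
    have hf' : Measurable fun z => f (Φ z) := hf.comp hΦ.measurable
    rw [lintegral_map hf (mY hΦ.measurable _), ← hΦ.lintegral_comp hf, lintegral_prod _ hf'.aemeasurable,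
      ← ih.lintegral_comp hf'.lintegral_prod_right']
    exact past μ π k ih.measurable (depY k) hf'

lemma BM.op (hΦ : Measurable Φ) {f : X → ℝ} {C : ℝ} (h : BM f C) : BM (Op π Φ f) C :=
  ⟨((h.m.comp hΦ).stronglyMeasurable.integral_prod_right' (ν := π)).measurable, fun x => by
    simpa [Op] using norm_integral_le_of_norm_le_const (μ := π) (f := fun z => f (Φ (x, z))) (C := C)
      (ae_of_all _ fun z => h.b _)⟩

lemma BM.sec (hΦ : Measurable Φ) {f : X → ℝ} {C : ℝ} (h : BM f C) (x : X) :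
    BM (fun z => f (Φ (x, z))) C := ⟨h.m.comp (by fun_prop), fun _ => h.b _⟩

lemma uu_bm (hΦ : Measurable Φ) {B : Set X} (hB : MeasurableSet B) (j : ℕ) :
    BM (uu π Φ B j) 1 ∧ ∀ x, 0 ≤ uu π Φ B j x := by
  induction j with
  | zero =>
    exact ⟨⟨Measurable.ite hB measurable_const measurable_const, fun x => by
      simp only [uu]; split_ifs <;> simp⟩, fun x => by simp only [uu]; split_ifs <;> simp⟩
  | succ j ih =>
    have := BM.op π hΦ ih.1
    refine ⟨⟨Measurable.ite hB measurable_const this.m, fun x => ?_⟩, fun x => ?_⟩ <;>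
      simp only [uu] <;> split_ifs
    · simp
    · exact this.b x
    · simp
    · exact integral_nonneg fun z => ih.2 _

lemma uu_mono (hΦ : Measurable Φ) {B : Set X} (hB : MeasurableSet B) (j : ℕ) :
    ∀ x, uu π Φ B j x ≤ uu π Φ B (j + 1) x := by
  induction j with
  | zero =>
    intro x
    have := (uu_bm π hΦ hB 1).2 x
    simp only [uu] at this ⊢
    split_ifs at this ⊢ <;> simp_all
  | succ j ih =>
    intro x
    rw [uu, uu]
    dsimp only
    split_ifs
    · rfl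
    · exact integral_mono (BM.sec hΦ (uu_bm π hΦ hB _).1 x).int
        (BM.sec hΦ (uu_bm π hΦ hB _).1 x).int fun z => ih _

variable (Φ) in
def Hit (B : Set X) (k : ℕ) (ω : X × (ℕ → Z)) : Prop := ∃ i < k, Y Φ i ω ∈ B

lemma mHit (hΦ : Measurable Φ) {B : Set X} (hB : MeasurableSet B) (k : ℕ) :
    MeasurableSet {ω | Hit Φ B k ω} := by
  simp only [Hit, Set.ofPred_exists]
  exact MeasurableSet.iUnion fun i => (MeasurableSet.const _).inter (hB.preimage (mY hΦ i))

lemma hit (hΦ : Measurable Φ) {B : Set X} (hB : MeasurableSet B) (N : ℕ) :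
    Pm μ π {ω | ∃ i ≤ N, Y Φ i ω ∈ B} = ENNReal.ofReal (∫ x, uu π Φ B N x ∂μ) := by
  classical
  have mp := mHit hΦ hB
  have hs : ∀ k ω, Hit Φ B (k + 1) ω ↔ Hit Φ B k ω ∨ Y Φ k ω ∈ B :=
    fun k ω => Nat.exists_lt_succ_right
  have key : ∀ m k, ∫⁻ ω, (if Hit Φ B k ω then 1 else
      ENNReal.ofReal (uu π Φ B m (Y Φ k ω))) ∂Pm μ π = Pm μ π {ω | Hit Φ B (k + m + 1) ω} := by
    intro m
    induction m with
    | zero =>
      intro k
      rw [← lintegral_indicator_one (mp _)]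
      refine lintegral_congr fun ω => ?_
      by_cases h1 : Hit Φ B k ω <;> by_cases h2 : Y Φ k ω ∈ B <;> simp [uu, hs, h1, h2]
    | succ m ih =>
      intro k
      have hu := uu_bm π hΦ hB m
      rw [show k + (m + 1) + 1 = k + 1 + m + 1 by omega, ← ih]
      have := past μ π k (Y := fun ω => (Hit Φ B (k + 1) ω, Y Φ k ω))
        ((measurableSet_setOfPred.1 (mp _)).prodMk (mY hΦ k))
        (fun g η η' h => by
          rw [depY k g η η' h]
          congr 1
          exact propext (exists_congr fun i => and_congr_right fun hi => by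
            rw [depY i g η η' fun l hl => h l (by omega)]))
        (H := fun z => if z.1.1 then 1 else ENNReal.ofReal (uu π Φ B m (Φ (z.1.2, z.2))))
        (Measurable.ite (measurableSet_setOfPred.2 (by fun_prop)) measurable_const
          (hu.1.m.comp (by fun_prop)).ennreal_ofReal)
      refine Eq.trans (lintegral_congr fun ω => ?_) this.symm
      simp only [uu, hs]
      by_cases h1 : Hit Φ B k ω
      · simp [h1]
      by_cases h2 : Y Φ k ω ∈ B
      · simp [h2]
      simp only [h1, h2, if_false, or_self]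
      exact ofReal_integral_eq_lintegral_ofReal (BM.sec hΦ hu.1 _).int (ae_of_all _ fun z => hu.2 _)
  have := key N 0
  simp only [Hit, Nat.not_lt_zero, false_and, exists_false, if_false, zero_add, Nat.lt_succ_iff,
    Y] at this
  have hu := uu_bm π hΦ hB N
  rw [← this, ofReal_integral_eq_lintegral_ofReal hu.1.int (ae_of_all _ hu.2),
    ← (measurePreserving_fst (μ := μ) (ν := Measure.infinitePi fun _ : ℕ => π)).lintegral_comp
      hu.1.m.ennreal_ofReal]

lemma DD_eq (hΦ : MeasurePreserving Φ (μ.prod π) μ) {f g : X → ℝ} {C D : ℝ} (hf : BM f C)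
    (hg : BM g D) : ∫ z, (f (Φ z) - f z.1) * (g (Φ z) - g z.1) ∂μ.prod π =
      ∫ x, f x * (g x - Op π Φ g x) ∂μ + ∫ x, g x * (f x - Op π Φ f x) ∂μ := by
  have c1 : ∀ {f : X → ℝ} {C : ℝ}, BM f C → BM (fun z => f (Φ z)) C :=
    fun h => ⟨h.m.comp hΦ.measurable, fun _ => h.b _⟩
  have c2 : ∀ {f : X → ℝ} {C : ℝ}, BM f C → BM (fun z : X × Z => f z.1) C :=
    fun h => ⟨h.m.comp measurable_fst, fun _ => h.b _⟩
  have e1 : ∫ z, f (Φ z) * g (Φ z) ∂μ.prod π = ∫ x, f x * g x ∂μ := by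
    rw [← hΦ.map_eq, integral_map hΦ.measurable.aemeasurable (hf.mul hg).m.aestronglyMeasurable,
      hΦ.map_eq]
  have e2 : ∀ {f g : X → ℝ} {C D : ℝ}, BM f C → BM g D →
      ∫ z, f z.1 * (g z.1 - g (Φ z)) ∂μ.prod π = ∫ x, f x * (g x - Op π Φ g x) ∂μ := by
    intro f g C D hf hg
    rw [integral_prod _ ((c2 hf).mul ((c2 hg).sub (c1 hg))).int]
    refine integral_congr_ae (ae_of_all _ fun x => ?_)
    dsimp only
    rw [integral_const_mul, integral_sub (integrable_const _) (BM.sec hΦ.measurable hg x).int]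
    simp [Op]
  have e3 : ∫ z, f z.1 * g z.1 ∂μ.prod π = ∫ x, f x * g x ∂μ := by
    rw [integral_prod _ ((c2 hf).mul (c2 hg)).int]; simp
  rw [← e2 hf hg, ← e2 hg hf]
  have e4 : ∀ z : X × Z, (f (Φ z) - f z.1) * (g (Φ z) - g z.1) =
      (f z.1 * (g z.1 - g (Φ z)) + g z.1 * (f z.1 - f (Φ z))) +
        (f (Φ z) * g (Φ z) - f z.1 * g z.1) := fun z => by ring
  simp only [e4]
  have i1 := ((c2 hf).mul ((c2 hg).sub (c1 hg))).int (ν := μ.prod π)
  have i2 := ((c2 hg).mul ((c2 hf).sub (c1 hf))).int (ν := μ.prod π)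
  rw [integral_add (f := fun z => f z.1 * (g z.1 - g (Φ z)) + g z.1 * (f z.1 - f (Φ z))) (i1.add i2)
      (((c1 hf).mul (c1 hg)).sub ((c2 hf).mul (c2 hg))).int, integral_add i1 i2,
    integral_sub ((c1 hf).mul (c1 hg)).int ((c2 hf).mul (c2 hg)).int, e1, e3]
  ring

lemma DD_real (hΦ : Measurable Φ) {f : X → ℝ} {C : ℝ} (hf : BM f C) :
    DD μ π Φ f = ENNReal.ofReal (∫ z, (f (Φ z) - f z.1) * (f (Φ z) - f z.1) ∂μ.prod π) := by
  have : BM (fun z : X × Z => f (Φ z) - f z.1) (C + C) :=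
    BM.sub ⟨hf.m.comp hΦ, fun _ => hf.b _⟩ ⟨hf.m.comp measurable_fst, fun _ => hf.b _⟩
  rw [ofReal_integral_eq_lintegral_ofReal (this.mul this).int (ae_of_all _ fun z => mul_self_nonneg _)]
  simp only [DD, pow_two]

/-- the time average of the finite horizon hitting probabilities -/
lemma avg (hΦ : MeasurePreserving Φ (μ.prod π) μ) {B : Set X} (hB : MeasurableSet B) {N : ℕ}
    (hN : 0 < N) : ∃ U : X → ℝ, BM U 1 ∧ (∀ x, 0 ≤ U x) ∧ (∀ x, U x ≤ uu π Φ B N x) ∧
      (∀ x ∈ B, U x = 1) ∧ (∀ x ∉ B, U x - Op π Φ U x = -uu π Φ B N x / N) ∧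
      ∫ x, (U x - Op π Φ U x) ∂μ = 0 ∧
      N * ∫ x, U x * (U x - Op π Φ U x) ∂μ ≤ ∫ x, uu π Φ B N x ∂μ ∧
      ∀ R : X → X → Prop, (∀ x y, R x y → (x ∈ B ↔ y ∈ B)) →
        (∀ x y z, R x y → R (Φ (x, z)) (Φ (y, z))) → ∀ x y, R x y → U x = U y := by
  have hu := uu_bm π hΦ.measurable hB
  have hN' : (0 : ℝ) < N := by exact_mod_cast hN
  set U : X → ℝ := fun x => (∑ j ∈ range N, uu π Φ B j x) / N with hU
  have a1 : ∀ x, 0 ≤ U x := fun x => div_nonneg (sum_nonneg fun j _ => (hu j).2 x) hN'.le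
  have a2 : ∀ x, U x ≤ uu π Φ B N x := fun x => by
    rw [hU, div_le_iff₀ hN']
    have := sum_le_card_nsmul (range N) (fun j => uu π Φ B j x) (uu π Φ B N x) fun j hj =>
      monotone_nat_of_le_succ (fun j => uu_mono π hΦ.measurable hB j x) (mem_range.1 hj).le
    simpa [mul_comm] using this
  have a0 : BM U 1 := ⟨(Finset.measurable_fun_sum _ fun j _ => (hu j).1.m).div_const _, fun x => by
    rw [abs_of_nonneg (a1 x)]; exact (a2 x).trans (abs_le.1 ((hu N).1.b x)).2⟩
  have a3 : ∀ x ∈ B, U x = 1 := fun x hx => by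
    have : ∀ j, uu π Φ B j x = 1 := fun j => by cases j <;> simp [uu, hx]
    simp [hU, this, hN'.ne']
  have a4 : ∀ x ∉ B, U x - Op π Φ U x = -uu π Φ B N x / N := fun x hx => by
    have e : Op π Φ U x = (∑ j ∈ range N, uu π Φ B (j + 1) x) / N := by
      simp only [Op, hU, uu, hx, if_false]
      rw [integral_div, integral_finsetSum _ fun j _ => (BM.sec hΦ.measurable (hu j).1 x).int]
    have e2 := sum_range_sub (fun j => uu π Φ B j x) N
    rw [sum_sub_distrib] at e2
    have e3 : uu π Φ B 0 x = 0 := by simp [uu, hx]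
    rw [e, hU, ← sub_div]
    congr 1
    linarith
  have b0 := a0.sub (BM.op π hΦ.measurable a0)
  have a5 : ∫ x, (U x - Op π Φ U x) ∂μ = 0 := by
    have := DD_eq μ π hΦ (BM.const 1) a0
    simpa [Op] using this.symm
  refine ⟨U, a0, a1, a2, a3, a4, a5, ?_, fun R h1 h2 x y hxy => ?_⟩
  · have : ∫ x, U x * (U x - Op π Φ U x) ∂μ ≤ ∫ x, ((U x - Op π Φ U x) + uu π Φ B N x / N) ∂μ := by
      refine integral_mono (a0.mul b0).int (b0.int.add ((hu N).1.int.div_const _)) fun x => ?_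
      have := div_nonneg ((hu N).2 x) hN'.le
      dsimp only
      by_cases hx : x ∈ B
      · rw [a3 x hx]; linarith
      · rw [a4 x hx, neg_div]; nlinarith [a1 x]
    rw [integral_add b0.int ((hu N).1.int.div_const _), a5, zero_add, integral_div,
      le_div_iff₀ hN'] at this
    linarith
  · have : ∀ j x y, R x y → uu π Φ B j x = uu π Φ B j y := by
      intro j
      induction j with
      | zero => intro x y h; by_cases hy : y ∈ B <;> simp [uu, h1 x y h, hy]
      | succ j ih =>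
        intro x y h
        by_cases hy : y ∈ B <;> simp [uu, h1 x y h, hy, Op, fun z => ih _ _ (h2 x y z h)]
    simp only [hU, this _ x y hxy]

theorem test (hΦ : MeasurePreserving Φ (μ.prod π) μ) {B : Set X} (hB : MeasurableSet B) {N : ℕ}
    (hN : 0 < N) : ∃ h : X → ℝ, BM h 1 ∧ (∀ x, 0 ≤ h x) ∧ (∀ x ∈ B, h x = 1) ∧
      ENNReal.ofReal (∫ x, h x ∂μ) ≤ Pm μ π {ω | ∃ i ≤ N, Y Φ i ω ∈ B} ∧
      N * DD μ π Φ h ≤ 2 * Pm μ π {ω | ∃ i ≤ N, Y Φ i ω ∈ B} ∧
      ∀ R : X → X → Prop, (∀ x y, R x y → (x ∈ B ↔ y ∈ B)) →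
        (∀ x y z, R x y → R (Φ (x, z)) (Φ (y, z))) → ∀ x y, R x y → h x = h y := by
  obtain ⟨U, a0, a1, a2, a3, -, -, a6, a7⟩ := avg μ π hΦ hB hN
  refine ⟨U, a0, a1, a3, ?_, ?_, a7⟩ <;> rw [hit μ π hΦ.measurable hB]
  · exact ENNReal.ofReal_le_ofReal (integral_mono a0.int (uu_bm π hΦ.measurable hB N).1.int a2)
  · rw [DD_real μ π hΦ.measurable a0, DD_eq μ π hΦ a0 a0, ← ENNReal.ofReal_natCast,
      ← ENNReal.ofReal_mul N.cast_nonneg, ← ENNReal.ofReal_ofNat, ← ENNReal.ofReal_mul (by norm_num)]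
    exact ENNReal.ofReal_le_ofReal (by linarith)

theorem cap (hΦ : MeasurePreserving Φ (μ.prod π) μ)
    (hs : ∀ f g : X → ℝ, BM f 1 → BM g 1 → ∫ x, f x * Op π Φ g x ∂μ = ∫ x, g x * Op π Φ f x ∂μ)
    {B : Set X} (hB : MeasurableSet B) {N : ℕ} (hN : 0 < N) {h : X → ℝ} (h0 : BM h 1)
    (h1 : ∀ x, 0 ≤ h x) (h2 : ∀ x ∈ B, h x = 1) :
    Pm μ π {ω | ∃ i ≤ N, Y Φ i ω ∈ B} ≤ 2 * ENNReal.ofReal (∫ x, h x ∂μ) + N * DD μ π Φ h := by
  obtain ⟨U, a0, a1, a2, a3, a4, a5, a6, -⟩ := avg μ π hΦ hB hN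
  have hu := uu_bm π hΦ.measurable hB N
  have hN' : (0 : ℝ) < N := by exact_mod_cast hN
  have o := fun {f : X → ℝ} (hf : BM f 1) => BM.op π hΦ.measurable hf
  have b0 := a0.sub (o a0)
  have e1 : ∫ x, h x * (U x - Op π Φ U x) ∂μ = ∫ x, U x * (h x - Op π Φ h x) ∂μ := by
    simp only [mul_sub]
    rw [integral_sub (h0.mul a0).int (h0.mul (o a0)).int,
      integral_sub (a0.mul h0).int (a0.mul (o h0)).int, hs h U h0 a0]
    simp only [mul_comm]
  have e2 : ∫ x, ((U x - Op π Φ U x) + (uu π Φ B N x - h x) / N) ∂μ ≤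
      ∫ x, h x * (U x - Op π Φ U x) ∂μ := by
    refine integral_mono (b0.int.add ((hu.1.sub h0).int.div_const _)) (h0.mul b0).int fun x => ?_
    have c1 := (abs_le.1 (hu.1.b x)).2
    dsimp only
    by_cases hx : x ∈ B
    · rw [h2 x hx]
      have : (uu π Φ B N x - 1) / N ≤ 0 := div_nonpos_of_nonpos_of_nonneg (by linarith) hN'.le
      linarith
    · rw [a4 x hx, ← add_div, ← mul_div_assoc]
      gcongr
      nlinarith [h1 x]
  rw [integral_add b0.int ((hu.1.sub h0).int.div_const _), a5, zero_add, integral_div,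
    integral_sub hu.1.int h0.int, div_le_iff₀ hN'] at e2
  have c : ∀ {f : X → ℝ}, BM f 1 → BM (fun z : X × Z => f (Φ z) - f z.1) (1 + 1) := fun hf =>
    BM.sub ⟨hf.m.comp hΦ.measurable, fun _ => hf.b _⟩ ⟨hf.m.comp measurable_fst, fun _ => hf.b _⟩
  have e3 : ∫ z, (h (Φ z) - h z.1) * (U (Φ z) - U z.1) ∂μ.prod π ≤
      ∫ z, ((h (Φ z) - h z.1) * (h (Φ z) - h z.1) +
        (U (Φ z) - U z.1) * (U (Φ z) - U z.1) / 4) ∂μ.prod π :=
    integral_mono ((c h0).mul (c a0)).int (((c h0).mul (c h0)).int.add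
      (((c a0).mul (c a0)).int.div_const _)) fun z => by
        dsimp only
        nlinarith [sq_nonneg (2 * (h (Φ z) - h z.1) - (U (Φ z) - U z.1))]
  rw [integral_add ((c h0).mul (c h0)).int (((c a0).mul (c a0)).int.div_const _), integral_div,
    DD_eq μ π hΦ h0 a0, DD_eq μ π hΦ a0 a0, ← e1] at e3
  have p1 : 0 ≤ ∫ x, h x ∂μ := integral_nonneg h1
  have p2 : 0 ≤ ∫ z, (h (Φ z) - h z.1) * (h (Φ z) - h z.1) ∂μ.prod π :=
    integral_nonneg fun z => mul_self_nonneg _
  rw [hit μ π hΦ.measurable hB, DD_real μ π hΦ.measurable h0, ← ENNReal.ofReal_natCast,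
    ← ENNReal.ofReal_mul N.cast_nonneg, ← ENNReal.ofReal_ofNat, ← ENNReal.ofReal_mul (by norm_num),
    ← ENNReal.ofReal_add (by positivity) (by positivity)]
  refine ENNReal.ofReal_le_ofReal ?_
  have := mul_le_mul_of_nonneg_left e3 hN'.le
  have := mul_nonneg hN'.le p2
  nlinarith

end Pool.Agent.Lib.helper3.Chain
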