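import Mathlib

/-! Kingman's ergodic theorem for superadditive processes with linear bound. -/

open Filter Topology MeasureTheory Set

namespace Pool.Agent.Lib.helper3.King

lemma flo {x y : ℕ → ℝ} {k : ℕ} (hk : 0 < k) {E c b : ℝ} (h : ∀ n, y (n / k) - E ≤ x n)
    (hy : ∀ᶠ m : ℕ in atTop, c * m ≤ y m) (hb : b < c / k) : ∀ᶠ n : ℕ in atTop, b < x n / n := by
  have k0 : (0 : ℝ) < k := by positivity
  have t : Tendsto (fun n : ℕ => c / k - (|c| + E) / n) atTop (𝓝 (c / k - 0)) :=
    (tendsto_const_div_atTop_nhds_zero_nat _).const_sub _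
  filter_upwards [(Nat.tendsto_div_const_atTop hk.ne').eventually hy, eventually_gt_atTop 0,
    t.eventually_const_lt (by simpa using hb)] with n p n0 q
  have n1 : (0 : ℝ) < n := by positivity
  refine q.trans_le ?_
  have a : ((n / k : ℕ) : ℝ) ≤ n / k := Nat.cast_div_le
  have e : (n / k : ℝ) ≤ (n / k : ℕ) + 1 := by
    rw [div_le_iff₀ k0]; exact_mod_cast (by simpa [mul_comm] using (Nat.lt_mul_div_succ n hk).le)
  rw [le_div_iff₀ n1, sub_mul, div_mul_cancel₀ _ n1.ne', show c / k * n = c * (n / k) by ring]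
  have := h n
  have := abs_le.1 (le_refl |c|)
  nlinarith

variable {Ω : Type*} [MeasurableSpace Ω] {P : Measure Ω} [IsProbabilityMeasure P] {T : Ω → Ω}
  {f : ℕ → Ω → ℝ} {C : ℝ}

structure Sup (T : Ω → Ω) (f : ℕ → Ω → ℝ) (C : ℝ) : Prop where
  m : ∀ n, Measurable (f n)
  b : ∀ n ω, |f n ω| ≤ C * n
  s : ∀ n k ω, f n ω + f k (T^[n] ω) ≤ f (n + k) ω

noncomputable def up (f : ℕ → Ω → ℝ) (ω : Ω) : ℝ := limsup (fun n : ℕ => f n ω / n) atTop
noncomputable def lo (f : ℕ → Ω → ℝ) (ω : Ω) : ℝ := liminf (fun n : ℕ => f n ω / n) atTop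

namespace Sup

variable (h : Sup T f C)
include h

lemma c0 (ω : Ω) : 0 ≤ C := by simpa using (abs_nonneg _).trans (h.b 1 ω)

lemma bd (ω : Ω) (n : ℕ) : -C ≤ f n ω / n ∧ f n ω / n ≤ C := by
  rw [← abs_le, abs_div, Nat.abs_cast]
  exact div_le_of_le_mul₀ n.cast_nonneg (h.c0 ω) (h.b n ω)

lemma b1 (ω : Ω) : IsBoundedUnder (· ≤ ·) atTop fun n : ℕ => f n ω / n :=
  isBoundedUnder_of ⟨C, fun n => (h.bd ω n).2⟩

lemma b2 (ω : Ω) : IsBoundedUnder (· ≥ ·) atTop fun n : ℕ => f n ω / n :=
  isBoundedUnder_of ⟨-C, fun n => (h.bd ω n).1⟩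

lemma lu (ω : Ω) : -C ≤ lo f ω ∧ lo f ω ≤ up f ω ∧ up f ω ≤ C :=
  ⟨le_liminf_of_le (h.b1 ω).isCoboundedUnder_ge (.of_forall fun n => (h.bd ω n).1),
    liminf_le_limsup (h.b1 ω) (h.b2 ω),
    limsup_le_of_le (h.b2 ω).isCoboundedUnder_le (.of_forall fun n => (h.bd ω n).2)⟩

lemma mu : Measurable (up f) := .limsup fun n => (h.m n).div_const _
lemma ml : Measurable (lo f) := .liminf fun n => (h.m n).div_const _

omit h in
lemma int {g : Ω → ℝ} (hg : Measurable g) {B : ℝ} (hB : ∀ ω, |g ω| ≤ B) : Integrable g P :=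
  .of_bound hg.aestronglyMeasurable B (.of_forall hB)

lemma iu : Integrable (up f) P := int h.mu fun ω => abs_le.2 ⟨by linarith [h.lu ω], (h.lu ω).2.2⟩
lemma il : Integrable (lo f) P := int h.ml fun ω => abs_le.2 ⟨(h.lu ω).1, by linarith [h.lu ω]⟩

lemma le (ω : Ω) : up f (T ω) ≤ up f ω := by
  refine le_of_forall_gt_imp_ge_of_dense fun b hb => ?_
  obtain ⟨c, c1, c2⟩ := exists_between hb
  have t : Tendsto (fun n : ℕ => c + (c + C) / n) atTop (𝓝 (c + 0)) :=
    (tendsto_const_div_atTop_nhds_zero_nat _).const_add _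
  refine limsup_le_of_le (h.b2 _).isCoboundedUnder_le ?_
  filter_upwards [(tendsto_add_atTop_nat 1).eventually (eventually_lt_of_limsup_lt c1 (h.b1 ω)),
    eventually_gt_atTop 0, t.eventually_lt_const (by simpa using c2)] with n p n0 q
  have n1 : (0 : ℝ) < n := by positivity
  refine le_trans ?_ q.le
  have a := h.s 1 n ω
  have e := abs_le.1 (h.b 1 ω)
  rw [div_lt_iff₀ (by positivity), add_comm n] at p
  rw [div_le_iff₀ n1, add_mul, div_mul_cancel₀ _ n1.ne']
  simp only [Function.iterate_one, Nat.cast_one, Nat.cast_add] at a e p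
  linarith

lemma inv (hT : MeasurePreserving T P P) : ∀ᵐ ω ∂P, ∀ k, up f (T^[k] ω) = up f ω := by
  have i : Integrable (fun ω => up f (T ω)) P := hT.integrable_comp_of_integrable h.iu
  have a : ∀ᵐ ω ∂P, up f (T ω) = up f ω := by
    have := (integral_eq_zero_iff_of_nonneg (fun ω => sub_nonneg.2 (h.le ω)) (h.iu.sub i)).1 (by
      rw [integral_sub h.iu i, sub_eq_zero, ← integral_map hT.aemeasurable h.mu.aestronglyMeasurable,
        hT.map_eq])
    exact this.mono fun ω e => (sub_eq_zero.1 e).symm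
  filter_upwards [ae_all_iff.2 fun k => (hT.iterate k).quasiMeasurePreserving.ae a] with ω e k
  induction k with
  | zero => rfl
  | succ k ih => rw [Function.iterate_succ_apply', e, ih]

lemma path {ε : ℝ} (e0 : 0 < ε) (M n : ℕ) : ∀ ω, (∀ k, up f (T^[k] ω) = up f ω) →
    n * (up f ω - ε) - 2 * C * birkhoffSum T (indicator {ω | ∀ j ∈ Icc 1 M, f j ω < j * (up f ω - ε)} 1) n ω
      - 2 * C * M ≤ f n ω := by
  set g : Ω → ℝ := indicator {ω | ∀ j ∈ Icc 1 M, f j ω < j * (up f ω - ε)} 1
  have g0 : ∀ n ω, 0 ≤ birkhoffSum T g n ω := fun n ω =>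
    Finset.sum_nonneg fun _ _ => indicator_nonneg (fun _ _ => zero_le_one) _
  induction n using Nat.strong_induction_on with
  | _ n ih =>
    intro ω hω
    have c := h.c0 ω
    have u := h.lu ω
    have st : ∀ j, 0 < j → j ≤ n → j * (up f ω - ε) - 2 * C * birkhoffSum T g j ω ≤ f j ω →
        n * (up f ω - ε) - 2 * C * birkhoffSum T g n ω - 2 * C * M ≤ f n ω := fun j j0 l p => by
      obtain ⟨k, rfl⟩ := Nat.exists_eq_add_of_le l
      have a := ih k (by omega) (T^[j] ω) fun i => by rw [← Function.iterate_add_apply, hω, hω]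
      have b := h.s j k ω
      rw [hω] at a
      rw [birkhoffSum_add]
      push_cast
      linarith
    by_cases l : n ≤ M
    · have := abs_le.1 (h.b n ω)
      have : (n : ℝ) ≤ M := by exact_mod_cast l
      have := mul_nonneg c (g0 n ω)
      have : (0 : ℝ) ≤ n := by positivity
      nlinarith
    by_cases q : ω ∈ {ω | ∀ j ∈ Icc 1 M, f j ω < j * (up f ω - ε)}
    · refine st 1 one_pos (by omega) ?_
      have := abs_le.1 (h.b 1 ω)
      simp only [birkhoffSum_one', g, indicator_of_mem q, Pi.one_apply, Nat.cast_one] at *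
      linarith
    · obtain ⟨j, j0, j1, p⟩ : ∃ j, 1 ≤ j ∧ j ≤ M ∧ j * (up f ω - ε) ≤ f j ω := by simpa using q
      exact st j j0 (by omega) (by linarith [mul_nonneg c (g0 j ω)])

omit h in
lemma ib (hT : MeasurePreserving T P P) {g : Ω → ℝ} (hg : Measurable g) (i : Integrable g P) (n : ℕ) :
    Integrable (birkhoffSum T g n) P ∧ ∫ ω, birkhoffSum T g n ω ∂P = n * ∫ ω, g ω ∂P := by
  have a : ∀ k, Integrable (fun ω => g (T^[k] ω)) P := fun k =>
    (hT.iterate k).integrable_comp_of_integrable i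
  refine ⟨integrable_finsetSum _ fun k _ => a k, ?_⟩
  simp only [birkhoffSum]
  rw [integral_finsetSum _ fun k _ => a k, Finset.sum_congr rfl fun k _ => by
    rw [← integral_map (hT.iterate k).aemeasurable hg.aestronglyMeasurable, (hT.iterate k).map_eq]]
  simp

lemma key (hT : MeasurePreserving T P P) {ε : ℝ} (e0 : 0 < ε) :
    ∃ D, ∀ n : ℕ, n * (∫ ω, up f ω ∂P - 2 * ε) - D ≤ ∫ ω, f n ω ∂P := by
  let A : ℕ → Set Ω := fun M => {ω | ∀ j ∈ Icc 1 M, f j ω < j * (up f ω - ε)}
  have mA : ∀ M, MeasurableSet (A M) := fun M => by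
    have := h.m
    have := h.mu
    simp only [A, measurableSet_setOfPred]
    exact .forall fun j => .imp measurable_const (.lt (by fun_prop) (by fun_prop))
  have e : ⋂ M, A M = ∅ := eq_empty_of_forall_notMem fun ω q => by
    obtain ⟨j, p, j0⟩ := ((frequently_lt_of_lt_limsup (h.b2 ω).isCoboundedUnder_le
      (sub_lt_self (up f ω) e0)).and_eventually (eventually_gt_atTop 0)).exists
    rw [lt_div_iff₀ (by positivity)] at p
    linarith [mem_iInter.1 q j j ⟨j0, le_rfl⟩]
  have t := (ENNReal.tendsto_toReal (by simp [e])).comp (tendsto_measure_iInter_atTop (μ := P)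
    (fun M => (mA M).nullMeasurableSet) (fun a b l ω q j p => q j ⟨p.1, p.2.trans l⟩) ⟨0, measure_ne_top _ _⟩)
  obtain ⟨M, hM⟩ := ((t.const_mul (2 * C)).eventually_lt_const (u := ε) (by simpa [e])).exists
  refine ⟨2 * C * M, fun n => ?_⟩
  obtain ⟨i, v⟩ := ib hT (g := indicator (A M) 1) (measurable_one.indicator (mA M))
    ((integrable_const 1).indicator (mA M)) n
  have j := (h.iu (P := P).sub (integrable_const ε)).const_mul n
  refine le_trans ?_ (integral_mono_ae ((j.sub (i.const_mul (2 * C))).sub (integrable_const (2 * C * M)))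
    (int (h.m n) (h.b n)) ((h.inv hT).mono (h.path e0 M n)))
  simp only [Pi.sub_apply]
  rw [integral_sub (by exact j.sub (i.const_mul _)) (integrable_const _),
    integral_sub (by exact j) (i.const_mul _), integral_const_mul, integral_const_mul,
    integral_sub h.iu (integrable_const _), v, integral_indicator_one (mA M)]
  have : (0 : ℝ) ≤ n := by positivity
  simp only [integral_const, smul_eq_mul, one_mul, Function.comp, Measure.real, measure_univ,
    ENNReal.toReal_one] at *
  nlinarith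

omit h in
lemma lim {a b D : ℝ} (H : ∀ n : ℕ, 0 < n → n * a - D ≤ n * b) : a ≤ b := by
  by_contra! l
  obtain ⟨n, hn⟩ := exists_nat_gt (|D| / (a - b))
  have p : 0 < a - b := by linarith
  have := H n (by exact_mod_cast (div_nonneg (abs_nonneg _) p.le).trans_lt hn)
  rw [div_lt_iff₀ p] at hn
  linarith [le_abs_self D]

lemma low (hT : MeasurePreserving T P P) {m : ℕ} (m0 : 0 < m) : ∫ ω, f m ω ∂P ≤ m * ∫ ω, lo f ω ∂P := by
  let g : ℕ → Ω → ℝ := fun k ω => -birkhoffSum T^[m] (f m) k ω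
  have hg : Sup T^[m] g (C * m) := ⟨fun k => (Finset.measurable_sum _ fun j _ =>
      (h.m m).comp ((hT.iterate m).iterate j).measurable).neg, fun k ω => by
      rw [abs_neg]
      refine (Finset.abs_sum_le_sum_abs _ _).trans ((Finset.sum_le_sum fun j _ => h.b m _).trans ?_)
      simp [mul_comm], fun n k ω => by simp only [g, birkhoffSum_add]; linarith⟩
  have a : ∫ ω, up g ω ∂P ≤ -∫ ω, f m ω ∂P := le_of_forall_pos_le_add fun ε e0 => by
    obtain ⟨D, hD⟩ := hg.key (hT.iterate m) (half_pos e0)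
    refine sub_le_iff_le_add.1 (lim (D := D) fun n _ => ?_)
    have := hD n
    rw [integral_neg, (ib (hT.iterate m) (h.m m) (int (h.m m) (h.b m)) n).2] at this
    linarith
  have s : ∀ k ω, -g k ω ≤ f (m * k) ω + C * 0 - f 0 ((T^[m])^[k] ω) := fun k => by
    induction k with
    | zero => simp [g]
    | succ k ih =>
      intro ω
      have a := ih (T^[m] ω)
      have b := h.s m (m * k) ω
      simp only [g, birkhoffSum_succ', neg_neg, Function.iterate_succ_apply, mul_add_one, add_comm (m * k)] at *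
      linarith
  have b : ∀ ω, -up g ω ≤ m * lo f ω := fun ω => by
    have m1 : (0 : ℝ) < m := by positivity
    rw [← div_le_iff₀' m1]
    refine le_of_forall_lt_imp_le_of_dense fun b hb => ?_
    rw [lt_div_iff₀ m1] at hb
    obtain ⟨c, c1, c2⟩ := exists_between hb
    refine le_liminf_of_le (h.b1 ω).isCoboundedUnder_ge ((flo m0 (y := fun k => -g k ω) (E := C * m) (c := c)
      (fun n => ?_) ?_ (by rwa [lt_div_iff₀ m1])).mono fun _ => le_of_lt)
    · have a := s (n / m) ω
      have b := h.s (m * (n / m)) (n % m) ω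
      have c := abs_le.1 (h.b 0 ((T^[m])^[n / m] ω))
      have d := abs_le.1 (h.b (n % m) (T^[m * (n / m)] ω))
      have e : ((n % m : ℕ) : ℝ) ≤ m := by exact_mod_cast (Nat.mod_lt n m0).le
      rw [Nat.div_add_mod] at b
      simp only [Nat.cast_zero] at c
      nlinarith [h.c0 ω]
    · filter_upwards [eventually_lt_of_limsup_lt (lt_neg.1 c2) (hg.b1 ω), eventually_gt_atTop 0] with k p k0
      rw [div_lt_iff₀ (by positivity)] at p
      linarith
  have c := integral_mono (hg.iu (P := P)).neg (h.il.const_mul m) b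
  simp only [Pi.neg_apply] at c
  rw [integral_neg, integral_const_mul] at c
  linarith

/-- Kingman's theorem -/
theorem kingman (hT : MeasurePreserving T P P) :
    ∀ᵐ ω ∂P, ∃ L, Tendsto (fun n : ℕ => f n ω / n) atTop (𝓝 L) := by
  have a : ∫ ω, up f ω ∂P ≤ ∫ ω, lo f ω ∂P := le_of_forall_pos_le_add fun ε e0 => by
    obtain ⟨D, hD⟩ := h.key hT (half_pos e0)
    exact sub_le_iff_le_add.1 (lim (D := D) fun n n0 => by linarith [hD n, h.low hT n0])
  have b := (integral_eq_zero_iff_of_nonneg (μ := P) (fun ω => sub_nonneg.2 (h.lu ω).2.1) (h.iu.sub h.il)).1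
    (le_antisymm (by rw [integral_sub h.iu h.il]; linarith)
      (integral_nonneg fun ω => sub_nonneg.2 (h.lu ω).2.1))
  exact b.mono fun ω e => ⟨_, tendsto_of_liminf_eq_limsup (sub_eq_zero.1 e).symm rfl (h.b1 ω) (h.b2 ω)⟩

end Sup

end Pool.Agent.Lib.helper3.King
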