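import Pool.Agent.Lib.helper3.MC

/-! Simple random walk on a locally finite graph: recurrence and transience via energy. -/

namespace Pool.Agent.Lib.helper3.SRW

open MeasureTheory ProbabilityTheory Filter Topology Finset
open scoped ENNReal

def walk {W : Type} (x : W) (ω : ℕ → W → W) : ℕ → W
  | 0 => x
  | t + 1 => ω t (walk x ω t)

variable {V : Type} [DecidableEq V] (G : SimpleGraph V) [G.LocallyFinite] (x : V)

/-- probability of avoiding `x` at times `1..n` -/
noncomputable def b : ℕ → V → ℝ
  | 0, _ => 1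
  | n + 1, v => (∑ w ∈ G.neighborFinset v, if w = x then 0 else b n w) / G.degree v

noncomputable def u (n : ℕ) (v : V) : ℝ := 1 - if v = x then 0 else b G x n v

def D (s : Finset (V × V)) (f g : V → ℝ) : ℝ := ∑ p ∈ s, (f p.1 - f p.2) * (g p.1 - g p.2)

lemma b_nonneg (n : ℕ) : ∀ v, 0 ≤ b G x n v := by
  induction n with
  | zero => simp [b]
  | succ n ih => exact fun v => div_nonneg (sum_nonneg fun w _ => by split_ifs <;> simp [ih]) (by simp)

lemma b_succ_le (n : ℕ) : ∀ v, b G x (n + 1) v ≤ b G x n v := by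
  induction n with
  | zero =>
    refine fun v => div_le_one_of_le₀ ((sum_le_card_nsmul _ _ 1 fun w _ => ?_).trans (by simp)) (by simp)
    split_ifs <;> simp [b]
  | succ n ih =>
    refine fun v => div_le_div_of_nonneg_right (sum_le_sum fun w _ => ?_) (by simp)
    split_ifs <;> simp [ih]

lemma b_anti (v : V) : Antitone fun n => b G x n v :=
  antitone_nat_of_succ_le fun n => b_succ_le G x n v

lemma u_nonneg (n : ℕ) (v : V) : 0 ≤ u G x n v := by
  have := b_anti G x v (Nat.zero_le n)
  unfold u
  split_ifs <;> simp_all [b]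

omit [DecidableEq V] in
open Classical in
lemma parts (S : Finset V) (f g : V → ℝ) (h : ∀ v, f v ≠ 0 → G.neighborFinset v ⊆ S) :
    D {p ∈ S ×ˢ S | G.Adj p.1 p.2} f g =
      2 * ∑ v ∈ S, f v * ∑ w ∈ G.neighborFinset v, (g v - g w) := by
  have e : ∑ p ∈ S ×ˢ S with G.Adj p.1 p.2, f p.1 * (g p.1 - g p.2) =
      ∑ v ∈ S, f v * ∑ w ∈ G.neighborFinset v, (g v - g w) := by
    rw [sum_filter, sum_product]
    refine sum_congr rfl fun v _ => ?_
    by_cases k : f v = 0
    · simp [k]
    · simp only
      rw [← sum_filter, ← mul_sum]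
      congr 2
      ext w
      simpa using fun a => h v k (by simpa using a)
  have e' : ∑ p ∈ S ×ˢ S with G.Adj p.1 p.2, f p.2 * (g p.2 - g p.1) =
      ∑ p ∈ S ×ˢ S with G.Adj p.1 p.2, f p.1 * (g p.1 - g p.2) :=
    sum_equiv (Equiv.prodComm _ _) (fun p => by simp [G.adj_comm, and_comm]) fun _ _ => rfl
  rw [two_mul, ← e, D]
  nth_rw 1 [← e']
  rw [← sum_add_distrib]
  exact sum_congr rfl fun _ _ => by ring

lemma big (f : V → ℝ) (hf : f.support.Finite) (S₀ : Finset V) :
    ∃ S, S₀ ⊆ S ∧ (∀ v, f v ≠ 0 → v ∈ S) ∧ ∀ v, f v ≠ 0 → G.neighborFinset v ⊆ S :=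
  ⟨S₀ ∪ (hf.toFinset ∪ hf.toFinset.biUnion fun v => G.neighborFinset v), subset_union_left,
    fun v h => by simp [h], fun v h w hw => by
      simp only [mem_union, mem_biUnion]
      exact Or.inr (Or.inr ⟨v, by simpa using h, hw⟩)⟩

variable (hG : ∀ v, 0 < G.degree v)
include hG

lemma lap (n : ℕ) (v : V) : ∑ w ∈ G.neighborFinset v, (u G x n v - u G x n w) =
    G.degree v * (b G x (n + 1) v - if v = x then 0 else b G x n v) := by
  have : (G.degree v : ℝ) ≠ 0 := by exact_mod_cast (hG v).ne'
  rw [b, mul_sub, mul_div_cancel₀ _ this]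
  simp [u]

lemma u_fin (n : ℕ) : (u G x n).support.Finite := by
  induction n with
  | zero => exact (Set.finite_singleton x).subset fun v h => by by_contra k; simp_all [u, b]
  | succ n ih =>
    refine ((ih.biUnion fun w _ => (G.neighborFinset w).finite_toSet).insert x).subset fun v h => ?_
    by_contra k
    simp only [Set.mem_insert_iff, Set.mem_iUnion, not_or, not_exists, mem_coe,
      SimpleGraph.mem_neighborFinset, Function.mem_support] at k
    have : (G.degree v : ℝ) ≠ 0 := by exact_mod_cast (hG v).ne'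
    refine h ?_
    rw [u, if_neg k.1, b, sum_congr rfl (g := fun _ => 1) fun w hw => by
      have := not_not.mp fun e => k.2 w e ((G.mem_neighborFinset _ _).mp hw).symm
      rw [u] at this
      linarith]
    simp [this]

lemma energy (n : ℕ) (s : Finset (V × V)) (hs : ∀ p ∈ s, G.Adj p.1 p.2) :
    D s (u G x n) (u G x n) ≤ 2 * (G.degree x * b G x (n + 1) x) := by
  classical
  obtain ⟨S, h1, h2, h3⟩ := big G _ (u_fin G x hG n) (s.image Prod.fst ∪ s.image Prod.snd)
  refine (sum_le_sum_of_subset_of_nonneg (t := {p ∈ S ×ˢ S | G.Adj p.1 p.2}) (fun p hp => ?_)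
    fun _ _ _ => mul_self_nonneg _).trans ((parts G S _ _ h3).trans_le ?_)
  · exact mem_filter.mpr ⟨mem_product.mpr ⟨h1 (mem_union_left _ (mem_image_of_mem _ hp)),
      h1 (mem_union_right _ (mem_image_of_mem _ hp))⟩, hs p hp⟩
  simp only [lap G x hG]
  rw [← add_sum_erase _ _ (h2 x (by simp [u]))]
  have := sum_nonpos fun v (hv : v ∈ S.erase x) => mul_nonpos_of_nonneg_of_nonpos (u_nonneg G x n v)
    (show (G.degree v : ℝ) * (b G x (n + 1) v - if v = x then 0 else b G x n v) ≤ 0 from
      mul_nonpos_of_nonneg_of_nonpos (by simp) (by simp [ne_of_mem_erase hv, b_succ_le]))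
  simp only [u, if_true] at this ⊢
  linarith

lemma b_small (h : ∀ ε > 0, ∃ (f : V → ℝ) (s : Finset (V × V)), f.support.Finite ∧ f x = 1 ∧
    (∀ v w, G.Adj v w → f v ≠ f w → (v, w) ∈ s) ∧ D s f f ≤ ε) :
    Tendsto (fun n => b G x n x) atTop (𝓝 0) := by
  classical
  have hl : ∀ v, Tendsto (fun n => b G x n v) atTop (𝓝 (⨅ n, b G x n v)) := fun v =>
    tendsto_atTop_ciInf (b_anti G x v) ⟨0, by rintro _ ⟨n, rfl⟩; exact b_nonneg G x n v⟩
  have hd : (0 : ℝ) < G.degree x := by exact_mod_cast hG x
  have h0 : 0 ≤ ⨅ n, b G x n x := le_ciInf fun n => b_nonneg G x n x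
  suffices e : ⨅ n, b G x n x = 0 from e ▸ hl x
  by_contra k
  have k' := lt_of_le_of_ne h0 (Ne.symm k)
  obtain ⟨f, s, h1, h2, h3, h4⟩ := h (G.degree x * (⨅ n, b G x n x) ^ 2) (by positivity)
  obtain ⟨S, -, h5, h6⟩ := big G f h1 ∅
  have h7 : Tendsto (fun n => D {p ∈ S ×ˢ S | G.Adj p.1 p.2} f (u G x n) ^ 2) atTop
      (𝓝 ((2 * ∑ v ∈ S, f v * (G.degree v * ((⨅ n, b G x n v) -
        if v = x then 0 else ⨅ n, b G x n v))) ^ 2)) := by
    simp only [parts G S f _ h6, lap G x hG]
    refine ((tendsto_finsetSum _ fun v _ => ((((hl v).comp (tendsto_add_atTop_nat 1)).sub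
      ?_).const_mul _).const_mul _).const_mul _).pow 2
    split_ifs
    · exact tendsto_const_nhds
    · exact hl v
  rw [sum_eq_single x (fun v _ hv => by simp [hv]) fun a => absurd (h5 x (by simp [h2])) a] at h7
  have h8 := le_of_tendsto' h7 (b := G.degree x * (⨅ n, b G x n x) ^ 2 * (2 * G.degree x)) fun n => by
    refine (sum_mul_sq_le_sq_mul_sq _ _ _).trans (mul_le_mul (le_trans ?_ h4) ?_
      (sum_nonneg fun _ _ => sq_nonneg _) (by positivity))
    · rw [← sum_filter_ne_zero]
      simp only [sq]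
      refine sum_le_sum_of_subset_of_nonneg (fun p hp => ?_) fun _ _ _ => mul_self_nonneg _
      simp only [mem_filter, ne_eq, mul_self_eq_zero, sub_eq_zero] at hp
      exact h3 _ _ hp.1.2 hp.2
    · simp only [sq]
      refine (energy G x hG n _ fun p hp => (mem_filter.mp hp).2).trans ?_
      have := b_anti G x x (Nat.zero_le (n + 1))
      simp only [b] at this ⊢
      nlinarith
  simp only [h2, if_true] at h8
  nlinarith [mul_pos (mul_pos hd hd) (mul_pos k' k')]

variable [Countable V]

section

local instance ms : MeasurableSpace V := ⊤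

omit [DecidableEq V] [Countable V] in
lemma pr (v : V) : IsProbabilityMeasure (uniformOn (G.neighborSet v)) :=
  isProbabilityMeasure_uniformOn (Set.toFinite _) ((G.degree_pos_iff_exists_adj v).mp (hG v))

noncomputable abbrev P : Measure (ℕ → V → V) :=
  Measure.infinitePi fun _ => Measure.infinitePi fun v => uniformOn (G.neighborSet v)

omit hG [DecidableEq V] in
lemma walk_meas (t : ℕ) : Measurable fun ω => walk x ω t := by
  induction t with
  | zero => exact measurable_const
  | succ t ih =>
    exact (measurable_from_prod_countable_right (f := fun z : V × (V → V) => z.2 z.1)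
      fun v => measurable_pi_apply v).comp (ih.prodMk (measurable_pi_apply t))

omit hG [DecidableEq V] [Countable V] in
lemma walk_congr (t : ℕ) (ω ω' : ℕ → V → V) (h : ∀ i < t, ω i = ω' i) :
    walk x ω t = walk x ω' t := by
  induction t with
  | zero => rfl
  | succ t ih => rw [walk, walk, ih fun i hi => h i (by omega), h t (by omega)]

def A (t : ℕ) : Set (ℕ → V → V) := {ω | ∀ m < t, walk x ω (m + 1) ≠ x}

omit hG [DecidableEq V] in
lemma A_meas (t : ℕ) : MeasurableSet (A x t) := by
  simp only [A, Set.ofPred_forall]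
  exact .iInter fun m => .iInter fun _ =>
    walk_meas x (m + 1) (MeasurableSpace.measurableSet_top (s := {v | v ≠ x}))

lemma P_A (t : ℕ) : ∀ n, ∫⁻ ω, (A x t).indicator 1 ω * ENNReal.ofReal (b G x n (walk x ω t)) ∂P G =
    ENNReal.ofReal (b G x (n + t) x) := by
  have := pr G hG
  have : Nonempty (V → V) := ⟨id⟩
  induction t with
  | zero => simp [A, walk]
  | succ t ih =>
    intro n
    rw [← add_assoc, add_right_comm, ← ih]
    have h := MC.indep_past (Measure.infinitePi fun v => uniformOn (G.neighborSet v)) t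
      (fun ω => (walk x ω t, (A x t).indicator (1 : (ℕ → V → V) → ℝ≥0∞) ω))
      ((walk_meas x t).prodMk (measurable_one.indicator (A_meas x t))) (fun ω ω' h => by
        have : ω ∈ A x t ↔ ω' ∈ A x t := forall₂_congr fun m hm => by
          rw [walk_congr x (m + 1) ω ω' fun i hi => h i (by omega)]
        rw [walk_congr x t ω ω' h]
        by_cases k : ω' ∈ A x t <;> simp [Set.indicator, this, k])
      (fun z => z.1.2 * ENNReal.ofReal (if z.2 z.1.1 = x then 0 else b G x n (z.2 z.1.1)))
      (measurable_fst.snd.mul ((measurable_from_top (f := fun w =>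
        ENNReal.ofReal (if w = x then 0 else b G x n w))).comp
        ((measurable_from_prod_countable_right (f := fun z : V × (V → V) => z.2 z.1)
          fun v => measurable_pi_apply v).comp (measurable_fst.fst.prodMk measurable_snd))))
    refine (lintegral_congr fun ω => ?_).trans (h.trans (lintegral_congr fun ω => ?_))
    · simp only [A, Set.indicator, Set.mem_ofPred_eq, Nat.forall_lt_succ_right, ← walk.eq_2]
      by_cases k : walk x ω (t + 1) = x <;> simp [k]
    · simp only
      generalize walk x ω t = v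
      have : (0 : ℝ) < G.degree v := by exact_mod_cast hG v
      rw [lintegral_const_mul' _ _ (by by_cases k : ω ∈ A x t <;> simp [k]),
        ← lintegral_map (f := fun w => ENNReal.ofReal (if w = x then 0 else b G x n w))
          measurable_from_top (measurable_pi_apply v), Measure.infinitePi_map_eval, uniformOn,
        ProbabilityTheory.cond, lintegral_smul_measure, ← G.coe_neighborFinset, lintegral_finset,
        Measure.count_apply_finset, b, ENNReal.ofReal_div_of_pos this,
        ENNReal.ofReal_sum_of_nonneg fun w _ => by split_ifs <;> simp [b_nonneg],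
        ENNReal.div_eq_inv_mul]
      simp

lemma P_A' (t : ℕ) : P G (A x t) = ENNReal.ofReal (b G x t x) := by
  simpa [b, A_meas x t] using P_A G x hG t 0

theorem recurrent (h : ∀ ε > 0, ∃ (f : V → ℝ) (s : Finset (V × V)), f.support.Finite ∧ f x = 1 ∧
    (∀ v w, G.Adj v w → f v ≠ f w → (v, w) ∈ s) ∧ D s f f ≤ ε) :
    P G {ω | ∀ m, walk x ω (m + 1) ≠ x} = 0 := by
  refine le_zero_iff.mp (ge_of_tendsto' (f := fun t => ENNReal.ofReal (b G x t x))
    (by simpa using ENNReal.tendsto_ofReal (b_small G x hG h)) fun t => ?_)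
  exact le_of_le_of_eq (measure_mono (t := A x t) fun ω h m _ => h m) (P_A' G x hG t)

theorem transient (c : ℝ) (hc : 0 < c) (h : ∀ f : V → ℝ, f.support.Finite → f x = 1 →
    ∃ s : Finset (V × V), (∀ p ∈ s, G.Adj p.1 p.2) ∧ c ≤ D s f f) :
    0 < P G {ω | ∀ m, walk x ω (m + 1) ≠ x} := by
  have := pr G hG
  have hd : (0 : ℝ) < G.degree x := by exact_mod_cast hG x
  rw [show {ω | ∀ m, walk x ω (m + 1) ≠ x} = ⋂ t, A x (t + 1) from Set.ext fun ω => by
    simpa [A] using ⟨fun h _ m _ => h m, fun h m => h m m le_rfl⟩,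
    Antitone.measure_iInter (s := fun t => A x (t + 1)) (fun a b h ω k m hm => k m (by omega))
      (fun t => (A_meas x _).nullMeasurableSet) ⟨0, measure_ne_top _ _⟩]
  refine lt_of_lt_of_le (ENNReal.ofReal_pos.mpr (show 0 < c / (2 * G.degree x) by positivity))
    (le_iInf fun t => ?_)
  obtain ⟨s, h1, h2⟩ := h _ (u_fin G x hG t) (by simp [u])
  rw [P_A' G x hG]
  refine ENNReal.ofReal_le_ofReal ((div_le_iff₀ (by positivity)).mpr ?_)
  linarith [energy G x hG t s h1]

end

end Pool.Agent.Lib.helper3.SRW
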