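import Mathlib

set_option autoImplicit false

/-! A small clause-propagation proof checker that runs in the kernel.
Literals are naturals: `2 v` is variable `v`, `2 v + 1` its negation, literal `0` is true.
A clause is the bit mask of its literals. Fields of a packed step are in base `2 ^ 20`. -/

namespace Pool.Agent.Lib.helper3.Rup

def S (w : ℕ → Prop) (c : ℕ) : Prop := ∃ i, c.testBit i = true ∧ w i

def Cons (w : ℕ → Prop) : Prop := w 0 ∧ ∀ k, ¬ (w (2 * k) ∧ w (2 * k + 1))

inductive Tr : Type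
  | nil : Tr
  | node (c : ℕ) (l r : Tr) : Tr

noncomputable def force (m : ℕ) (f : ℕ → Bool) : Bool := Nat.rec (f 0) (fun k _ => f (Nat.succ k)) m

theorem force_eq (m : ℕ) (f : ℕ → Bool) : force m f = f m := by cases m <;> rfl

noncomputable def get (z : ℕ) (t : Tr) : ℕ → ℕ :=
  Tr.rec (motive := fun _ => ℕ → ℕ) (fun _ => z) (fun c _ _ gl gr i =>
    Bool.rec (Bool.rec (gr (Nat.div i 2)) (gl (Nat.div i 2)) (Nat.beq (Nat.mod i 2) 0)) c (Nat.ble i 1)) t

noncomputable def setK (t : Tr) (c : ℕ) : ℕ → (Tr → Bool) → Bool :=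
  Tr.rec (motive := fun _ => ℕ → (Tr → Bool) → Bool) (fun _ k => k (Tr.node c Tr.nil Tr.nil))
    (fun a l r sl sr i k =>
      Bool.rec (sr (Nat.div i 2) (fun r' => k (Tr.node a l r'))) (sl (Nat.div i 2) (fun l' => k (Tr.node a l' r)))
        (Nat.beq (Nat.mod i 2) 0)) t

def All (P : ℕ → Prop) : Tr → Prop
  | .nil => True
  | .node c l r => P c ∧ All P l ∧ All P r

theorem All.get {P : ℕ → Prop} {z : ℕ} (hz : P z) : ∀ {t : Tr}, All P t → ∀ i, P (get z t i)
  | .nil, _, _ => hz
  | .node c l r, h, i => by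
    show P (Bool.rec (Bool.rec (Rup.get z r (Nat.div i 2)) (Rup.get z l (Nat.div i 2))
      (Nat.beq (Nat.mod i 2) 0)) c (Nat.ble i 1))
    cases Nat.ble i 1
    · cases Nat.beq (Nat.mod i 2) 0
      · exact h.2.2.get hz _
      · exact h.2.1.get hz _
    · exact h.1

theorem setK_spec {P : ℕ → Prop} {c : ℕ} (hc : P c) : ∀ {t : Tr}, All P t → ∀ i k, setK t c i k = true →
    ∃ t', All P t' ∧ k t' = true
  | .nil, _, _, _, h => ⟨.node c .nil .nil, ⟨hc, trivial, trivial⟩, h⟩
  | .node a l r, ht, i, k, h => by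
    change Bool.rec (setK r c (Nat.div i 2) (fun r' => k (Tr.node a l r')))
      (setK l c (Nat.div i 2) (fun l' => k (Tr.node a l' r))) (Nat.beq (Nat.mod i 2) 0) = true at h
    revert h
    cases Nat.beq (Nat.mod i 2) 0 <;> intro h
    · obtain ⟨t', h1, h2⟩ := setK_spec hc ht.2.2 _ _ h
      exact ⟨.node a l t', ⟨ht.1, ht.2.1, h1⟩, h2⟩
    · obtain ⟨t', h1, h2⟩ := setK_spec hc ht.2.1 _ _ h
      exact ⟨.node a t' r, ⟨ht.1, h1, ht.2.2⟩, h2⟩

/-- mask of the first `n` fields of `x` -/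
noncomputable def mk (n : ℕ) : ℕ → ℕ :=
  Nat.rec (motive := fun _ => ℕ → ℕ) (fun _ => 0)
    (fun _ ih x => Nat.lor (Nat.pow 2 (Nat.mod x 1048576)) (ih (Nat.div x 1048576))) n

noncomputable def dec (x : ℕ) : ℕ := mk (Nat.mod x 1048576) (Nat.div x 1048576)

noncomputable def prop (t : Tr) (n : ℕ) : ℕ → ℕ → Bool :=
  Nat.rec (motive := fun _ => ℕ → ℕ → Bool) (fun _ _ => false) (fun _ ih x F =>
    force (get 1 t (Nat.mod x 1048576)) fun d => force (Nat.xor d (Nat.land d F)) fun r =>
      Bool.rec (Bool.rec false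
        (force (Nat.div x 1048576) fun x' =>
          force (Nat.lor F (Bool.rec (Nat.div r 2) (Nat.mul r 2) (Nat.beq (Nat.mod r 3) 1))) fun F' => ih x' F')
        (Nat.beq (Nat.land r (Nat.sub r 1)) 0)) true (Nat.beq r 0)) n

theorem beq_false {a b : ℕ} (h : a ≠ b) : Nat.beq a b = false :=
  Bool.eq_false_iff.mpr fun e => h (Nat.eq_of_beq_eq_true e)

theorem prop_succ (t : Tr) (n x F : ℕ) : prop t (n + 1) x F =
    force (get 1 t (Nat.mod x 1048576)) fun d => force (Nat.xor d (Nat.land d F)) fun r =>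
      Bool.rec (Bool.rec false
        (force (Nat.div x 1048576) fun x' =>
          force (Nat.lor F (Bool.rec (Nat.div r 2) (Nat.mul r 2) (Nat.beq (Nat.mod r 3) 1))) fun F' =>
            prop t n x' F')
        (Nat.beq (Nat.land r (Nat.sub r 1)) 0)) true (Nat.beq r 0) := rfl

theorem prop_spec {w : ℕ → Prop} (hw : Cons w) {t : Tr} (ht : All (S w) t) (n : ℕ) :
    ∀ x F, prop t n x F = true → S w F := by
  induction n with
  | zero => intro x F h; cases h
  | succ n ih =>
    intro x F h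
    simp only [prop_succ, force_eq] at h
    obtain ⟨i, hi, hwi⟩ := ht.get (z := 1) ⟨0, rfl, hw.1⟩ (Nat.mod x 1048576)
    generalize get 1 t (Nat.mod x 1048576) = d at h hi
    by_cases hF : F.testBit i = true
    · exact ⟨i, hF, hwi⟩
    have hr : (Nat.xor d (Nat.land d F)).testBit i = true := by
      show (d ^^^ (d &&& F)).testBit i = true
      simp [Nat.testBit_xor, Nat.testBit_and, hi, hF]
    generalize Nat.xor d (Nat.land d F) = r at h hr
    have h0 : r ≠ 0 := by rintro rfl; simp at hr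
    rw [show Nat.beq r 0 = false from beq_false h0] at h
    revert h
    cases h1 : Nat.beq (Nat.land r (Nat.sub r 1)) 0 <;> intro h
    · cases h
    obtain ⟨j, rfl⟩ := (Nat.and_sub_one_eq_zero_iff_isPowerOfTwo h0).mp (Nat.eq_of_beq_eq_true h1)
    obtain rfl : j = i := by simpa [Nat.testBit_two_pow] using hr
    obtain ⟨k, hk, hwk⟩ := ih _ _ h
    change (F ||| _).testBit k = true at hk
    rw [Nat.testBit_or, Bool.or_eq_true] at hk
    rcases hk with hk | hk
    · exact ⟨k, hk, hwk⟩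
    exfalso
    have h4 : ∀ m, 2 ^ (2 * m) % 3 = 1 := fun m => by rw [pow_mul, Nat.pow_mod]; norm_num
    obtain ⟨m, rfl | rfl⟩ := Nat.even_or_odd' j
    · rw [show Nat.beq (Nat.mod (2 ^ (2 * m)) 3) 1 = true from Nat.beq_eq.mpr (h4 m)] at hk
      change (2 ^ (2 * m) * 2).testBit k = true at hk
      rw [← pow_succ, Nat.testBit_two_pow, decide_eq_true_eq] at hk
      exact hw.2 m ⟨hwi, hk ▸ hwk⟩
    · have : 2 ^ (2 * m + 1) % 3 ≠ 1 := by have := h4 m; omega
      rw [show Nat.beq (Nat.mod (2 ^ (2 * m + 1)) 3) 1 = false from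
        beq_false this] at hk
      change (2 ^ (2 * m + 1) / 2).testBit k = true at hk
      rw [pow_succ, Nat.mul_div_cancel _ two_pos, Nat.testBit_two_pow, decide_eq_true_eq] at hk
      exact hw.2 m ⟨hk ▸ hwk, hwi⟩

/-- a step is `2 p` (input clause `gen p`) or `1 + 2 (n + B (lits ++ [h] ++ hints))` -/
noncomputable def run (gen : ℕ → ℕ) (k : Tr → Bool) (l : List ℕ) : ℕ → Tr → Bool :=
  List.rec (motive := fun _ => ℕ → Tr → Bool) (fun _ t => k t) (fun x _ ih i t =>
    force (Nat.div x 2) fun y => force (Nat.succ i) fun i' =>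
    Bool.rec
      (force (dec y) fun c =>
        force (Nat.shiftRight y (Nat.mul 20 (Nat.succ (Nat.mod y 1048576)))) fun z =>
          Bool.rec false (setK t c i (ih i')) (prop t (Nat.mod z 1048576) (Nat.div z 1048576) c))
      (force (gen y) fun c => setK t c i (ih i')) (Nat.beq (Nat.mod x 2) 0)) l

theorem run_cons (gen : ℕ → ℕ) (k : Tr → Bool) (x : ℕ) (l : List ℕ) (i : ℕ) (t : Tr) :
    run gen k (x :: l) i t = force (Nat.div x 2) fun y => force (Nat.succ i) fun i' =>
    Bool.rec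
      (force (dec y) fun c =>
        force (Nat.shiftRight y (Nat.mul 20 (Nat.succ (Nat.mod y 1048576)))) fun z =>
          Bool.rec false (setK t c i (run gen k l i')) (prop t (Nat.mod z 1048576) (Nat.div z 1048576) c))
      (force (gen y) fun c => setK t c i (run gen k l i')) (Nat.beq (Nat.mod x 2) 0) := rfl

theorem run_spec {w : ℕ → Prop} (hw : Cons w) {gen : ℕ → ℕ} (hg : ∀ p, S w (gen p)) (k : Tr → Bool)
    (l : List ℕ) : ∀ i t, All (S w) t → run gen k l i t = true → ∃ t', All (S w) t' ∧ k t' = true := by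
  induction l with
  | nil => exact fun _ t ht h => ⟨t, ht, h⟩
  | cons x l ih =>
    intro i t ht h
    simp only [run_cons, force_eq] at h
    revert h
    cases Nat.beq (Nat.mod x 2) 0 <;> intro h
    · revert h
      cases h1 : prop t _ _ _ <;> intro h
      · cases h
      obtain ⟨t', h2, h3⟩ := setK_spec (prop_spec hw ht _ _ _ h1) ht _ _ h
      exact ih _ _ h2 h3
    · obtain ⟨t', h2, h3⟩ := setK_spec (hg _) ht _ _ h
      exact ih _ _ h2 h3

/-- an exported entry is `id + B * code` -/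
noncomputable def expo (E : Tr) (t : Tr) : Bool :=
  Tr.rec (motive := fun _ => Bool) true (fun v _ _ a b =>
    Bool.rec false (Bool.rec false b a)
      (Nat.beq (get 1 t (Nat.mod v 1048576)) (dec (Nat.div v 1048576)))) E

noncomputable def imp (E : Tr) (p : ℕ) : ℕ := dec (Nat.div (get 1048576 E p) 1048576)

theorem expo_spec {w : ℕ → Prop} (hw : Cons w) {t : Tr} (ht : All (S w) t) :
    ∀ E, expo E t = true → All (fun v => S w (dec (Nat.div v 1048576))) E
  | .nil, _ => trivial
  | .node v l r, h => by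
    change Bool.rec false (Bool.rec false (expo r t) (expo l t))
      (Nat.beq (get 1 t (Nat.mod v 1048576)) (dec (Nat.div v 1048576))) = true at h
    revert h
    cases h1 : Nat.beq _ _ <;> intro h
    · cases h
    revert h
    cases h2 : expo l t <;> intro h
    · cases h
    refine ⟨?_, expo_spec hw ht l h2, expo_spec hw ht r h⟩
    show S w _
    rw [← Nat.eq_of_beq_eq_true h1]
    exact ht.get ⟨0, rfl, hw.1⟩ _

theorem chunk {w : ℕ → Prop} (hw : Cons w) {gen : ℕ → ℕ} (hg : ∀ p, S w (gen p)) (l : List ℕ) (E : Tr)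
    (h : run gen (expo E) l 1 Tr.nil = true) (p : ℕ) : S w (imp E p) := by
  obtain ⟨t, ht, h⟩ := run_spec hw hg _ l 1 Tr.nil trivial h
  exact (expo_spec hw ht E h).get (z := 1048576) ⟨0, by decide +kernel, hw.1⟩ p

noncomputable def orG (g1 g2 : ℕ → ℕ) (p : ℕ) : ℕ :=
  Bool.rec (g2 (Nat.div p 2)) (g1 (Nat.div p 2)) (Nat.beq (Nat.mod p 2) 0)

theorem orG_spec {w : ℕ → Prop} {g1 g2 : ℕ → ℕ} (h1 : ∀ p, S w (g1 p)) (h2 : ∀ p, S w (g2 p)) (p : ℕ) :
    S w (orG g1 g2 p) := by
  unfold orG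
  cases Nat.beq (Nat.mod p 2) 0
  exacts [h2 _, h1 _]

theorem not_S_zero (w : ℕ → Prop) : ¬ S w 0 := by
  rintro ⟨i, hi, -⟩
  simp at hi

/-- mask of a list of literals -/
def cl (l : List ℕ) : ℕ := l.foldr (fun i c => Nat.lor (Nat.pow 2 i) c) 0

theorem S_cl {w : ℕ → Prop} {l : List ℕ} : S w (cl l) ↔ ∃ i ∈ l, w i := by
  induction l with
  | nil => simpa [cl] using not_S_zero w
  | cons a l ih =>
    simp only [List.mem_cons, exists_eq_or_imp, ← ih]
    show S w (2 ^ a ||| cl l) ↔ _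
    simp only [S, Nat.testBit_or, Bool.or_eq_true, Nat.testBit_two_pow, decide_eq_true_eq, or_and_right,
      exists_or, exists_eq_left']

/-- literal valuation from a valuation of the variables -/
def W (val : ℕ → Prop) (i : ℕ) : Prop := if i % 2 = 0 then (i / 2 = 0 ∨ val (i / 2 - 1)) else
  ¬ (i / 2 = 0 ∨ val (i / 2 - 1))

theorem W_pos (val : ℕ → Prop) (k : ℕ) : W val (2 * k + 2) ↔ val k := by
  have h1 : (2 * k + 2) % 2 = 0 := by omega
  have h2 : (2 * k + 2) / 2 = k + 1 := by omega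
  simp [W, h1, h2]

theorem W_neg (val : ℕ → Prop) (k : ℕ) : W val (2 * k + 3) ↔ ¬ val k := by
  have h1 : (2 * k + 3) % 2 = 1 := by omega
  have h2 : (2 * k + 3) / 2 = k + 1 := by omega
  simp [W, h1, h2]

theorem cons_W (val : ℕ → Prop) : Cons (W val) := by
  refine ⟨by simp [W], fun k h => ?_⟩
  have h1 : (2 * k + 1) % 2 = 1 := by omega
  have h2 : (2 * k + 1) / 2 = k := by omega
  simp only [W, h1, h2, Nat.mul_mod_right, if_true, Nat.mul_div_cancel_left k two_pos, one_ne_zero,
    if_false] at h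
  exact h.2 h.1

theorem S_one (val : ℕ → Prop) : S (W val) 1 := ⟨0, rfl, (cons_W val).1⟩

end Pool.Agent.Lib.helper3.Rup
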