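import Mathlib

/-! The lattice graph on `Fin d → ℤ` and its automorphisms. -/

namespace Pool.Agent.Lib.helper3.Zd

open Finset

def G (d : ℕ) : SimpleGraph (Fin d → ℤ) where
  Adj x y := ∑ i, |x i - y i| = 1
  symm := ⟨fun x y h => by simpa only [abs_sub_comm (y _)] using h⟩
  loopless := ⟨fun x h => by simp at h⟩

variable {d : ℕ}

lemma adj_iff {x y : Fin d → ℤ} :
    (G d).Adj x y ↔ ∃ i s, (s = 1 ∨ s = -1) ∧ y = x + Pi.single i s := by
  constructor
  · intro h
    have h' : ∑ i, |x i - y i| = 1 := h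
    obtain ⟨i, -, hi⟩ := exists_ne_zero_of_sum_ne_zero (h'.trans_ne one_ne_zero)
    rw [← add_sum_erase _ _ (mem_univ i)] at h'
    have h0 := sum_nonneg fun j (_ : j ∈ univ.erase i) => abs_nonneg (x j - y j)
    have h1 := abs_nonneg (x i - y i)
    refine ⟨i, y i - x i, by rw [abs_eq_max_neg] at h' hi; omega, funext fun j => ?_⟩
    by_cases k : j = i
    · simp [k]
    · have := (sum_eq_zero_iff_of_nonneg fun j _ => abs_nonneg (x j - y j)).mp
        (show ∑ j ∈ univ.erase i, |x j - y j| = 0 by omega) j (by simp [k])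
      simpa [k, sub_eq_zero, eq_comm] using this
  · rintro ⟨i, s, hs, rfl⟩
    change ∑ j, _ = _
    rw [sum_eq_single i (fun j _ h => by simp [h]) (by simp)]
    rcases hs with rfl | rfl <;> simp

lemma sq {i j k l : Fin d} {a b c e : ℤ} (ha : a = 1 ∨ a = -1) (hb : b = 1 ∨ b = -1)
    (hc : c = 1 ∨ c = -1) (he : e = 1 ∨ e = -1)
    (h : (Pi.single j b + Pi.single k c : Fin d → ℤ) = Pi.single i a + Pi.single l e)
    (h1 : (Pi.single i a : Fin d → ℤ) ≠ Pi.single j b)
    (h2 : (Pi.single j b + Pi.single k c : Fin d → ℤ) ≠ 0) :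
    (Pi.single k c : Fin d → ℤ) = Pi.single i a := by
  have e1 := congrFun h i
  have e2 := congrFun h j
  have e3 := congrFun h k
  have e4 : ¬ (i = j ∧ a = b) := by rintro ⟨rfl, rfl⟩; exact h1 rfl
  have e5 : ¬ (j = k ∧ b + c = 0) := by
    rintro ⟨rfl, e⟩
    exact h2 (by rw [← Pi.single_add, e, Pi.single_zero])
  simp only [Pi.add_apply, Pi.single_apply] at e1 e2 e3
  obtain ⟨rfl, rfl⟩ : k = i ∧ c = a := by grind
  rfl

theorem aut (φ : G d ≃g G d) : ∃ (σ : Equiv.Perm (Fin d)) (s : Fin d → ℤ),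
    (∀ j, s j = 1 ∨ s j = -1) ∧ ∀ x j, φ x j = s j * x (σ j) + φ 0 j := by
  have h1 : ∀ x i, ∃ j s, (s = 1 ∨ s = -1) ∧ φ (x + Pi.single i 1) = φ x + Pi.single j s :=
    fun x i => adj_iff.mp (φ.map_rel_iff.mpr (adj_iff.mpr ⟨i, 1, Or.inl rfl, rfl⟩))
  choose π s hs h1 using h1
  have h2 : ∀ x i j, (Pi.single (π (x + Pi.single j 1) i) (s (x + Pi.single j 1) i) : Fin d → ℤ) =
      Pi.single (π x i) (s x i) := fun x i j => by
    by_cases k : i = j
    · subst k
      by_contra k
      set y := φ.symm (φ x + Pi.single (π (x + Pi.single i 1) i) (s (x + Pi.single i 1) i))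
      have hy : φ y = _ := φ.apply_symm_apply _
      obtain ⟨a, b, hb, e1⟩ := adj_iff.mp ((φ.map_rel_iff (a := x) (b := y)).mp
        (adj_iff.mpr ⟨_, _, hs _ _, hy⟩))
      obtain ⟨c, e, he, e2⟩ := adj_iff.mp ((φ.map_rel_iff (a := y)
        (b := x + Pi.single i 1 + Pi.single i 1)).mp
        (adj_iff.mpr ⟨_, _, hs x i, by rw [hy, h1, h1, add_right_comm]⟩))
      rw [e1, add_assoc, add_assoc, add_right_inj] at e2
      have e3 := congrFun e2 i
      simp only [Pi.add_apply, Pi.single_apply] at e3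
      obtain ⟨rfl, rfl⟩ : a = i ∧ b = 1 := by grind
      rw [e1, h1, add_right_inj] at hy
      exact k hy.symm
    · refine sq (j := π x j) (l := π (x + Pi.single i 1) j) (hs x i) (hs x j) (hs _ _)
        (hs (x + Pi.single i 1) j) ?_ (fun e => k ?_) fun e => ?_
      · rw [← add_right_inj (φ x), ← add_assoc, ← add_assoc, ← h1, ← h1, ← h1, ← h1, add_right_comm]
      · have := congrFun (φ.injective (show φ (x + Pi.single i 1) = φ (x + Pi.single j 1) by
          rw [h1, h1, e])) i
        by_contra k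
        simp [k] at this
      · have := congrFun (φ.injective (show φ (x + Pi.single j 1 + Pi.single i 1) = φ x by
          rw [h1, h1, add_assoc, e, add_zero])) i
        simp [k] at this
  have ind : ∀ P : (Fin d → ℤ) → Prop, P 0 → (∀ x j, P (x + Pi.single j 1) ↔ P x) → ∀ x, P x :=
    fun P h0 h x => by
      have := Pi.single_induction (fun v => ∀ x, P (x + v) ↔ P x) x (by simp)
        (fun f g hf hg x => by rw [← add_assoc, hg, hf]) (fun i m => by
          induction m using Int.induction_on with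
          | zero => simp
          | succ m ih => intro x; rw [Pi.single_add, ← add_assoc, h, ih]
          | pred m ih => intro x; rw [← h _ i, add_assoc, ← Pi.single_add, sub_add_cancel, ih]) 0
      simpa [h0] using this
  have h3 : ∀ x i, (Pi.single (π x i) (s x i) : Fin d → ℤ) = Pi.single (π 0 i) (s 0 i) :=
    fun x i => ind (fun x => (Pi.single (π x i) (s x i) : Fin d → ℤ) = _) rfl
      (fun x j => by rw [h2]) x
  have h4 : Function.Injective (π 0) := fun i j e => by
    by_contra k
    rcases show s 0 i = s 0 j ∨ s 0 j + s 0 i = 0 by have := hs 0 i; have := hs 0 j; omega with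
      e' | e'
    · have := congrFun (φ.injective (show φ (0 + Pi.single i 1) = φ (0 + Pi.single j 1) by
        rw [h1, h1, e, e'])) i
      simp [k] at this
    · have := congrFun (φ.injective (show φ (0 + Pi.single j 1 + Pi.single i 1) = φ 0 by
        rw [h1, h1, h2, add_assoc, e, ← Pi.single_add, e']; simp)) i
      simp [k] at this
  let σ := Equiv.ofBijective _ (Finite.injective_iff_bijective.mp h4)
  refine ⟨σ.symm, fun j => s 0 (σ.symm j), fun j => hs _ _, fun x j => ?_⟩
  obtain ⟨j, rfl⟩ := σ.surjective j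
  simp only [Equiv.symm_apply_apply]
  refine ind (fun x => φ x (σ j) = s 0 j * x j + φ 0 (σ j)) (by simp) (fun x i => ?_) x
  rw [h1, h3]
  by_cases k : j = i
  · subst k
    simp only [σ, Equiv.ofBijective_apply, Pi.add_apply, Pi.single_eq_same]
    constructor <;> intro h <;> linarith
  · simp [σ, k, h4.ne k]

end Pool.Agent.Lib.helper3.Zd
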