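import Mathlib

set_option autoImplicit false

namespace Pool.Agent.Lib.helper3.Girth
open SimpleGraph

variable {V : Type*}

/-- A walk with distinct edges in `T` plus the edge `uv` that uses `uv` splits into two walks of `T`. -/
theorem split_walk {T : SimpleGraph V} {u v : V} {a b : V} (w : (T ⊔ edge u v).Walk a b)
    (hw : w.edges.Nodup) :
    (∀ e ∈ w.edges, e ∈ T.edgeSet) ∨
    (∃ (p : T.Walk a u) (q : T.Walk v b), p.length + q.length + 1 = w.length) ∨
    (∃ (p : T.Walk a v) (q : T.Walk u b), p.length + q.length + 1 = w.length) := by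
  induction w with
  | nil => left; simp
  | @cons a x b h w ih =>
    rw [Walk.edges_cons, List.nodup_cons] at hw
    by_cases hT : T.Adj a x
    · rcases ih hw.2 with h1 | ⟨p, q, h1⟩ | ⟨p, q, h1⟩
      · left
        intro e he
        rw [Walk.edges_cons, List.mem_cons] at he
        rcases he with rfl | he
        · exact hT
        · exact h1 e he
      · exact Or.inr (Or.inl ⟨Walk.cons hT p, q, by simp only [Walk.length_cons]; omega⟩)
      · exact Or.inr (Or.inr ⟨Walk.cons hT p, q, by simp only [Walk.length_cons]; omega⟩)
    · have h2 : (edge u v).Adj a x := ((sup_adj _ _ _ _).mp h).resolve_left hT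
      rw [edge_adj] at h2
      have h3 : ∀ e ∈ w.edges, e ∈ T.edgeSet := by
        intro e he
        have h4 := w.edges_subset_edgeSet he
        rw [edgeSet_sup] at h4
        refine h4.resolve_right fun h5 => hw.1 ?_
        have h6 : e = s(u, v) := by
          by_cases huv : u = v
          · subst huv
            simp at h5
          · rw [edge_edgeSet_of_ne huv] at h5
            exact h5
        have h7 : s(a, x) = s(u, v) := by
          rcases h2.1 with ⟨rfl, rfl⟩ | ⟨rfl, rfl⟩
          · rfl
          · exact Sym2.eq_swap
        rw [h7, ← h6]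
        exact he
      rcases h2.1 with ⟨rfl, rfl⟩ | ⟨rfl, rfl⟩
      · exact Or.inr (Or.inl ⟨Walk.nil, w.transfer T h3, by simp⟩)
      · exact Or.inr (Or.inr ⟨Walk.nil, w.transfer T h3, by simp⟩)

/-- Balls in graphs of bounded degree are small. -/
theorem ball_card [Finite V] (T : SimpleGraph V) (D : ℕ) (hD : ∀ v, (T.neighborSet v).ncard ≤ D)
    (u : V) (k : ℕ) : {w | ∃ p : T.Walk w u, p.length ≤ k}.ncard ≤ (D + 1) ^ k := by
  classical
  have := Fintype.ofFinite V
  induction k with
  | zero =>
    have : {w | ∃ p : T.Walk w u, p.length ≤ 0} ⊆ {u} := by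
      rintro w ⟨p, hp⟩
      exact Walk.eq_of_length_eq_zero (Nat.le_zero.mp hp)
    simpa using Set.ncard_le_ncard this
  | succ k ih =>
    have hsub : {w | ∃ p : T.Walk w u, p.length ≤ k + 1}.toFinset ⊆
        ({w | ∃ p : T.Walk w u, p.length ≤ k}.toFinset).biUnion
          (fun x => insert x (T.neighborFinset x)) := by
      intro w hw
      simp only [Set.mem_toFinset, Set.mem_ofPred_eq, Finset.mem_biUnion, Finset.mem_insert,
        mem_neighborFinset] at hw ⊢
      obtain ⟨p, hp⟩ := hw
      cases p with
      | nil => exact ⟨_, ⟨Walk.nil, by simp⟩, Or.inl rfl⟩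
      | cons h q => exact ⟨_, ⟨q, by simpa using hp⟩, Or.inr h.symm⟩
    rw [Set.ncard_eq_toFinset_card'] at ih ⊢
    refine (Finset.card_le_card hsub).trans (Finset.card_biUnion_le.trans ?_)
    refine (Finset.sum_le_card_nsmul _ _ (D + 1) ?_).trans ?_
    · intro x _
      refine (Finset.card_insert_le _ _).trans ?_
      have := hD x
      rw [Set.ncard_eq_toFinset_card'] at this
      simpa [neighborFinset] using this
    · rw [pow_succ, smul_eq_mul]
      exact Nat.mul_le_mul_right _ ih

/-- For all `g`, `D` and all large `N` there is a graph on `N` vertices with no cycle of length at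
most `g`, maximum degree at most `D`, and at most `(D+1)^(g+1)` vertices of degree below `D`. -/
theorem exists_girth_deg (g D N : ℕ) :
    ∃ T : SimpleGraph (Fin N), (∀ v (c : T.Walk v v), c.IsCycle → g < c.length) ∧
      (∀ v, (T.neighborSet v).ncard ≤ D) ∧
      {v | (T.neighborSet v).ncard < D}.ncard ≤ (D + 1) ^ (g + 1) := by
  classical
  let P : SimpleGraph (Fin N) → Prop := fun T =>
    (∀ v (c : T.Walk v v), c.IsCycle → g < c.length) ∧ (∀ v, (T.neighborSet v).ncard ≤ D)
  have h0 : P ⊥ := ⟨fun v c hc => absurd hc (isAcyclic_bot c), fun v => by simp [neighborSet]⟩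
  obtain ⟨T, -, hT⟩ := Finite.exists_le_maximal h0
  refine ⟨T, hT.prop.1, hT.prop.2, ?_⟩
  rcases Set.eq_empty_or_nonempty {v | (T.neighborSet v).ncard < D} with h | ⟨u, hu⟩
  · rw [h]; simp
  refine le_trans (Set.ncard_le_ncard ?_) (ball_card T D hT.prop.2 u (g + 1))
  intro v hv
  by_contra hcon
  simp only [Set.mem_ofPred_eq, not_exists, not_le] at hcon hu hv
  have huv : u ≠ v := by
    rintro rfl
    simpa using hcon Walk.nil
  have hnadj : ¬ T.Adj v u := fun h => by simpa using hcon h.toWalk
  have hP : P (T ⊔ edge u v) := by
    constructor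
    · intro a c hc
      rcases split_walk c hc.isTrail.edges_nodup with h1 | ⟨p, q, h1⟩ | ⟨p, q, h1⟩
      · have := hT.prop.1 a (c.transfer T h1) (hc.transfer h1)
        simpa using this
      · have := hcon (q.append p)
        rw [Walk.length_append] at this
        omega
      · have := hcon (q.append p).reverse
        rw [Walk.length_reverse, Walk.length_append] at this
        omega
    · intro x
      by_cases hx : x = u
      · subst hx
        have : (T ⊔ edge x v).neighborSet x ⊆ insert v (T.neighborSet x) := by
          intro y hy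
          rcases hy with hy | hy
          · exact Or.inr hy
          · rw [edge_adj] at hy
            rcases hy.1 with ⟨-, rfl⟩ | ⟨h, -⟩
            · exact Or.inl rfl
            · exact absurd h huv
        have h1 := Set.ncard_le_ncard this
        have h2 := Set.ncard_insert_le v (T.neighborSet x)
        omega
      by_cases hx' : x = v
      · subst hx'
        have : (T ⊔ edge u x).neighborSet x ⊆ insert u (T.neighborSet x) := by
          intro y hy
          rcases hy with hy | hy
          · exact Or.inr hy
          · rw [edge_adj] at hy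
            rcases hy.1 with ⟨h, -⟩ | ⟨-, rfl⟩
            · exact absurd h hx
            · exact Or.inl rfl
        have h1 := Set.ncard_le_ncard this
        have h2 := Set.ncard_insert_le u (T.neighborSet x)
        omega
      · have : (T ⊔ edge u v).neighborSet x ⊆ T.neighborSet x := by
          intro y hy
          rcases hy with hy | hy
          · exact hy
          · rw [edge_adj] at hy
            rcases hy.1 with ⟨h, -⟩ | ⟨h, -⟩
            · exact absurd h hx
            · exact absurd h hx'
        exact (Set.ncard_le_ncard this).trans (hT.prop.2 x)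
  have hle := hT.le_of_ge hP le_sup_left
  have : (T ⊔ edge u v).Adj v u := Or.inr (by rw [edge_adj]; exact ⟨Or.inr ⟨rfl, rfl⟩, huv.symm⟩)
  exact hnadj (hle this)

/-- Graphs of large girth and large average degree on every large number of vertices. -/
theorem exists_girth_dense (g D N : ℕ) (hN : 2 * (D + 1) ^ (g + 1) ≤ N) :
    ∃ T : SimpleGraph (Fin N), (∀ v (c : T.Walk v v), c.IsCycle → g < c.length) ∧
      (∀ v, (T.neighborSet v).ncard ≤ D) ∧ D * N ≤ 4 * T.edgeSet.ncard := by
  classical
  obtain ⟨T, h1, h2, h3⟩ := exists_girth_deg g D N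
  refine ⟨T, h1, h2, ?_⟩
  have hdeg : ∀ v, (T.neighborSet v).ncard = T.degree v := by
    intro v
    rw [← card_neighborSet_eq_degree, Set.ncard_eq_toFinset_card', Set.toFinset_card]
  have hsum := T.sum_degrees_eq_twice_card_edges
  have he : T.edgeSet.ncard = T.edgeFinset.card := by
    rw [Set.ncard_eq_toFinset_card']
    rfl
  have h4 : (Finset.univ.filter (fun v => T.degree v < D)).card ≤ (D + 1) ^ (g + 1) := by
    rw [Set.ncard_eq_toFinset_card'] at h3
    simpa [hdeg] using h3
  have h5 := Finset.card_filter_add_card_filter_not (s := Finset.univ) (fun v => T.degree v < D)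
  rw [Finset.card_univ, Fintype.card_fin] at h5
  have h6 : (Finset.univ.filter (fun v => ¬ T.degree v < D)).card * D ≤ ∑ v, T.degree v := by
    refine le_trans ?_ (Finset.sum_le_sum_of_subset (Finset.filter_subset (fun v => ¬ T.degree v < D) _))
    rw [← smul_eq_mul]
    apply Finset.card_nsmul_le_sum
    intro x hx
    exact not_lt.mp (Finset.mem_filter.mp hx).2
  have h7 : N ≤ 2 * (Finset.univ.filter (fun v => ¬ T.degree v < D)).card := by omega
  rw [he]
  nlinarith

/-- A cycle has at most as many edges as the graph has vertices. -/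
theorem cycle_length_le [Fintype V] {G : SimpleGraph V} {v : V} {c : G.Walk v v} (hc : c.IsCycle) :
    c.length ≤ Fintype.card V := by
  have h1 := hc.support_nodup.length_le_card
  rw [List.length_tail, Walk.length_support] at h1
  simpa using h1

/-- A finite nonempty forest has a vertex of degree at most one. -/
theorem exists_deg_le_one [Finite V] [Nonempty V] {H : SimpleGraph V} (hH : H.IsAcyclic) :
    ∃ v, (H.neighborSet v).ncard ≤ 1 := by
  classical
  have := Fintype.ofFinite V
  rcases subsingleton_or_nontrivial V with hs | hs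
  · obtain ⟨v⟩ := ‹Nonempty V›
    exact ⟨v, (Set.ncard_le_one_iff).mpr fun _ _ => Subsingleton.elim _ _⟩
  obtain ⟨F, hHF, -, hF⟩ := (connected_top (V := V)).exists_isTree_le_of_le_of_isAcyclic le_top hH
  obtain ⟨v, hv⟩ := hF.exists_vert_degree_one_of_nontrivial
  refine ⟨v, le_trans (Set.ncard_le_ncard (t := F.neighborSet v) (fun w hw => hHF hw)) ?_⟩
  rw [← card_neighborSet_eq_degree] at hv
  rw [Set.ncard_eq_toFinset_card', Set.toFinset_card, hv]

end Pool.Agent.Lib.helper3.Girth
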