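import Pool.Agent.Lib.helper3.AR1

/-! A one-parameter family of affine groups and a criterion for a walk to stay in a random cone. -/

namespace Pool.Agent.Lib.helper3.AR

open MeasureTheory Set Filter Topology Real

structure A where
  F : ℝ → ℝ
  p : ℤ

lemma A.ext' {a b : A} (h : ∀ x, a.F x = b.F x) (h' : a.p = b.p) : a = b := by
  cases a
  cases b
  congr
  exact funext h

noncomputable def al (x : ℝ) : ℝ := 2 + cos x

lemma al_one (x : ℝ) : 1 ≤ al x := by unfold al; linarith [neg_one_le_cos x]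
lemma al_three (x : ℝ) : al x ≤ 3 := by unfold al; linarith [cos_le_one x]
lemma al_pos (x : ℝ) : 0 < al x := one_pos.trans_le (al_one x)

noncomputable instance : Mul A := ⟨fun a b => ⟨fun x => a.F x + al x ^ a.p * b.F x, a.p + b.p⟩⟩
instance : One A := ⟨⟨fun _ => 0, 0⟩⟩
noncomputable instance : Inv A := ⟨fun a => ⟨fun x => -(al x ^ (-a.p) * a.F x), -a.p⟩⟩

lemma mul_F (a b : A) (x) : (a * b).F x = a.F x + al x ^ a.p * b.F x := rfl
lemma mul_p (a b : A) : (a * b).p = a.p + b.p := rfl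
lemma one_F (x) : (1 : A).F x = 0 := rfl
lemma one_p : (1 : A).p = 0 := rfl
lemma inv_F (a : A) (x) : a⁻¹.F x = -(al x ^ (-a.p) * a.F x) := rfl
lemma inv_p (a : A) : a⁻¹.p = -a.p := rfl

noncomputable instance : Group A := Group.ofLeftAxioms
  (fun a b c => A.ext' (fun x => by
    simp only [mul_F, mul_p, zpow_add₀ (al_pos x).ne']; ring) (add_assoc _ _ _))
  (fun a => A.ext' (fun x => by simp [mul_F, one_F, one_p]) (zero_add _))
  (fun a => A.ext' (fun x => by simp [mul_F, one_F, inv_F, inv_p]) (neg_add_cancel _))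

def tt : A := ⟨fun _ => 0, 1⟩
def fn (F : ℝ → ℝ) : A := ⟨F, 0⟩

lemma fn_mul (F G : ℝ → ℝ) : fn F * fn G = fn (F + G) :=
  A.ext' (fun x => by simp [mul_F, fn]) rfl

lemma fn_inv (F : ℝ → ℝ) : (fn F)⁻¹ = fn (-F) := A.ext' (fun x => by simp [inv_F, fn]) rfl

lemma comm_of_p {a b : A} (ha : a.p = 0) (hb : b.p = 0) : a * b = b * a :=
  A.ext' (fun x => by simp [mul_F, ha, hb, add_comm]) (add_comm _ _)

def Lam : ℕ → ℕ
  | 0 => 1
  | k + 1 => 2 * tb (k + 1) * 9 ^ tb (k + 1) * Lam k + Lam k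

lemma Lam_mono : Monotone Lam := monotone_nat_of_le_succ fun k => by simp [Lam]

noncomputable def tg (k : ℕ) : A := fn fun x => Lam k * cos (4 ^ k * x)

lemma tg_mem (k : ℕ) : tg k ∈ Subgroup.closure {tt, fn 1} := by
  set S := Subgroup.closure {tt, fn 1}
  have h1 : fn 1 ∈ S := Subgroup.subset_closure (by simp)
  have ht : tt ∈ S := Subgroup.subset_closure (by simp)
  have hc : ∀ F, fn F ∈ S → fn (fun x => cos x * F x) ∈ S := fun F hF => by
    convert S.mul_mem (S.mul_mem (S.mul_mem ht hF) (S.inv_mem ht)) (S.inv_mem (S.mul_mem hF hF))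
    refine A.ext' (fun x => ?_) rfl
    simp [mul_F, mul_p, inv_F, inv_p, fn, tt, al]
    ring
  have hn : ∀ n : ℕ, fn (fun x => cos (n * x)) ∈ S := fun n => by
    induction n using Nat.twoStepInduction with
    | zero => simpa [Pi.one_def] using h1
    | one => simpa using hc 1 h1
    | more n a b =>
      convert S.mul_mem (S.mul_mem (hc _ b) (hc _ b)) (S.inv_mem a)
      rw [fn_inv, fn_mul, fn_mul]
      congr 1
      funext x
      have e1 : ((n + 2 : ℕ) : ℝ) * x = (n + 1 : ℕ) * x + x := by push_cast; ring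
      have e2 : (n : ℝ) * x = (n + 1 : ℕ) * x - x := by push_cast; ring
      simp only [Pi.add_apply, Pi.neg_apply]
      rw [e1, e2, cos_add, cos_sub]
      ring
  have hm : ∀ F, fn F ∈ S → ∀ m : ℕ, fn (fun x => m * F x) ∈ S := fun F hF m => by
    induction m with
    | zero =>
      simp only [Nat.cast_zero, zero_mul]
      exact S.one_mem
    | succ m ih =>
      convert S.mul_mem ih hF
      rw [fn_mul]
      congr 1
      funext x
      simp [add_mul]
  simpa [tg] using hm _ (hn (4 ^ k)) (Lam k)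

lemma theta (e : ℕ → Bool) : ∃ x, ∀ k, 1 / 2 ≤ (if e k then 1 else -1) * cos (4 ^ k * x) := by
  let d : ℕ → ℝ := fun k => if e k then 0 else 1
  have d0 : ∀ k, 0 ≤ d k := fun k => by simp only [d]; split_ifs <;> norm_num
  have d1 : ∀ k, d k ≤ 1 := fun k => by simp only [d]; split_ifs <;> norm_num
  have hg : Summable fun l : ℕ => (1 / 4 : ℝ) ^ l := summable_geometric_of_lt_one (by norm_num)
    (by norm_num)
  have hs : ∀ k, Summable fun l => d (l + k) * (1 / 4 : ℝ) ^ l := fun k =>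
    hg.of_nonneg_of_le (fun l => mul_nonneg (d0 _) (by positivity))
      fun l => mul_le_of_le_one_left (by positivity) (d1 _)
  let y : ℕ → ℝ := fun k => ∑' l, d (l + k) * (1 / 4 : ℝ) ^ l
  have y0 : ∀ k, 0 ≤ y k := fun k => tsum_nonneg fun l => mul_nonneg (d0 _) (by positivity)
  have y1 : ∀ k, y k ≤ 4 / 3 := fun k => by
    refine ((hs k).tsum_le_tsum (fun l => mul_le_of_le_one_left (by positivity) (d1 _)) hg).trans ?_
    rw [tsum_geometric_of_lt_one (by norm_num) (by norm_num)]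
    norm_num
  have y2 : ∀ k, y k = d k + y (k + 1) / 4 := fun k => by
    simp only [y]
    rw [(hs k).tsum_eq_zero_add, ← tsum_div_const]
    simp only [zero_add, pow_zero, mul_one, add_right_inj]
    refine tsum_congr fun l => ?_
    rw [show l + 1 + k = l + (k + 1) by ring]
    ring
  have y3 : ∀ k, ∃ m : ℕ, 4 ^ k * y 0 = 2 * m + y k := fun k => by
    induction k with
    | zero => exact ⟨0, by simp⟩
    | succ k ih =>
      obtain ⟨m, hm⟩ := ih
      refine ⟨4 * m + if e k then 0 else 2, ?_⟩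
      rw [pow_succ, mul_right_comm, hm, y2 k]
      simp only [d]
      split_ifs <;> push_cast <;> ring
  refine ⟨π * y 0, fun k => ?_⟩
  obtain ⟨m, hm⟩ := y3 k
  have h1 : 1 / 2 ≤ cos (π * (y (k + 1) / 4)) := by
    rw [← cos_pi_div_three]
    exact cos_le_cos_of_nonneg_of_le_pi (mul_nonneg pi_pos.le (by linarith [y0 (k + 1)]))
      (by linarith [pi_pos]) (by nlinarith [pi_pos, y1 (k + 1)])
  rw [mul_left_comm, hm, y2 k, show π * (2 * m + (d k + y (k + 1) / 4)) =
    π * (y (k + 1) / 4) + d k * π + m * (2 * π) by ring, cos_add_nat_mul_two_pi]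
  simp only [d]
  split_ifs
  · simpa using h1
  · simpa [cos_add_pi] using h1

lemma zp {x : ℝ} {p : ℤ} {a : ℕ} (h : |p| ≤ a) : al x ^ p ≤ 3 ^ a ∧ (3 ^ a)⁻¹ ≤ al x ^ p := by
  have k : ∀ p : ℤ, p ≤ a → al x ^ p ≤ 3 ^ a := fun p hp =>
    (zpow_le_zpow_right₀ (al_one x) hp).trans (by
      rw [zpow_natCast]; exact pow_le_pow_left₀ (al_pos x).le (al_three x) a)
  refine ⟨k p (abs_le.mp h).2, ?_⟩
  rw [inv_le_comm₀ (by positivity) (zpow_pos (al_pos x) p), ← zpow_neg]
  exact k _ (by linarith [(abs_le.mp h).1])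

lemma det (γ : ℕ → A) (h0 : ∀ k < 2, γ k = tt ∨ γ k = fn 1) (h2 : ∀ k, 2 ≤ k → γ k = tg k)
    (ω : ℕ → ℕ × Bool) (hω : Good fun t => (ω t).1) :
    ∃ x, ∀ m, 0 < (X (fun t => st γ (ω t)) (1 + m)).F x := by
  classical
  obtain ⟨g1, g2, g3⟩ := hω
  simp only at g1 g2 g3
  obtain ⟨x, hx⟩ := theta fun k => if h : ∃ t, (ω t).1 = k then (ω (Nat.find h)).2 else true
  have b1 : ∀ y, |(st γ y).p| ≤ 1 ∧ |(st γ y).F x| ≤ Lam y.1 := by
    rintro ⟨k, b⟩
    have : (1 : ℝ) ≤ Lam k := by exact_mod_cast Lam_mono (Nat.zero_le k)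
    rcases lt_or_ge k 2 with h | h
    · rcases h0 k h with h | h <;> cases b <;> simp [st, h, inv_F, inv_p, tt, fn, this]
    · have : |cos (4 ^ k * x)| ≤ 1 := abs_cos_le_one _
      cases b <;> simp [st, h2 k h, inv_F, inv_p, tg, fn, abs_mul] <;>
        exact mul_le_of_le_one_right (by positivity) this
  refine ⟨x, fun m => ?_⟩
  obtain ⟨s, hs, hM⟩ := (Finset.range (1 + m)).exists_max_image (fun r => (ω r).1) ⟨0, by simp⟩
  simp only [Finset.mem_range] at hs hM
  have hu : ∀ r < 1 + m, r ≠ s → (ω r).1 < (ω s).1 := fun r hr hrs =>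
    (hM r hr).lt_of_ne fun he => by
      rcases hrs.lt_or_gt with h | h
      · obtain ⟨t, ht, h4⟩ := g2 r s h he
        have := hM t (by omega)
        omega
      · obtain ⟨t, ht, h4⟩ := g2 s r h he.symm
        have := hM t (by omega)
        omega
  obtain ⟨k, hk⟩ : ∃ k, (ω s).1 = k + 1 := ⟨(ω s).1 - 1, by have := hM 0 (by omega); omega⟩
  have hk2 : 2 ≤ k + 1 := by have := hM 0 (by omega); omega
  have hm : m < tb (k + 1) := by
    obtain ⟨t, ht, h⟩ := g3 (k + 1)
    by_contra hc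
    have := hM t (by omega)
    omega
  have b2 : (Lam (k + 1) : ℝ) / 2 ≤ (st γ (ω s)).F x := by
    have h := hx (k + 1)
    have e : ∃ t, (ω t).1 = k + 1 := ⟨s, hk⟩
    have e' : Nat.find e = s := (Nat.find_eq_iff e).mpr ⟨hk, fun r hr => by
      have := hu r (by omega) hr.ne
      omega⟩
    rw [dif_pos e, e'] at h
    have : (0 : ℝ) ≤ Lam (k + 1) := by positivity
    unfold st
    rw [hk, h2 _ hk2]
    split_ifs at h ⊢ <;> simp only [tg, fn, inv_F, neg_zero, zpow_zero] <;> nlinarith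
  set a := tb (k + 1) with ha
  have key : ∀ j ≤ 1 + m, |(X (fun t => st γ (ω t)) j).p| ≤ j ∧
      (if s < j then (3 ^ a : ℝ)⁻¹ * (Lam (k + 1) / 2) else 0) - j * (3 ^ a * Lam k) ≤
        (X (fun t => st γ (ω t)) j).F x := by
    intro j hj
    induction j with
    | zero => simp [X_zero, one_F, one_p]
    | succ j ih =>
      obtain ⟨i1, i2⟩ := ih (by omega)
      obtain ⟨z1, z2⟩ := zp (x := x) (i1.trans (Int.ofNat_le.mpr (show j ≤ a by omega)))
      rw [X_succ, mul_F, mul_p]
      refine ⟨(abs_add_le _ _).trans (by push_cast; linarith [(b1 (ω j)).1]), ?_⟩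
      have z0 := zpow_pos (al_pos x) (X (fun t => st γ (ω t)) j).p
      have z3 : (0 : ℝ) ≤ 3 ^ a * Lam k := by positivity
      push_cast
      by_cases e : j = s
      · subst e
        rw [if_neg (lt_irrefl _)] at i2
        rw [if_pos (Nat.lt_succ_self _)]
        have := mul_le_mul z2 b2 (by positivity) z0.le
        linarith
      · rw [if_congr (show s < j + 1 ↔ s < j by omega) rfl rfl]
        have h1 : (Lam (ω j).1 : ℝ) ≤ Lam k := by
          exact_mod_cast Lam_mono (by have := hu j (by omega) e; omega)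
        have h3 := (abs_le.mp ((b1 (ω j)).2.trans h1)).1
        have h4 := mul_le_mul_of_nonneg_left h3 z0.le
        have h5 := mul_le_mul_of_nonneg_right z1 (Nat.cast_nonneg (α := ℝ) (Lam k))
        linarith
  refine lt_of_lt_of_le ?_ (key _ le_rfl).2
  rw [if_pos hs, sub_pos, lt_inv_mul_iff₀ (by positivity), Lam, ← ha]
  have h1 : ((1 + m : ℕ) : ℝ) ≤ a := by exact_mod_cast (by omega : 1 + m ≤ a)
  have h3 : (1 : ℝ) ≤ Lam k := by exact_mod_cast Lam_mono (Nat.zero_le k)
  have h4 : (9 : ℝ) ^ a = 3 ^ a * 3 ^ a := by rw [← mul_pow]; norm_num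
  have h5 := mul_le_mul_of_nonneg_right h1 (show (0 : ℝ) ≤ 3 ^ a * 3 ^ a * Lam k by positivity)
  push_cast at h5 ⊢
  rw [h4]
  nlinarith

theorem notAR {G : Type} [Group G] [MeasurableSpace G] (φ : G →* A) (γ : ℕ → G)
    (h0 : ∀ k < 2, φ (γ k) = tt ∨ φ (γ k) = fn 1) (h2 : ∀ k, 2 ≤ k → φ (γ k) = tg k)
    (hγ : Subgroup.closure (range γ) = ⊤) :
    ∃ μ : PMF G, (∀ g, μ g⁻¹ = μ g) ∧ Subgroup.closure μ.support = ⊤ ∧
      ¬ ∀ᵐ z ∂P μ, Subsemigroup.closure (range fun k => X z (1 + k)) = ⊤ := by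
  refine ⟨(sg nu).map (st γ), st_symm nu γ, st_gen nu nu_ne γ hγ, fun h => ?_⟩
  obtain ⟨B, hB, h1, h3⟩ := good
  rw [P_map] at h
  have h4 := ae_of_ae_map (Measurable.aemeasurable (by
    exact measurable_pi_lambda _ fun t =>
      (Measurable.of_discrete (f := st γ)).comp (measurable_pi_apply t))) h
  rw [← sg_fst nu, P_map, Measure.map_apply (by fun_prop) hB] at h1
  refine h1.ne ((prob_compl_eq_zero_iff (hB.preimage (by fun_prop))).mp
    (measure_mono_null (fun ω hω => ?_) (ae_iff.mp h4)))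
  intro hc
  obtain ⟨x, hx⟩ := det (fun k => φ (γ k)) h0 h2 ω (h3 _ hω)
  have e : ∀ m, φ (X (fun t => st γ (ω t)) m) = X (fun t => st (fun k => φ (γ k)) (ω t)) m := by
    intro m
    induction m with
    | zero => simp [X_zero]
    | succ m ih =>
      rw [X_succ, X_succ, map_mul, ih]
      congr 1
      unfold st
      split_ifs <;> simp
  have : ∀ g ∈ Subsemigroup.closure (range fun k => X (fun t => st γ (ω t)) (1 + k)),
      0 < (φ g).F x := fun g hg => by
    induction hg using Subsemigroup.closure_induction with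
    | mem g hg =>
      obtain ⟨k, rfl⟩ := hg
      simp only [e]
      exact hx k
    | mul a b _ _ ha hb =>
      rw [map_mul, mul_F]
      have := zpow_pos (al_pos x) (φ a).p
      positivity
  have := this 1 (by rw [show Subsemigroup.closure _ = ⊤ from hc]; trivial)
  simp [one_F] at this

end Pool.Agent.Lib.helper3.AR
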