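import Mathlib

/-! Maximum principle lemmas for bounded harmonic functions on groups. -/

namespace Pool.Agent.Lib.helper3.AR

lemma conv_le (m : ℤ → ℝ) (C : ℝ) (hC : ∀ j, |m j| ≤ C) (h : ∀ j, 2 * m j ≤ m (j + 1) + m (j - 1))
    (j : ℤ) : m (j + 1) ≤ m j := by
  by_contra hj
  have k : ∀ n : ℕ, m (j + 1) - m j ≤ m (j + n + 1) - m (j + n) ∧
      m j + n * (m (j + 1) - m j) ≤ m (j + n) := fun n => by
    induction n with
    | zero => simp
    | succ n ih =>
      have := h (j + n + 1)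
      rw [add_sub_cancel_right] at this
      push_cast
      rw [← add_assoc]
      constructor <;> linarith [ih.1, ih.2]
  obtain ⟨n, hn⟩ := exists_nat_gt (2 * C / (m (j + 1) - m j))
  rw [div_lt_iff₀ (by linarith)] at hn
  linarith [(k n).2, (abs_le.mp (hC j)).1, (abs_le.mp (hC (j + n))).2]

lemma conv_const (m : ℤ → ℝ) (C : ℝ) (hC : ∀ j, |m j| ≤ C)
    (h : ∀ j, 2 * m j ≤ m (j + 1) + m (j - 1)) (j : ℤ) : m j = m 0 := by
  have k : ∀ j, m (j + 1) = m j := fun j => (conv_le m C hC h j).antisymm (by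
    have := conv_le (fun i => m (-i)) C (fun i => hC _) (fun i => by
      have := h (-i)
      rw [show -(i + 1) = -i - 1 by ring, show -(i - 1) = -i + 1 by ring]
      linarith) (-(j + 1))
    simpa using this)
  induction j using Int.induction_on with
  | zero => rfl
  | succ i ih => rw [k, ih]
  | pred i ih => rw [← k, sub_add_cancel, ih]

lemma cd {G : Type} [Group G] (f : G → ℝ) (C : ℝ) (hC : ∀ x, |f x| ≤ C) (h : G) (M c : ℝ)
    (hc : 0 ≤ c)
    (H1 : ∀ x, M - (f (h * (x * h)) - f (x * h)) ≤ c * (M - (f (h * x) - f x)))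
    (H2 : ∀ δ > 0, ∃ x, h * x = x * h ∧ M - (f (h * x) - f x) ≤ δ) : M ≤ 0 := by
  by_contra hM
  obtain ⟨N, hN⟩ := exists_nat_gt ((2 * C + 1) / M)
  rw [div_lt_iff₀ (by linarith)] at hN
  have hs : 0 ≤ ∑ k ∈ Finset.range N, c ^ k := by positivity
  obtain ⟨x, hx, h1⟩ := H2 (1 / (∑ k ∈ Finset.range N, c ^ k + 1)) (by positivity)
  set δ := 1 / (∑ k ∈ Finset.range N, c ^ k + 1)
  have k : ∀ n : ℕ, M - (f (h * (x * h ^ n)) - f (x * h ^ n)) ≤ c ^ n * δ ∧
      n * M - (∑ k ∈ Finset.range n, c ^ k) * δ ≤ f (x * h ^ n) - f x := fun n => by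
    induction n with
    | zero => simpa using h1
    | succ n ih =>
      have h2 := H1 (x * h ^ n)
      have h3 := mul_le_mul_of_nonneg_left ih.1 hc
      have h4 := ih.1
      rw [← mul_assoc h, hx, mul_assoc, ← pow_succ'] at h4
      rw [mul_assoc x, ← pow_succ] at h2
      rw [Finset.sum_range_succ, pow_succ c]
      push_cast
      constructor <;> linarith [ih.2]
  have : (∑ k ∈ Finset.range N, c ^ k) * δ ≤ 1 := by
    rw [mul_one_div, div_le_one (by positivity)]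
    linarith
  linarith [(k N).2, (abs_le.mp (hC x)).1, (abs_le.mp (hC (x * h ^ N))).2]

lemma harnack {G : Type} [Group G] {T : Set G} (hT : Subgroup.closure T = ⊤) (u : G → ℝ)
    (h : ∀ s ∈ T, ∃ c, 0 ≤ c ∧ ∀ x, u (x * s) ≤ c * u x ∧ u (x * s⁻¹) ≤ c * u x) (g : G) :
    ∃ c, 0 ≤ c ∧ ∀ x, u (x * g) ≤ c * u x := by
  have hg : g ∈ Subgroup.closure T := hT ▸ Subgroup.mem_top g
  induction hg using Subgroup.closure_induction'' with
  | mem s hs =>
    obtain ⟨c, h0, h1⟩ := h s hs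
    exact ⟨c, h0, fun x => (h1 x).1⟩
  | inv_mem s hs =>
    obtain ⟨c, h0, h1⟩ := h s hs
    exact ⟨c, h0, fun x => (h1 x).2⟩
  | one => exact ⟨1, zero_le_one, by simp⟩
  | mul a b _ _ ha hb =>
    obtain ⟨c, h0, h1⟩ := ha
    obtain ⟨d, h2, h3⟩ := hb
    refine ⟨d * c, by positivity, fun x => ?_⟩
    rw [← mul_assoc, mul_assoc d]
    exact (h3 _).trans (mul_le_mul_of_nonneg_left (h1 x) h2)

end Pool.Agent.Lib.helper3.AR
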