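import Pool.Agent.Lib.helper3.AR2

/-! The free abelian group of countable rank is not algebraically recurrent. -/

namespace Pool.Agent.Lib.helper3.AR

open MeasureTheory Set

abbrev Z := Multiplicative (ℕ →₀ ℤ)

instance : Countable Z := inferInstanceAs (Countable (ℕ →₀ ℤ))

noncomputable def bs (k : ℕ) : Z := Multiplicative.ofAdd (Finsupp.single k 1)

lemma bs_gen {T : Set Z} (h : ∀ k, bs k ∈ T) : Subgroup.closure T = ⊤ := by
  have : ∀ g : ℕ →₀ ℤ, Multiplicative.ofAdd g ∈ Subgroup.closure T := fun g => by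
    induction g using Finsupp.induction_linear with
    | zero => exact one_mem _
    | add f g hf hg => exact mul_mem hf hg
    | single a b =>
      have := zpow_mem (Subgroup.subset_closure (h a)) b
      rwa [bs, ← ofAdd_zsmul, Finsupp.smul_single, smul_eq_mul, mul_one] at this
  exact eq_top_iff.mpr fun g _ => this g.toAdd

noncomputable def fnHom : Multiplicative (ℝ → ℝ) →* A :=
  MonoidHom.mk' (fun F => fn F.toAdd) fun F G => (fn_mul _ _).symm

theorem notAR_Z {G : Type} [Group G] [MeasurableSpace G] (e : Z ≃* G) :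
    ∃ μ : PMF G, (∀ g, μ g⁻¹ = μ g) ∧ Subgroup.closure μ.support = ⊤ ∧
      ¬ ∀ᵐ z ∂P μ, Subsemigroup.closure (range fun k => X z (1 + k)) = ⊤ := by
  let ψ : (ℕ →₀ ℤ) →+ (ℝ → ℝ) :=
    Finsupp.liftAddHom fun k => zmultiplesHom _ (if k < 2 then 1 else (tg k).F)
  have h : ∀ k, ((fnHom.comp ψ.toMultiplicative).comp e.symm.toMonoidHom) (e (bs k)) =
      fn (if k < 2 then 1 else (tg k).F) := fun k => by simp [ψ, bs, fnHom]
  refine notAR _ (fun k => e (bs k)) (fun k hk => Or.inr (by rw [h, if_pos hk]))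
    (fun k hk => by rw [h, if_neg (by omega)]; rfl) ?_
  rw [show (range fun k => e (bs k)) = e.toMonoidHom '' range bs from range_comp _ _,
    ← MonoidHom.map_closure, bs_gen mem_range_self, Subgroup.map_top_of_surjective _ e.surjective]

end Pool.Agent.Lib.helper3.AR
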