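import Mathlib

namespace Pool.Agent.Lib.helper3.Gnp

open SimpleGraph MeasureTheory ProbabilityTheory unitInterval Finset Real

variable {V : Type} [Fintype V] (p : I)

noncomputable abbrev coin (e : Sym2 V) : Measure Prop :=
  unitInterval.toNNReal p • Measure.dirac (¬ e.IsDiag) +
    unitInterval.toNNReal (σ p) • Measure.dirac False

noncomputable abbrev Q (V : Type) (p : I) : Measure (Sym2 V → Prop) := Measure.infinitePi (coin p)

lemma real_le (S : Set (SimpleGraph V)) :
    (binomialRandom V p).real S ≤ (Q V p).real {ω | fromEdgeSet {e | ω e} ∈ S} := by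
  refine ENNReal.toReal_mono (measure_ne_top _ _) ?_
  rw [binomialRandom_apply]
  refine measure_mono ?_
  rintro _ ⟨G, hG, rfl⟩
  simpa using hG

open Classical in
noncomputable def cnt (A : Finset (Sym2 V)) (ω : Sym2 V → Prop) : ℝ := ∑ e ∈ A, if ω e then 1 else 0

omit [Fintype V] in
lemma mgf_le (A : Finset (Sym2 V)) (hA : ∀ e ∈ A, ¬ e.IsDiag) (t : ℝ) :
    mgf (cnt A) (Q V p) t ≤ exp (A.card * p * (exp t - 1)) := by
  classical
  let g : Prop → ℝ := fun b => if b then 1 else 0
  have hg : Measurable g := measurable_from_top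
  have hi : iIndepFun (fun (e : Sym2 V) (ω : Sym2 V → Prop) => g (ω e)) (Q V p) :=
    iIndepFun_infinitePi (X := fun _ => g) fun _ => hg
  have e1 : cnt A = ∑ e ∈ A, fun ω : Sym2 V → Prop => g (ω e) := by
    ext ω; simp only [cnt, g, Finset.sum_apply]
  rw [e1, hi.mgf_sum fun e => hg.comp (measurable_pi_apply e), mul_assoc, exp_nat_mul, ← prod_const]
  refine prod_le_prod (fun _ _ => mgf_nonneg) fun e he => ?_
  have : mgf (fun ω : Sym2 V → Prop => g (ω e)) (Q V p) t = ∫ b, exp (t * g b) ∂coin p e := by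
    rw [← Measure.infinitePi_map_eval (coin p) e, integral_map (measurable_pi_apply e).aemeasurable
      (measurable_from_top (f := fun b => exp (t * g b))).aestronglyMeasurable]
    rfl
  rw [this, integral_add_measure (Integrable.of_finite) (Integrable.of_finite)]
  simp only [integral_smul_nnreal_measure, integral_dirac, g]
  have := add_one_le_exp (p * (exp t - 1))
  simp [hA e he, NNReal.smul_def]
  linarith

lemma tail (A : Finset (Sym2 V)) (hA : ∀ e ∈ A, ¬ e.IsDiag) {ε : ℝ} (h0 : 0 ≤ ε) (h1 : ε ≤ 1) :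
    (Q V p).real {ω | ε * (A.card * p) ≤ |cnt A ω - A.card * p|} ≤
      2 * exp (-(ε ^ 2 / 4 * (A.card * p))) := by
  have hm : 0 ≤ (A.card : ℝ) * p := mul_nonneg (by positivity) p.2.1
  have a1 := (measure_ge_le_exp_mul_mgf (μ := Q V p) (X := cnt A) ((1 + ε) * (A.card * p)) h0
    Integrable.of_finite).trans (mul_le_mul_of_nonneg_left (mgf_le p A hA ε) (exp_pos _).le)
  have a2 := (measure_le_le_exp_mul_mgf (μ := Q V p) (X := cnt A) ((1 - ε) * (A.card * p))
    (neg_nonpos.mpr h0) Integrable.of_finite).trans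
    (mul_le_mul_of_nonneg_left (mgf_le p A hA (-ε)) (exp_pos _).le)
  generalize (A.card : ℝ) * p = m at *
  have b1 : exp ε ≤ 1 + ε + 3 / 4 * ε ^ 2 := by
    have := exp_bound' h0 h1 (n := 3) (by norm_num)
    norm_num [sum_range_succ, Nat.factorial] at this
    nlinarith [mul_le_mul_of_nonneg_left h1 (sq_nonneg ε)]
  have b2 : exp (-ε) ≤ 1 - ε + 3 / 4 * ε ^ 2 := by
    have := (abs_le.mp (exp_bound (x := -ε) (by rwa [abs_neg, abs_of_nonneg h0]) (n := 3)
      (by norm_num))).2
    norm_num [sum_range_succ, Nat.factorial, abs_of_nonneg h0] at this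
    nlinarith [mul_le_mul_of_nonneg_left h1 (sq_nonneg ε)]
  rw [← exp_add] at a1 a2
  refine le_trans (measureReal_mono (s₂ := {ω | (1 + ε) * m ≤ cnt A ω} ∪ {ω | cnt A ω ≤ (1 - ε) * m})
    fun ω h => ?_) ((measureReal_union_le _ _).trans ?_)
  · simp only [Set.mem_ofPred_eq, Set.mem_union, le_abs] at h ⊢
    exact h.imp (fun h => by linarith) fun h => by linarith
  · rw [two_mul]
    exact add_le_add (a1.trans (exp_le_exp.mpr (by nlinarith [mul_le_mul_of_nonneg_left b1 hm])))
      (a2.trans (exp_le_exp.mpr (by nlinarith [mul_le_mul_of_nonneg_left b2 hm])))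

open Classical in
lemma deg_tail {ε : ℝ} (h0 : 0 ≤ ε) (h1 : ε ≤ 1) :
    (binomialRandom V p).real {G | ∃ v, ε * ((Fintype.card V - 1 : ℕ) * p) ≤
      |G.degree v - (Fintype.card V - 1 : ℕ) * (p : ℝ)|} ≤
      Fintype.card V * (2 * exp (-(ε ^ 2 / 4 * ((Fintype.card V - 1 : ℕ) * p)))) := by
  have hc : ∀ v : V, ((⊤ : SimpleGraph V).incidenceFinset v).card = Fintype.card V - 1 := fun v => by
    rw [card_incidenceFinset_eq_degree, complete_graph_degree]
  have hd : ∀ (v : V) (ω : Sym2 V → Prop) [Fintype ((fromEdgeSet {e | ω e}).neighborSet v)],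
      ((fromEdgeSet {e | ω e}).degree v : ℝ) = cnt ((⊤ : SimpleGraph V).incidenceFinset v) ω := by
    intro v ω _
    rw [cnt, sum_boole, ← card_incidenceFinset_eq_degree]
    congr 2
    ext e
    simp [incidenceSet]
    tauto
  refine (real_le p _).trans ?_
  simp only [Set.mem_ofPred_eq]
  rw [Set.ofPred_exists]
  refine (measureReal_iUnion_fintype_le _).trans
    ((sum_le_card_nsmul _ _ _ fun v _ => ?_).trans_eq (nsmul_eq_mul _ _))
  have := tail p _ (fun e he => by
    simpa using ((mem_incidenceFinset (⊤ : SimpleGraph V) v _).mp he).1) h0 h1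
  simp only [hd]
  rwa [hc] at this

end Pool.Agent.Lib.helper3.Gnp
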