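import Mathlib

/-! The noisy min-max game on the d-ary tree: distribution function recursion and laws. -/

open Filter Topology MeasureTheory ProbabilityTheory Set

namespace Pool.Agent.Lib.helper3.MM

noncomputable def Q (d : ℕ) (a b : ℝ) : ℝ := 1 - (1 - a) ^ d / 2 - (1 - b) ^ d / 2

noncomputable def Ψ (d : ℕ) (F : ℤ → ℝ) (k : ℤ) : ℝ :=
  Q d ((F (k - 1) + F k) / 2) ((F k + F (k + 1)) / 2) ^ d

def I (F : ℤ → ℝ) : Prop := ∀ k, 0 ≤ F k ∧ F k ≤ 1

variable {d : ℕ} {a b a' b' : ℝ} {F G : ℤ → ℝ}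

lemma Q_mem (ha : a ∈ Icc (0 : ℝ) 1) (hb : b ∈ Icc (0 : ℝ) 1) : Q d a b ∈ Icc (0 : ℝ) 1 := by
  have := pow_le_one₀ (n := d) (sub_nonneg.2 ha.2) (by linarith [ha.1])
  have := pow_le_one₀ (n := d) (sub_nonneg.2 hb.2) (by linarith [hb.1])
  have := pow_nonneg (sub_nonneg.2 ha.2) d
  have := pow_nonneg (sub_nonneg.2 hb.2) d
  unfold Q; constructor <;> linarith

lemma Q_mono (ha : a ≤ a') (hb : b ≤ b') (ha' : a' ≤ 1) (hb' : b' ≤ 1) : Q d a b ≤ Q d a' b' := by
  have := pow_le_pow_left₀ (sub_nonneg.2 ha') (sub_le_sub_left ha 1) d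
  have := pow_le_pow_left₀ (sub_nonneg.2 hb') (sub_le_sub_left hb 1) d
  unfold Q; linarith

lemma I.av (h : I F) (i j : ℤ) : (F i + F j) / 2 ∈ Icc (0 : ℝ) 1 :=
  ⟨by linarith [h i, h j], by linarith [h i, h j]⟩

lemma I.Ψ (h : I F) : I (Ψ d F) := fun _ =>
  ⟨pow_nonneg (Q_mem (h.av _ _) (h.av _ _)).1 _,
    pow_le_one₀ (Q_mem (h.av _ _) (h.av _ _)).1 (Q_mem (h.av _ _) (h.av _ _)).2⟩

lemma I.iter (h : I F) (n : ℕ) : I ((MM.Ψ d)^[n] F) := by
  induction n with
  | zero => exact h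
  | succ n ih => rw [Function.iterate_succ_apply']; exact ih.Ψ

lemma mono (hF : I F) (hG : I G) {k j : ℤ} (h1 : F (k - 1) + F k ≤ G (j - 1) + G j)
    (h2 : F k + F (k + 1) ≤ G j + G (j + 1)) : Ψ d F k ≤ Ψ d G j :=
  pow_le_pow_left₀ (Q_mem (hF.av _ _) (hF.av _ _)).1
    (Q_mono (by linarith) (by linarith) (hG.av _ _).2 (hG.av _ _).2) d

lemma mono' (hF : I F) (hG : I G) (h : F ≤ G) : Ψ d F ≤ Ψ d G := fun _ =>
  mono hF hG (add_le_add (h _) (h _)) (add_le_add (h _) (h _))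

lemma mono_iter (hF : I F) (hG : I G) (h : F ≤ G) (n : ℕ) : (Ψ d)^[n] F ≤ (Ψ d)^[n] G := by
  induction n with
  | zero => exact h
  | succ n ih => simp only [Function.iterate_succ_apply']; exact mono' (hF.iter n) (hG.iter n) ih

lemma pw {x y m t : ℝ} (hx : 0 ≤ x) (hy : 0 ≤ y) (h1 : x ≤ m) (h2 : y ≤ m) (h : |x - y| ≤ t) :
    |x ^ d - y ^ d| ≤ t * d * m ^ (d - 1) := by
  refine (abs_pow_sub_pow_le ..).trans ?_
  rw [abs_of_nonneg hx, abs_of_nonneg hy]
  have := (abs_nonneg _).trans h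
  gcongr
  exact max_le h1 h2

lemma lip (ha : a ∈ Icc (0 : ℝ) 1) (hb : b ∈ Icc (0 : ℝ) 1) (ha' : a' ∈ Icc (0 : ℝ) 1)
    (hb' : b' ∈ Icc (0 : ℝ) 1) {p α β s t : ℝ} (h1 : Q d a b ≤ p) (h2 : Q d a' b' ≤ p)
    (h3 : 1 - a ≤ α) (h4 : 1 - a' ≤ α) (h5 : 1 - b ≤ β) (h6 : 1 - b' ≤ β) (hs : |a - a'| ≤ s)
    (ht : |b - b'| ≤ t) : |Q d a b ^ d - Q d a' b' ^ d| ≤
      (s * d * α ^ (d - 1) + t * d * β ^ (d - 1)) / 2 * d * p ^ (d - 1) := by
  refine pw (Q_mem ha hb).1 (Q_mem ha' hb').1 h1 h2 ?_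
  have u := abs_le.1 (pw (d := d) (sub_nonneg.2 ha.2) (sub_nonneg.2 ha'.2) h3 h4
    (t := s) (by rwa [abs_sub_comm, sub_sub_sub_cancel_left]))
  have v := abs_le.1 (pw (d := d) (sub_nonneg.2 hb.2) (sub_nonneg.2 hb'.2) h5 h6
    (t := t) (by rwa [abs_sub_comm, sub_sub_sub_cancel_left]))
  unfold Q
  exact abs_le.2 ⟨by linarith, by linarith⟩

lemma low {x y : ℝ} (hy : 0 ≤ y) (y1 : y ≤ 1) (h : y ≤ x) (n : ℕ) :
    n * (x - y) * y ^ n ≤ x ^ n - y ^ n := by
  have : ∀ n : ℕ, (n + 1) * (x - y) * y ^ n ≤ x ^ (n + 1) - y ^ (n + 1) := fun n => by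
    induction n with
    | zero => simp
    | succ n ih =>
      have := pow_le_pow_left₀ hy h (n + 1)
      have := mul_le_mul_of_nonneg_left ih hy
      push_cast
      rw [pow_succ x (n + 1), pow_succ y (n + 1)]
      rw [pow_succ y n] at *
      nlinarith
  rcases n with _ | n
  · simp
  · refine le_trans ?_ (this n)
    push_cast
    have := sub_nonneg.2 h
    exact mul_le_mul_of_nonneg_left (pow_le_pow_of_le_one hy y1 n.le_succ) (by positivity)

/-- a one-step Lipschitz bound inside a box -/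
lemma box {L U w : ℤ → ℝ} (hF : I F) (hG : I G) (hU : I U) (l1 : L ≤ F) (l2 : L ≤ G) (u1 : F ≤ U)
    (u2 : G ≤ U) {c : ℝ} (h : ∀ k, |F k - G k| ≤ c * w k) (k : ℤ) : |Ψ d F k - Ψ d G k| ≤
      c * (((w (k - 1) + w k) / 2 * d * (1 - (L (k - 1) + L k) / 2) ^ (d - 1) +
        (w k + w (k + 1)) / 2 * d * (1 - (L k + L (k + 1)) / 2) ^ (d - 1)) / 2 * d *
        Q d ((U (k - 1) + U k) / 2) ((U k + U (k + 1)) / 2) ^ (d - 1)) := by
  have e : ∀ i j, |(F i + F j) / 2 - (G i + G j) / 2| ≤ c * ((w i + w j) / 2) := fun i j =>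
    abs_le.2 ⟨by linarith [abs_le.1 (h i), abs_le.1 (h j)], by linarith [abs_le.1 (h i), abs_le.1 (h j)]⟩
  refine (lip (hF.av _ _) (hF.av _ _) (hG.av _ _) (hG.av _ _)
    (p := Q d ((U (k - 1) + U k) / 2) ((U k + U (k + 1)) / 2)) (Q_mono (by linarith [u1 (k - 1), u1 k]) (by linarith [u1 (k + 1), u1 k]) (hU.av _ _).2 (hU.av _ _).2)
    (Q_mono (by linarith [u2 (k - 1), u2 k]) (by linarith [u2 (k + 1), u2 k]) (hU.av _ _).2 (hU.av _ _).2)
    (α := 1 - (L (k - 1) + L k) / 2) (β := 1 - (L k + L (k + 1)) / 2)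
    (by linarith [l1 (k - 1), l1 k]) (by linarith [l2 (k - 1), l2 k]) (by linarith [l1 (k + 1), l1 k])
    (by linarith [l2 (k + 1), l2 k]) (e _ _) (e _ _)).trans_eq (by ring)

lemma supp (c : ℕ) (h : ∀ k : ℤ, c ≤ k.natAbs → F k = G k) (n : ℕ) :
    ∀ k : ℤ, c + n ≤ k.natAbs → (Ψ d)^[n] F k = (Ψ d)^[n] G k := by
  induction n with
  | zero => simpa using h
  | succ n ih =>
    intro k l
    simp only [Function.iterate_succ_apply', Ψ]
    rw [ih k (by omega), ih (k - 1) (by omega), ih (k + 1) (by omega)]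

/-- value of the game with cookies `X`, boundary values `B` and `t` moves left -/
noncomputable def V (X B : List (Fin d) → ℤ) : ℕ → List (Fin d) → ℤ
  | 0, v => B v
  | t + 1, v =>
    if Even v.length then ⨆ c, X (c :: v) + V X B t (c :: v) else ⨅ c, X (c :: v) + V X B t (c :: v)

lemma V_mono {X B B' : List (Fin d) → ℤ} (h : B ≤ B') (t : ℕ) : V X B t ≤ V X B' t := by
  induction t with
  | zero => exact h
  | succ t ih =>
    intro v
    simp only [V]
    split_ifs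
    exacts [ciSup_mono (Finite.bddAbove_range _) fun c => by linarith [ih (c :: v)],
      ciInf_mono (Finite.bddBelow_range _) fun c => by linarith [ih (c :: v)]]

lemma V_add {X B : List (Fin d) → ℤ} (s t : ℕ) : V X B (t + s) = V X (V X B s) t := by
  induction t with
  | zero => ext v; simp [V]
  | succ t ih => ext v; rw [Nat.add_right_comm, V, V, ih]

variable {Ω ι : Type*} [mΩ : MeasurableSpace Ω] {P : Measure Ω} [IsProbabilityMeasure P]
  {Z : ι → Ω → ℤ} {e : List (Fin d) → ι} {S : List (Fin d) → Set ι} {B : List (Fin d) → Ω → ℤ}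

/-- events determined by the variables in `s` -/
@[reducible] def M (Z : ι → Ω → ℤ) (s : Set ι) : MeasurableSpace Ω :=
  ⨆ i ∈ s, MeasurableSpace.comap (Z i) inferInstance

omit mΩ in
lemma mZ {s : Set ι} {i : ι} (h : i ∈ s) : Measurable[M Z s] (Z i) :=
  Measurable.of_comap_le (le_iSup₂_of_le i h le_rfl)

omit mΩ in
lemma M_mono {s t : Set ι} (h : s ⊆ t) : M Z s ≤ M Z t := biSup_mono h

lemma M_le (hm : ∀ i, Measurable (Z i)) (s : Set ι) : M Z s ≤ mΩ :=
  iSup₂_le fun i _ => (hm i).comap_le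

structure Ok (e : List (Fin d) → ι) (S : List (Fin d) → Set ι) : Prop where
  mem : ∀ c v, e (c :: v) ∈ S v
  sub : ∀ c v, S (c :: v) ⊆ S v
  not : ∀ v, e v ∉ S v
  dis : ∀ v c c', c ≠ c' → Disjoint (insert (e (c :: v)) (S (c :: v))) (insert (e (c' :: v)) (S (c' :: v)))

omit mΩ in
lemma mV (o : Ok e S) (hB : ∀ v, Measurable[M Z (S v)] (B v)) (t : ℕ) :
    ∀ v, Measurable[M Z (S v)] fun ω => V (fun u => Z (e u) ω) (B · ω) t v := by
  induction t with
  | zero => exact hB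
  | succ t ih =>
    intro v
    let _ := M Z (S v)
    have y : ∀ c, Measurable fun ω => Z (e (c :: v)) ω + V (fun u => Z (e u) ω) (B · ω) t (c :: v) :=
      fun c => (mZ (o.mem c v)).add ((ih _).mono (M_mono (o.sub c v)) le_rfl)
    simp only [V]
    split_ifs
    exacts [.iSup y, .iInf y]

lemma ind (hm : ∀ i, Measurable (Z i)) (hi : iIndepFun Z P) {s t : Set ι}
    (h : Disjoint s t) {A B : Set Ω} (hA : MeasurableSet[M Z s] A) (hB : MeasurableSet[M Z t] B) :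
    P.real (A ∩ B) = P.real A * P.real B := by
  simp only [Measure.real, ← ENNReal.toReal_mul]
  rw [(Indep_iff _ _ _).1 (indep_iSup_of_disjoint (fun i => (hm i).comap_le) hi.iIndep h) A B hA hB]

lemma indn (hm : ∀ i, Measurable (Z i)) (hi : iIndepFun Z P) {s : Fin d → Set ι}
    (h : ∀ c c', c ≠ c' → Disjoint (s c) (s c')) {A : Fin d → Set Ω}
    (hA : ∀ c, MeasurableSet[M Z (s c)] (A c)) {r : ℝ} (hr : ∀ c, P.real (A c) = r) :
    P.real (⋂ c, A c) = r ^ d := by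
  have : ∀ T : Finset (Fin d), P.real (⋂ c ∈ T, A c) = r ^ T.card := fun T => by
    induction T using Finset.induction_on with
    | empty => simp
    | insert c T hc ih =>
      rw [Finset.set_biInter_insert, ind hm hi (s := s c) (t := ⋃ c ∈ T, s c)
        (disjoint_iUnion₂_right.2 fun c' h' => h _ _ (by rintro rfl; exact hc h')) (hA c)
        (@Finset.measurableSet_biInter _ _ (M Z _) _ _ fun c' h' =>
          M_mono (subset_biUnion_of_mem (u := s) h') _ (hA c')), ih, hr, Finset.card_insert_of_notMem hc,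
        pow_succ']
  simpa using this Finset.univ

lemma edge (hm : ∀ i, Measurable (Z i)) (hi : iIndepFun Z P) {i : ι} {s : Set ι} (hs : i ∉ s)
    (h1 : P.real {ω | Z i ω = 1} = 1 / 2) (h2 : P.real {ω | Z i ω = -1} = 1 / 2)
    {Y : Ω → ℤ} (hY : Measurable[M Z s] Y) (x : ℤ) : P.real {ω | Z i ω + Y ω ≤ x} =
      (P.real {ω | Y ω ≤ x - 1} + P.real {ω | Y ω ≤ x + 1}) / 2 := by
  have d : Disjoint {i} s := disjoint_singleton_left.2 hs
  have a : ∀ s : ℤ, MeasurableSet[M Z {i}] {ω | Z i ω = s} := fun s =>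
    mZ (mem_singleton i) (measurableSet_singleton s)
  have b : ∀ y : ℤ, MeasurableSet[M Z s] {ω | Y ω ≤ y} := fun y => hY (measurableSet_Iic (a := y))
  have dj : Disjoint {ω | Z i ω = 1} {ω | Z i ω = -1} := disjoint_left.2 fun ω p q => by
    simp only [mem_ofPred_eq] at p q; omega
  have ae : ∀ᵐ ω ∂P, Z i ω = 1 ∨ Z i ω = -1 := by
    have : P.real ({ω | Z i ω = 1} ∪ {ω | Z i ω = -1}) = 1 := by
      rw [measureReal_union dj (M_le hm _ _ (a _)), h1, h2]; norm_num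
    exact (mem_ae_iff_prob_eq_one ((M_le hm _ _ (a _)).union (M_le hm _ _ (a _)))).2
      ((ENNReal.toReal_eq_one_iff _).1 this)
  rw [measureReal_congr (t := {ω | Z i ω = 1} ∩ {ω | Y ω ≤ x - 1} ∪
    {ω | Z i ω = -1} ∩ {ω | Y ω ≤ x + 1}) (ae.mono fun ω h => propext (by
      show Z i ω + _ ≤ x ↔ Z i ω = 1 ∧ _ ≤ x - 1 ∨ Z i ω = -1 ∧ _ ≤ x + 1
      omega)), measureReal_union (dj.mono inter_subset_left inter_subset_left)
    ((M_le hm _ _ (a _)).inter (M_le hm _ _ (b _))), ind hm hi d (a _) (b _),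
    ind hm hi d (a _) (b _), h1, h2]
  ring

lemma law (hd : 0 < d) (o : Ok e S) (hm : ∀ i, Measurable (Z i)) (hi : iIndepFun Z P)
    (h1 : ∀ v, P.real {ω | Z (e v) ω = 1} = 1 / 2) (h2 : ∀ v, P.real {ω | Z (e v) ω = -1} = 1 / 2)
    (hB : ∀ v, Measurable[M Z (S v)] (B v))
    (h0 : ∀ (v : List (Fin d)) (x : ℤ), Even v.length → P.real {ω | B v ω ≤ x} = F (x / 2)) (n : ℕ) :
    ∀ (v : List (Fin d)) (x : ℤ), Even v.length →
      P.real {ω | V (fun u => Z (e u) ω) (B · ω) (2 * n) v ≤ x} = (Ψ d)^[n] F (x / 2) := by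
  have : Nonempty (Fin d) := ⟨⟨0, hd⟩⟩
  have y : ∀ t v x, MeasurableSet[M Z (insert (e v) (S v))]
      {ω | Z (e v) ω + V (fun u => Z (e u) ω) (B · ω) t v ≤ x} := fun t v x =>
    (mZ (mem_insert _ _)).add ((mV o hB t v).mono (M_mono (subset_insert _ _)) le_rfl)
      (measurableSet_Iic (a := x))
  induction n with
  | zero => exact h0
  | succ n ih =>
    set a := (Ψ d)^[n] F
    have mn : ∀ (v : List (Fin d)) (x : ℤ), ¬ Even v.length →
        P.real {ω | V (fun u => Z (e u) ω) (B · ω) (2 * n + 1) v ≤ x} =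
          1 - (1 - (a ((x - 1) / 2) + a ((x - 1) / 2 + 1)) / 2) ^ d := fun v x hv => by
      have f := indn hm hi (o.dis v) (fun c => (y (2 * n) (c :: v) x).compl)
        (r := 1 - (a ((x - 1) / 2) + a ((x - 1) / 2 + 1)) / 2) fun c => by
          rw [probReal_compl_eq_one_sub (M_le hm _ _ (y _ _ x)), edge hm hi (o.not _) (h1 _) (h2 _)
            (mV o hB _ _), ih (c :: v) _ (Nat.even_add_one.2 hv), ih (c :: v) _ (Nat.even_add_one.2 hv),
            show (x + 1) / 2 = (x - 1) / 2 + 1 by omega]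
      have g := probReal_compl_eq_one_sub (μ := P)
        (M_le hm _ _ (mV o hB (2 * n + 1) v (measurableSet_Iic (a := x))))
      have k : ((fun ω => V (fun u => Z (e u) ω) (B · ω) (2 * n + 1) v) ⁻¹' Iic x)ᶜ =
          ⋂ c, {ω | Z (e (c :: v)) ω + V (fun u => Z (e u) ω) (B · ω) (2 * n) (c :: v) ≤ x}ᶜ := by
        ext ω
        simp only [V, if_neg hv, mem_compl_iff, mem_preimage, mem_Iic, not_le, mem_iInter,
          mem_ofPred_eq, Int.lt_iff_add_one_le, le_ciInf_iff (Finite.bddBelow_range _)]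
      rw [k, f] at g
      exact eq_sub_of_add_eq (by rw [g]; exact add_sub_cancel _ _)
    intro v x hv
    have f := indn hm hi (o.dis v) (fun c => y (2 * n + 1) (c :: v) x)
      (r := Q d ((a (x / 2 - 1) + a (x / 2)) / 2) ((a (x / 2) + a (x / 2 + 1)) / 2)) fun c => by
        rw [edge hm hi (o.not _) (h1 _) (h2 _) (mV o hB _ _), mn _ _ (by simpa [Nat.even_add_one]),
          mn _ _ (by simpa [Nat.even_add_one]), show (x - 1 - 1) / 2 = x / 2 - 1 by omega,
          show (x + 1 - 1) / 2 = x / 2 by omega, sub_add_cancel, Q]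
        ring
    rw [Function.iterate_succ_apply', Ψ, ← f]
    congr 1
    ext ω
    rw [mem_ofPred_eq, show 2 * (n + 1) = 2 * n + 1 + 1 from rfl, V, if_pos hv,
      ciSup_le_iff (Finite.bddAbove_range _)]
    simp

lemma exists_cdf (mo : Monotone F) (h0 : Tendsto F atBot (𝓝 0)) (h1 : Tendsto F atTop (𝓝 1)) :
    ∃ μ : ProbabilityMeasure ℤ, ∀ x, (μ : Measure ℤ).real (Iic x) = F x := by
  let f : StieltjesFunction ℝ := ⟨fun x => F ⌊x⌋, mo.comp Int.floor_mono, fun x =>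
    (tendsto_pure_nhds F ⌊x⌋).comp (tendsto_floor_right_pure_floor x)⟩
  have pf : IsProbabilityMeasure f.measure := f.isProbabilityMeasure
    (h0.comp tendsto_floor_atBot) (h1.comp tendsto_floor_atTop)
  refine ⟨⟨f.measure.map Int.ceil,
    Measure.isProbabilityMeasure_map Int.measurable_ceil.aemeasurable⟩, fun x => ?_⟩
  rw [ProbabilityMeasure.coe_mk, map_measureReal_apply Int.measurable_ceil .of_discrete,
    show Int.ceil ⁻¹' Iic x = Iic (x : ℝ) by ext; simp [Int.ceil_le], Measure.real,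
    f.measure_Iic (h0.comp tendsto_floor_atBot), ENNReal.toReal_ofReal]
  · simp [f]
  · simpa [f] using le_of_tendsto h0 (eventually_atBot.2 ⟨x, fun y l => mo l⟩)

lemma weak {Y : ℕ → Ω → ℤ} (hY : ∀ n, Measurable (Y n)) {μ : ProbabilityMeasure ℤ}
    (h : ∀ x, Tendsto (fun n => P.real {ω | Y n ω ≤ x}) atTop (𝓝 ((μ : Measure ℤ).real (Iic x)))) :
    TendstoInDistribution Y atTop id (fun _ => P) μ := by
  refine ⟨fun n => (hY n).aemeasurable, aemeasurable_id, ?_⟩
  refine (isPiSystem_Ioc (id : ℤ → ℤ) id).tendsto_probabilityMeasure_of_tendsto_of_mem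
    (fun _ _ => .of_discrete) (fun u _ x hx => ⟨Ioc (x - 1) x, ⟨x - 1, x, by simp, rfl⟩,
      by simp, fun y hy => by obtain rfl : y = x := by simp at hy; omega
                              exact hx⟩) ?_
  rintro - ⟨i, j, l : i < j, rfl⟩
  rw [← NNReal.tendsto_coe]
  simp only [← ProbabilityMeasure.measureReal_eq_coe_coeFn, id, ProbabilityMeasure.coe_mk, Measure.map_id]
  rw [← Iic_sdiff_Iic, measureReal_sdiff (Iic_subset_Iic.2 l.le) .of_discrete]
  refine ((h j).sub (h i)).congr fun n => ?_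
  rw [map_measureReal_apply (hY n) .of_discrete, preimage_sdiff,
    measureReal_sdiff (preimage_mono (Iic_subset_Iic.2 l.le)) (hY n .of_discrete)]
  rfl

end Pool.Agent.Lib.helper3.MM
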