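import Mathlib

namespace Pool.Agent.Lib.helper3.PPP

open MeasureTheory ProbabilityTheory Filter Topology Set
open scoped ENNReal

def cell (c : ℤ × ℤ) : Set (ℝ × ℝ) := Ioc (c.1 : ℝ) (c.1 + 1) ×ˢ Ioc (c.2 : ℝ) (c.2 + 1)

lemma mcell (c : ℤ × ℤ) : MeasurableSet (cell c) := measurableSet_Ioc.prod measurableSet_Ioc

noncomputable def m (c : ℤ × ℤ) : Measure (ℝ × ℝ) := volume.restrict (cell c)

instance (c : ℤ × ℤ) : IsProbabilityMeasure (m c) :=
  ⟨by simp [m, cell, Measure.volume_eq_prod, Measure.prod_prod]⟩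

abbrev C := ℕ × (ℕ → ℝ × ℝ)

noncomputable def Q (c : ℤ × ℤ) : Measure C := (poissonMeasure 1).prod (Measure.infinitePi fun _ => m c)

instance (c : ℤ × ℤ) : IsProbabilityMeasure (Q c) := by unfold Q; infer_instance

abbrev Ω := ℤ × ℤ → C

noncomputable def P : Measure Ω := Measure.infinitePi Q

instance : IsProbabilityMeasure P := by unfold P; infer_instance

def Z (F : ℝ × ℝ → ℝ) (x : C) : ℝ := ∑ j ∈ Finset.range x.1, F (x.2 j)

noncomputable def S (F : ℝ × ℝ → ℝ) (ω : Ω) : ℝ := ∑' c, Z F (ω c)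

lemma mZ {F : ℝ × ℝ → ℝ} (h : Measurable F) : Measurable (Z F) :=
  measurable_from_prod_countable_right fun n => by
    show Measurable fun y : ℕ → ℝ × ℝ => ∑ j ∈ Finset.range n, F (y j)
    fun_prop

lemma mS {F : ℝ × ℝ → ℝ} (h : Measurable F) : Measurable (S F) :=
  Measurable.tsum fun c => (mZ h).comp (measurable_pi_apply c)

lemma prod_pi {ι : Type*} {X : ι → Type*} [∀ i, MeasurableSpace (X i)] (μ : ∀ i, Measure (X i))
    [∀ i, IsProbabilityMeasure (μ i)] (f : ∀ i, X i → ℂ) (h : ∀ i, Measurable (f i)) (s : Finset ι) :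
    ∫ ω, ∏ i ∈ s, f i (ω i) ∂Measure.infinitePi μ = ∏ i ∈ s, ∫ x, f i x ∂μ i := by
  have := ((iIndepFun_infinitePi (P := μ) h).precomp (g := fun i : s => i.1)
    Subtype.val_injective).integral_fun_prod_eq_prod_integral
    fun i => ((h i).comp (measurable_pi_apply i.1)).aestronglyMeasurable
  rw [← Finset.prod_coe_sort s]
  simp_rw [← Finset.prod_coe_sort s]
  refine this.trans (Finset.prod_congr rfl fun i _ => ?_)
  rw [← (measurePreserving_eval_infinitePi μ i.1).map_eq,
    integral_map (measurable_pi_apply _).aemeasurable (h i).aestronglyMeasurable]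

lemma cellf {F : ℝ × ℝ → ℝ} (h : Measurable F) (c : ℤ × ℤ) :
    ∫ x, Complex.exp (Z F x * Complex.I) ∂Q c =
      Complex.exp (∫ p in cell c, (Complex.exp (F p * Complex.I) - 1)) := by
  have := mZ h
  have i : Integrable (fun p => Complex.exp (F p * Complex.I)) (m c) :=
    .of_bound (Measurable.aestronglyMeasurable (by fun_prop)) 1
      (.of_forall fun p => (Complex.norm_exp_ofReal_mul_I _).le)
  rw [Q, integral_prod _ (.of_bound (Measurable.aestronglyMeasurable (by fun_prop)) 1
    (.of_forall fun p => (Complex.norm_exp_ofReal_mul_I _).le)), integral_poissonMeasure]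
  have e : ∀ n : ℕ, ∫ y, Complex.exp (Z F (n, y) * Complex.I) ∂(Measure.infinitePi fun _ : ℕ => m c) =
      (∫ p, Complex.exp (F p * Complex.I) ∂m c) ^ n := fun n => by
    simp only [Z, Complex.ofReal_sum, Finset.sum_mul, Complex.exp_sum]
    rw [prod_pi (fun _ : ℕ => m c) (fun _ p => Complex.exp (F p * Complex.I)) (fun _ => by fun_prop)]
    simp
  simp_rw [e]
  change _ = Complex.exp (∫ p, (Complex.exp (F p * Complex.I) - 1) ∂m c)
  rw [integral_sub i (integrable_const _)]
  generalize ∫ p, Complex.exp (F p * Complex.I) ∂m c = a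
  have := ((NormedSpace.expSeries_div_hasSum_exp a).mul_left (Complex.exp (-1))).tsum_eq
  rw [← Complex.exp_eq_exp_ℂ, ← Complex.exp_add] at this
  simp only [integral_const, probReal_univ, one_smul]
  rw [sub_eq_neg_add, ← this]
  refine tsum_congr fun n => ?_
  simp
  ring

lemma campbell {F : ℝ × ℝ → ℝ} (h : Measurable F) (hs : ∀ᵐ ω ∂P, Summable fun c => Z F (ω c))
    (hi : Integrable fun p => Complex.exp (F p * Complex.I) - 1) :
    ∫ ω, Complex.exp (S F ω * Complex.I) ∂P = Complex.exp (∫ p, (Complex.exp (F p * Complex.I) - 1)) := by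
  have mz := mZ h
  have t1 := tendsto_integral_filter_of_dominated_convergence (μ := P) (l := atTop)
    (F := fun (s : Finset (ℤ × ℤ)) ω => Complex.exp ((∑ c ∈ s, Z F (ω c) : ℝ) * Complex.I))
    (f := fun ω => Complex.exp (S F ω * Complex.I)) (fun _ => 1)
    (.of_forall fun s => Measurable.aestronglyMeasurable (by fun_prop))
    (.of_forall fun s => .of_forall fun ω => (Complex.norm_exp_ofReal_mul_I _).le) (integrable_const _)
    (hs.mono fun ω hω => ((by fun_prop : Continuous fun x : ℝ => Complex.exp (x * Complex.I)).tendsto _).comp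
      hω.hasSum)
  have u : ⋃ c, cell c = univ := eq_univ_of_forall fun p => by
    obtain ⟨a, ha⟩ := mem_iUnion.1 (iUnion_Ioc_intCast ℝ ▸ mem_univ p.1)
    obtain ⟨b, hb⟩ := mem_iUnion.1 (iUnion_Ioc_intCast ℝ ▸ mem_univ p.2)
    exact mem_iUnion.2 ⟨(a, b), ha, hb⟩
  have t2 := hasSum_integral_iUnion (μ := volume) mcell (fun c d hcd => by
    by_cases e : c.1 = d.1
    · exact Disjoint.set_prod_right (pairwise_disjoint_Ioc_intCast ℝ fun k => hcd (Prod.ext e k)) _ _
    · exact Disjoint.set_prod_left (pairwise_disjoint_Ioc_intCast ℝ e) _ _) hi.integrableOn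
  rw [u, Measure.restrict_univ] at t2
  refine tendsto_nhds_unique t1 (((Complex.continuous_exp.tendsto _).comp t2).congr fun s => ?_)
  simp only [Function.comp, Complex.ofReal_sum, Finset.sum_mul, Complex.exp_sum]
  rw [P, prod_pi Q (fun _ x => Complex.exp (Z F x * Complex.I)) (fun _ => by fun_prop)]
  simp_rw [cellf h]

lemma ae_cell : ∀ᵐ ω ∂P, ∀ c j, (ω c).2 j ∈ cell c := by
  refine ae_all_iff.2 fun c => ae_all_iff.2 fun j => ?_
  exact (((measurePreserving_eval_infinitePi (fun _ : ℕ => m c) j).comp measurePreserving_snd).comp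
    (measurePreserving_eval_infinitePi Q c)).quasiMeasurePreserving.ae (ae_restrict_mem (mcell c))

lemma ae_sum {w : ℤ × ℤ → ℝ} (w0 : ∀ c, 0 ≤ w c) (hw : Summable w) :
    ∀ᵐ ω ∂P, Summable fun c => ((ω c).1 : ℝ) * w c := by
  have i : Integrable (fun n : ℕ => (n : ℝ)) (poissonMeasure 1) := by
    rw [integrable_poissonMeasure_iff]
    refine .of_nonneg_of_le (fun n => by positivity) (fun n => ?_)
      ((Real.summable_pow_div_factorial 2).mul_left (Real.exp (-1)))
    simp only [NNReal.coe_one, one_pow, mul_one, Real.norm_natCast]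
    rw [div_mul_eq_mul_div, mul_div_assoc]
    gcongr
    exact_mod_cast Nat.lt_two_pow_self.le
  have mp : ∀ c, MeasurePreserving (fun ω : Ω => (ω c).1) P (poissonMeasure 1) := fun c =>
    measurePreserving_fst.comp (measurePreserving_eval_infinitePi Q c)
  have j : ∀ c, Integrable (fun ω : Ω => ((ω c).1 : ℝ) * w c) P := fun c =>
    ((mp c).integrable_comp_of_integrable i).mul_const _
  have k : ∑' c, ∫⁻ ω, ‖((ω c).1 : ℝ) * w c‖ₑ ∂P ≠ ∞ := by
    have e : ∀ c, ∫⁻ ω, ‖((ω c).1 : ℝ) * w c‖ₑ ∂P =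
        (∫⁻ n, ‖(n : ℝ)‖ₑ ∂poissonMeasure 1) * ENNReal.ofReal (w c) := fun c => by
      simp_rw [enorm_mul]
      rw [lintegral_mul_const' _ _ enorm_ne_top, Real.enorm_of_nonneg (w0 c),
        (mp c).lintegral_comp (f := fun n : ℕ => ‖(n : ℝ)‖ₑ) .of_discrete]
    simp_rw [e]
    rw [ENNReal.tsum_mul_left, ← ENNReal.ofReal_tsum_of_nonneg w0 hw]
    exact ENNReal.mul_ne_top i.2.ne ENNReal.ofReal_ne_top
  rw [← lintegral_tsum fun c => (j c).1.enorm] at k
  filter_upwards [ae_lt_top' (AEMeasurable.tsum fun c => (j c).1.enorm) k] with ω hω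
  exact .of_enorm hω.ne

end Pool.Agent.Lib.helper3.PPP
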