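import Mathlib

/-! Bernoulli bond percolation: cylinders, step paths, second moment. -/

namespace Pool.Agent.Lib.helper3.Perc

open MeasureTheory Finset

section lists

variable {S : Type} [Fintype S] [DecidableEq S]

def L (S : Type) [Fintype S] [DecidableEq S] : ℕ → Finset (List S)
  | 0 => {[]}
  | n + 1 => (univ ×ˢ L S n).image fun p => p.1 :: p.2

lemma mem_L (n : ℕ) (x : List S) : x ∈ L S n ↔ x.length = n := by
  induction n generalizing x with
  | zero => simp [L]
  | succ n ih => cases x <;> simp [L, ih]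

lemma sum_L {M : Type} [AddCommMonoid M] (n : ℕ) (f : List S → M) :
    ∑ l ∈ L S (n + 1), f l = ∑ s, ∑ l ∈ L S n, f (s :: l) := by
  rw [L, sum_image fun p _ q _ h => Prod.ext (List.cons.inj h).1 (List.cons.inj h).2, sum_product]

lemma card_L (n : ℕ) : (L S n).card = Fintype.card S ^ n := by
  induction n with
  | zero => rfl
  | succ n ih => rw [card_eq_sum_ones, sum_L]; simp [ih, pow_succ']

end lists

variable {V : Type} [DecidableEq V]

/-- edges of the path started at `x` with steps from the list -/
def E [Add V] {S : Type} (st : S → V) : V → List S → Finset (Sym2 V)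
  | _, [] => ∅
  | x, s :: l => insert s(x, x + st s) (E st (x + st s) l)

variable (G : SimpleGraph V) (p : NNReal) (hp : p ≤ 1)

noncomputable abbrev P : Measure (G.edgeSet → Bool) :=
  Measure.infinitePi fun _ : G.edgeSet => (PMF.bernoulli p hp).toMeasure

def op (ω : G.edgeSet → Bool) : Set (Sym2 V) := {e | ∃ h : e ∈ G.edgeSet, ω ⟨e, h⟩ = true}

def C (F : Finset (Sym2 V)) : Set (G.edgeSet → Bool) := {ω | ∀ e ∈ F, e ∈ op G ω}

omit [DecidableEq V] in
lemma C_meas (F : Finset (Sym2 V)) : MeasurableSet (C G F) := by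
  have : C G F = ⋂ e ∈ F, {ω | e ∈ op G ω} := by ext; simp [C]
  rw [this]
  refine F.measurableSet_biInter fun e _ => ?_
  by_cases h : e ∈ G.edgeSet
  · simp only [op, Set.mem_ofPred_eq, h, exists_true_left]
    exact (measurableSet_singleton true).preimage (measurable_pi_apply (⟨e, h⟩ : G.edgeSet))
  · simp [op, h]

lemma C_union (F F' : Finset (Sym2 V)) : C G (F ∪ F') = C G F ∩ C G F' := by
  ext
  simp [C, or_imp, forall_and]

omit [DecidableEq V] in
lemma P_C (F : Finset (Sym2 V)) (h : ∀ e ∈ F, e ∈ G.edgeSet) :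
    (P G p hp).real (C G F) = p ^ F.card := by
  classical
  have : C G F = Set.pi (F.subtype (· ∈ G.edgeSet) : Set G.edgeSet) fun _ => {true} := by
    ext ω
    simp only [C, op, Set.mem_ofPred_eq, Set.mem_pi, mem_coe, mem_subtype, Set.mem_singleton_iff,
      Subtype.forall]
    exact ⟨fun k e he hF => (k e hF).2, fun k e he => ⟨h e he, k e _ he⟩⟩
  rw [Measure.real, this, Measure.infinitePi_pi _ fun _ _ => .of_discrete, prod_const, card_subtype,
    filter_true_of_mem h, PMF.toMeasure_apply_singleton _ _ .of_discrete]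
  simp [PMF.bernoulli_apply]

omit [DecidableEq V] in
lemma P_C_le (F : Finset (Sym2 V)) : (P G p hp).real (C G F) ≤ p ^ F.card := by
  by_cases h : ∀ e ∈ F, e ∈ G.edgeSet
  · exact (P_C G p hp F h).le
  · rw [show C G F = ∅ from Set.eq_empty_of_forall_notMem fun ω k => h fun e he => (k e he).1]
    simp

/-- second moment bound -/
lemma second {ι : Type} (T : Finset ι) (F : ι → Finset (Sym2 V)) (a : ℝ)
    (h : ∀ i ∈ T, ∀ e ∈ F i, e ∈ G.edgeSet) :
    2 * a * ∑ i ∈ T, (p : ℝ) ^ (F i).card - a ^ 2 * ∑ i ∈ T, ∑ j ∈ T, (p : ℝ) ^ (F i ∪ F j).card ≤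
      (P G p hp).real (⋃ i ∈ T, C G (F i)) := by
  have hi : ∀ F, Integrable ((C G F).indicator (1 : (G.edgeSet → Bool) → ℝ)) (P G p hp) := fun F =>
    (integrable_const (1 : ℝ)).indicator (C_meas G F)
  have hm : MeasurableSet (⋃ i ∈ T, C G (F i)) := T.measurableSet_biUnion fun i _ => C_meas G _
  rw [sum_congr rfl fun i hi => (P_C G p hp _ (h i hi)).symm, sum_congr rfl fun i hi =>
    sum_congr rfl fun j hj => (P_C G p hp (F i ∪ F j) fun e he =>
      (mem_union.mp he).elim (h i hi e) (h j hj e)).symm]
  simp only [← integral_indicator_one (C_meas G _), ← integral_indicator_one hm]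
  rw [sum_congr rfl fun i _ => (integral_finsetSum T fun j _ => hi _).symm,
    ← integral_finsetSum T fun j _ => hi _,
    ← integral_finsetSum T fun i _ => integrable_finsetSum T fun j _ => hi _,
    ← integral_const_mul, ← integral_const_mul, ← integral_sub
      ((integrable_finsetSum T fun j _ => hi _).const_mul _)
      ((integrable_finsetSum T fun i _ => integrable_finsetSum T fun j _ => hi _).const_mul _)]
  refine integral_mono (((integrable_finsetSum T fun j _ => hi _).const_mul _).sub
    ((integrable_finsetSum T fun i _ => integrable_finsetSum T fun j _ => hi _).const_mul _))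
    ((integrable_const (1 : ℝ)).indicator hm) fun ω => ?_
  simp only [C_union, Set.inter_indicator_one, Pi.mul_apply, ← sum_mul_sum]
  by_cases k : ω ∈ ⋃ i ∈ T, C G (F i)
  · rw [Set.indicator_of_mem k, Pi.one_apply]
    nlinarith [sq_nonneg (1 - a * ∑ i ∈ T, (C G (F i)).indicator 1 ω)]
  · rw [Set.indicator_of_notMem k, sum_eq_zero fun i hi => Set.indicator_of_notMem
      (fun h => k (Set.mem_biUnion hi h)) _]
    simp

end Pool.Agent.Lib.helper3.Perc
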