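import Mathlib

set_option autoImplicit false

namespace Pool.Agent.Lib.helper3.Tree
open SimpleGraph

variable {V : Type*} {T : SimpleGraph V}

/-- In a tree rooted at `r`, a vertex has at most one neighbour that is not farther from the root. -/
theorem parent_unique (hT : T.IsTree) (r : V) {v x y : V} (hx : T.Adj v x) (hy : T.Adj v y)
    (hdx : T.dist r x ≤ T.dist r v) (hdy : T.dist r y ≤ T.dist r v) : x = y := by
  classical
  obtain ⟨p, hp, hpl⟩ := hT.connected.exists_path_of_dist r v
  have key : ∀ z, T.Adj v z → T.dist r z ≤ T.dist r v → z = p.penultimate := by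
    intro z hz hdz
    obtain ⟨q, hq, hql⟩ := hT.connected.exists_path_of_dist r z
    apply hT.isAcyclic.eq_penultimate_of_adj_end hp hz
    apply hT.isAcyclic.mem_support_of_ne_mem_support_of_adj_of_isPath hp hq hz
    intro hv
    have h1 := hT.isAcyclic.path_concat hp hq hz hv
    have h2 : q.length = p.length + 1 := by rw [h1, Walk.length_concat]
    omega
  rw [key x hx hdx, key y hy hdy]

/-- In a connected graph, a vertex at distance `k+1` from `r` has a neighbour at distance `k`. -/
theorem exists_parent {G : SimpleGraph V} (hG : G.Connected) (r v : V) (k : ℕ)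
    (h : G.dist r v = k + 1) : ∃ x, G.Adj v x ∧ G.dist r x = k := by
  obtain ⟨p, hp⟩ := hG.exists_walk_length_eq_dist v r
  rw [dist_comm, h] at hp
  cases p with
  | nil => simp at hp
  | cons hadj q =>
    rename_i x
    refine ⟨x, hadj, ?_⟩
    have h1 : G.dist x r ≤ q.length := dist_le q
    have h2 := hadj.diff_dist_adj (u := r)
    simp only [Walk.length_cons] at hp
    rw [dist_comm] at h1
    omega

/-- A finite tree in which no vertex has three distinct neighbours maps bijectively and
edge-preservingly onto the path graph. -/
theorem exists_hom_path {n : ℕ} {T : SimpleGraph (Fin n)} (hT : T.IsTree)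
    (hdeg : ∀ w a b c, T.Adj w a → T.Adj w b → T.Adj w c → a = b ∨ a = c ∨ b = c) :
    ∃ d : Fin n → Fin n, Function.Bijective d ∧
      ∀ u v, T.Adj u v → (pathGraph n).Adj (d u) (d v) := by
  classical
  rcases subsingleton_or_nontrivial (Fin n) with hs | hs
  · exact ⟨id, Function.bijective_id, fun u v h => absurd (Subsingleton.elim u v) h.ne⟩
  obtain ⟨r, hr⟩ := hT.exists_vert_degree_one_of_nontrivial
  rw [degree_eq_one_iff_existsUnique_adj] at hr
  obtain ⟨r', -, hr'⟩ := hr
  have hlt : ∀ v, T.dist r v < n := by
    intro v
    obtain ⟨p, hp, hpl⟩ := hT.connected.exists_path_of_dist r v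
    have := hp.length_lt
    simpa [hpl] using this
  have hinj : ∀ k x y, T.dist r x = k → T.dist r y = k → x = y := by
    intro k
    induction k with
    | zero =>
      intro x y hx hy
      rw [hT.connected.dist_eq_zero_iff] at hx hy
      rw [← hx, ← hy]
    | succ k ih =>
      intro x y hx hy
      obtain ⟨x', hx1, hx2⟩ := exists_parent hT.connected r x k hx
      obtain ⟨y', hy1, hy2⟩ := exists_parent hT.connected r y k hy
      have := ih x' y' hx2 hy2
      subst this
      cases k with
      | zero =>
        rw [hT.connected.dist_eq_zero_iff] at hx2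
        subst hx2
        rw [hr' x hx1.symm, hr' y hy1.symm]
      | succ k =>
        obtain ⟨z, hz1, hz2⟩ := exists_parent hT.connected r x' k hx2
        rcases hdeg x' x y z hx1.symm hy1.symm hz1 with h | h | h
        · exact h
        · subst h; omega
        · subst h; omega
  refine ⟨fun v => ⟨T.dist r v, hlt v⟩, ?_, ?_⟩
  · apply Finite.injective_iff_bijective.mp
    intro x y hxy
    exact hinj _ x y rfl (by simpa using (congrArg Fin.val hxy).symm)
  · intro u v huv
    rw [pathGraph_adj]
    have := hT.dist_eq_dist_add_one_of_adj r huv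
    simp only
    omega

end Pool.Agent.Lib.helper3.Tree
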